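import Pool.Agent.FI37.Main

/-!
# The range `n ≥ C t log (t + 1)`
-/

namespace Pool.Agent.FI37

open Finset Equiv Nat Pool.Agent.H17.PermInt

theorem range {t n : ℕ} (ht : 1 ≤ t) (hn : (10 : ℝ) ^ 16 * t * Real.log (t + 1) ≤ n) :
    2 ≤ n ∧ (10 : ℝ) ^ 14 * t * Real.log n ≤ n := by
  have ht' : (1 : ℝ) ≤ t := by exact_mod_cast ht
  set l := Real.log (t + 1) with hl
  have hl2 : (0.693 : ℝ) ≤ l := by
    have h1 := Real.log_two_gt_d9
    have h2 : Real.log 2 ≤ l := Real.log_le_log (by norm_num) (by linarith)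
    linarith
  set T : ℝ := 10 ^ 16 * t * l with hT
  have htl : (0.693 : ℝ) ≤ t * l := by nlinarith
  have hT1 : (6.93 : ℝ) * 10 ^ 15 ≤ T := by
    have h1 : T = 10 ^ 16 * (t * l) := by rw [hT]; ring
    rw [h1]
    nlinarith
  have hTpos : 0 < T := by linarith
  have hnpos : (0 : ℝ) < n := by linarith
  constructor
  · have : (2 : ℝ) ≤ n := by linarith
    exact_mod_cast this
  -- `log T`
  have hlogT : Real.log T ≤ 55.5 * l := by
    have h1 : Real.log T = Real.log (10 ^ 16) + Real.log t + Real.log l := by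
      rw [hT, Real.log_mul (by positivity) (by linarith), Real.log_mul (by norm_num) (by linarith)]
    have h2 : Real.log t ≤ l := by
      rw [hl]
      exact Real.log_le_log (by linarith) (by linarith)
    have h3 : Real.log l ≤ l := (Real.log_le_sub_one_of_pos (by linarith)).trans (by linarith)
    have h4 : Real.log ((10 : ℝ) ^ 16) ≤ 37 := by
      rw [Real.log_pow]
      have h5 : Real.log 10 ≤ 2.311 := by
        have h6 : Real.log 10 = Real.log 2 + Real.log 5 := by
          rw [← Real.log_mul (by norm_num) (by norm_num)]; norm_num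
        -- `5^3 = 125 ≤ 128 = 2^7`
        have h7 : 3 * Real.log 5 ≤ 7 * Real.log 2 := by
          have h8 : Real.log ((5 : ℝ) ^ 3) ≤ Real.log ((2 : ℝ) ^ 7) :=
            Real.log_le_log (by norm_num) (by norm_num)
          rw [Real.log_pow, Real.log_pow] at h8
          exact_mod_cast h8
        have h9 := Real.log_two_lt_d9
        linarith
      norm_num
      linarith
    have h5 : (37 : ℝ) ≤ 53.5 * l := by linarith
    linarith
  have h1 : Real.log n ≤ n / T - 1 + Real.log T := by
    have h2 := Real.log_le_sub_one_of_pos (div_pos hnpos hTpos)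
    rw [Real.log_div hnpos.ne' hTpos.ne'] at h2
    linarith
  have h2 : (10 : ℝ) ^ 14 * t * (n / T) ≤ n / 69 := by
    have h3 : (10 : ℝ) ^ 14 * t * (n / T) = n / (100 * l) := by
      rw [hT]
      field_simp
      norm_num
    rw [h3]
    apply div_le_div_of_nonneg_left hnpos.le (by norm_num)
    linarith
  have h3 : (10 : ℝ) ^ 14 * t * Real.log T ≤ 0.555 * n := by
    calc (10 : ℝ) ^ 14 * t * Real.log T ≤ 10 ^ 14 * t * (55.5 * l) := by gcongr
      _ = 0.555 * T := by rw [hT]; ring
      _ ≤ 0.555 * n := by gcongr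
  calc (10 : ℝ) ^ 14 * t * Real.log n ≤ 10 ^ 14 * t * (n / T - 1 + Real.log T) := by gcongr
    _ = 10 ^ 14 * t * (n / T) - 10 ^ 14 * t + 10 ^ 14 * t * Real.log T := by ring
    _ ≤ n / 69 - 0 + 0.555 * n := by
        have : (0 : ℝ) ≤ 10 ^ 14 * t := by positivity
        linarith
    _ ≤ n := by linarith

end Pool.Agent.FI37
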