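import Pool.Agent.FI37.Defs

/-!
# Coupling two dense spread families

PROOF. `A = {σ ∈ A1 : gr σ ∩ (Y2 \ Y1) = ∅}`, `B = {τ ∈ A2 : gr τ ∩ (Y1 \ Y2) = ∅}`. The removed members of
`A1` number at most `Σ_{q ∈ Y2 \ Y1} |lk A1 q| ≤ |Y2| 6 |A1|/n ≤ |A1|/4` (`|Y2| ≤ d2 ≤ n/10^13`), so
`3 |A1| ≤ 4 |A|`; `Spr 8 Y1 A` : `n |lk A q| ≤ n |lk A1 q| ≤ 6 |A1| ≤ 8 |A|`; `Den (d1 + 1) Y1 A` by
`Den.scale` with `e = 1` (`4/3 ≤ e`). Same for `B`. `cA`: `q ∈ gr σ ∩ Y2`, `q ∉ Y1` is excluded.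
-/

namespace Pool.Agent.FI37

open Finset Equiv Nat Pool.Agent.H17.PermInt

variable {n : ℕ}

/-- avoiding few pairs costs at most a quarter -/
theorem filtI {Y Q : Finset (Fin n × Fin n)} {A : Finset (Perm (Fin n))} (hn0 : 0 < n)
    (hp : Spr 6 Y A) (hQ : ∀ q ∈ Q, q ∉ Y) (hQc : 24 * Q.card ≤ n) :
    3 * A.card ≤ 4 * (A.filter fun σ => Disjoint (gr σ) Q).card := by
  classical
  have h1 : A.filter (fun σ => ¬ Disjoint (gr σ) Q) ⊆ Q.biUnion fun q => lk A q := by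
    intro σ hσ
    rw [mem_filter, not_disjoint_iff] at hσ
    obtain ⟨hσ, q, hq, hqQ⟩ := hσ
    rw [mem_biUnion]
    exact ⟨q, hqQ, mem_lk.mpr ⟨hσ, hq⟩⟩
  have h2 : (A.filter (fun σ => ¬ Disjoint (gr σ) Q)).card ≤ ∑ q ∈ Q, (lk A q).card :=
    (card_le_card h1).trans card_biUnion_le
  have h3 : n * ∑ q ∈ Q, (lk A q).card ≤ Q.card * (6 * A.card) := by
    rw [mul_sum, ← smul_eq_mul (a := Q.card), ← sum_const]
    exact sum_le_sum fun q hq => hp q (hQ q hq)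
  have h4 : (A.filter fun σ => Disjoint (gr σ) Q).card +
      (A.filter (fun σ => ¬ Disjoint (gr σ) Q)).card = A.card :=
    card_filter_add_card_filter_not _
  have h5 : n * (4 * (A.filter (fun σ => ¬ Disjoint (gr σ) Q)).card) ≤ n * A.card := by
    calc n * (4 * (A.filter (fun σ => ¬ Disjoint (gr σ) Q)).card)
        ≤ n * (4 * ∑ q ∈ Q, (lk A q).card) := by gcongr
      _ = 4 * (n * ∑ q ∈ Q, (lk A q).card) := by ring
      _ ≤ 4 * (Q.card * (6 * A.card)) := by gcongr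
      _ = (24 * Q.card) * A.card := by ring
      _ ≤ n * A.card := by gcongr
  have h6 := Nat.le_of_mul_le_mul_left h5 hn0
  omega

theorem init (hn : 10 ^ 15 ≤ n) {d1 d2 : ℝ} {Y1 Y2 : Finset (Fin n × Fin n)}
    {A1 A2 : Finset (Perm (Fin n))} (hS1 : InSt Y1 A1) (hS2 : InSt Y2 A2) (hp1 : Spr 6 Y1 A1)
    (hp2 : Spr 6 Y2 A2) (hD1 : Den d1 Y1 A1) (hD2 : Den d2 Y2 A2) (hd1 : d1 ≤ (n : ℝ) / 10 ^ 13)
    (hd2 : d2 ≤ (n : ℝ) / 10 ^ 13) :
    ∃ A B : Finset (Perm (Fin n)), A ⊆ A1 ∧ B ⊆ A2 ∧ Cpl (d1 + 1) (d2 + 1) Y1 A Y2 B := by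
  classical
  have hnR : (10 : ℝ) ^ 15 ≤ n := by exact_mod_cast hn
  have hn0 : 0 < n := lt_of_lt_of_le (by norm_num) hn
  have hy1 := hD1.card_le hS1
  have hy2 := hD2.card_le hS2
  have hy1' : 24 * Y1.card ≤ n := by
    have : (24 : ℝ) * Y1.card ≤ n := by linarith
    exact_mod_cast this
  have hy2' : 24 * Y2.card ≤ n := by
    have : (24 : ℝ) * Y2.card ≤ n := by linarith
    exact_mod_cast this
  have key : ∀ {d : ℝ} {Y Q : Finset (Fin n × Fin n)} {A : Finset (Perm (Fin n))}, InSt Y A →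
      Spr 6 Y A → Den d Y A → 24 * Q.card ≤ n →
      InSt Y (A.filter fun σ => Disjoint (gr σ) (Q \ Y)) ∧
      Spr 8 Y (A.filter fun σ => Disjoint (gr σ) (Q \ Y)) ∧
      Den (d + 1) Y (A.filter fun σ => Disjoint (gr σ) (Q \ Y)) := by
    intro d Y Q A hS hp hD hQ
    have h34 : 3 * A.card ≤ 4 * (A.filter fun σ => Disjoint (gr σ) (Q \ Y)).card := by
      apply filtI hn0 hp
      · intro q hq
        exact (mem_sdiff.mp hq).2
      · have := card_le_card (sdiff_subset (s := Q) (t := Y))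
        omega
    refine ⟨hS.mono (filter_subset _ _), ?_, ?_⟩
    · intro q hq
      have h1 := hp q hq
      have h2 := card_lk_mono (filter_subset (fun σ => Disjoint (gr σ) (Q \ Y)) A) q
      calc _ ≤ n * (lk A q).card := by gcongr
        _ ≤ 6 * A.card := h1
        _ ≤ _ := by omega
    · apply hD.scale
      have h2 : (2.7 : ℝ) ≤ Real.exp 1 := by have := Real.exp_one_gt_d9; linarith
      have h3 : (3 : ℝ) * A.card ≤ 4 * (A.filter fun σ => Disjoint (gr σ) (Q \ Y)).card := by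
        exact_mod_cast h34
      have h4 : (0 : ℝ) ≤ (A.filter fun σ => Disjoint (gr σ) (Q \ Y)).card := Nat.cast_nonneg _
      nlinarith
  obtain ⟨a1, a2, a3⟩ := key hS1 hp1 hD1 hy2'
  obtain ⟨b1, b2, b3⟩ := key hS2 hp2 hD2 hy1'
  refine ⟨_, _, filter_subset _ _, filter_subset _ _, ⟨a1, b1, a2, b2, a3, b3, ?_, ?_⟩⟩
  · intro σ hσ q hq
    rw [mem_inter] at hq
    by_contra hc
    exact (disjoint_left.mp (mem_filter.mp hσ).2) hq.1 (mem_sdiff.mpr ⟨hq.2, hc⟩)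
  · intro σ hσ q hq
    rw [mem_inter] at hq
    by_contra hc
    exact (disjoint_left.mp (mem_filter.mp hσ).2) hq.1 (mem_sdiff.mpr ⟨hq.2, hc⟩)

end Pool.Agent.FI37
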