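import Pool.Agent.FI37.Seq

/-!
# An exponential moment bound over a star

PROOF. Expand `Π_{i ∈ R} (1 + x i (σ i)) = Σ_{S ⊆ R} Π_{i ∈ S} x i (σ i)` (`Finset.prod_one_add` /
`Finset.prod_add`), exchange sums. For `S ⊆ R` put `w i j = x i j` if `j ∉ Z.image Prod.snd`, else `0`
(for `σ ∈ st Z`, `i ∈ R` we have `σ i ∉ Z.image Prod.snd`, as `i` is not a row of `Z`, injectivity), and
`W i = Σ_{j ∈ (Z.image Prod.snd)ᶜ} x i j`. `seq2`: the term of `S` is `≤ (Π_{i ∈ S} W i) (N - |S|)!`, where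
`N = n - |Z|`. `(N - q)! N^q ≤ e^q N!` for `q ≤ N`: (`N!/(N-q)! = C(N,q) q!`, `N^q/q^q ≤ C(N,q)`
(`Nat.pow_le_choose`-like: or directly by induction / `Nat.choose` bound), `q^q ≤ e^q q!`
(`Real.pow_div_factorial_le_exp`)); for `q > N` one has `(N-q)! = 1` and the term is `0` — to avoid this:
if `st Z` is nonempty then `|S| ≤ |R| ≤ N` because the rows of `Z` and `R` are disjoint; if `st Z = ∅`
the claim is trivial. So the sum is `≤ N! Σ_S Π_{i ∈ S} (e W i/N) = N! Π_{i ∈ R} (1 + e W i/N)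
≤ N! exp (e Σ W i/N) ≤ N! exp (e X/N)` (`1 + x ≤ exp x`).
-/

namespace Pool.Agent.FI37

open Finset Equiv Nat Pool.Agent.H17.PermInt

variable {n : ℕ}

/-- `(N - q)! N^q ≤ e^q N!` -/
theorem pow_le_desc (N : ℕ) : ∀ q : ℕ, q ≤ N →
    (N : ℝ) ^ q ≤ Real.exp q * (N.descFactorial q : ℝ) := by
  induction N with
  | zero =>
    intro q hq
    have : q = 0 := by omega
    subst this
    simp
  | succ N ih =>
    intro q hq
    cases q with
    | zero => simp
    | succ q =>
      have hqN : q ≤ N := by omega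
      have h1 := ih q hqN
      rw [Nat.succ_descFactorial_succ]
      have h2 : ((N + 1 : ℕ) : ℝ) ^ q ≤ (N : ℝ) ^ q * Real.exp 1 := by
        rcases Nat.eq_zero_or_pos N with hN | hN
        · have : q = 0 := by omega
          subst this
          simp
        · have hN' : (0 : ℝ) < N := by exact_mod_cast hN
          have h3 : ((N + 1 : ℕ) : ℝ) ≤ N * Real.exp (1 / N) := by
            have h4 := Real.add_one_le_exp (1 / (N : ℝ))
            have h5 : (N : ℝ) * (1 / N + 1) ≤ N * Real.exp (1 / N) := by gcongr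
            have h6 : (N : ℝ) * (1 / N + 1) = ((N + 1 : ℕ) : ℝ) := by
              push_cast
              field_simp
              ring
            rwa [h6] at h5
          calc ((N + 1 : ℕ) : ℝ) ^ q ≤ (N * Real.exp (1 / N)) ^ q := by gcongr
            _ = (N : ℝ) ^ q * Real.exp (q * (1 / N)) := by rw [mul_pow, ← Real.exp_nat_mul]
            _ ≤ (N : ℝ) ^ q * Real.exp 1 := by
                gcongr
                rw [mul_one_div, div_le_one hN']
                exact_mod_cast hqN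
      calc ((N + 1 : ℕ) : ℝ) ^ (q + 1) = ((N + 1 : ℕ) : ℝ) * ((N + 1 : ℕ) : ℝ) ^ q := by
            rw [pow_succ]
            ring
        _ ≤ ((N + 1 : ℕ) : ℝ) * ((N : ℝ) ^ q * Real.exp 1) := by gcongr
        _ ≤ ((N + 1 : ℕ) : ℝ) * ((Real.exp q * (N.descFactorial q : ℝ)) * Real.exp 1) := by gcongr
        _ = Real.exp ((q + 1 : ℕ) : ℝ) * (((N + 1) * N.descFactorial q : ℕ) : ℝ) := by
            push_cast
            rw [Real.exp_add]
            ring

theorem fact_sub_le {N q : ℕ} (hq : q ≤ N) :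
    ((N - q)! : ℝ) * (N : ℝ) ^ q ≤ Real.exp q * (N ! : ℝ) := by
  have h1 := Nat.factorial_mul_descFactorial hq
  have h2 := pow_le_desc N q hq
  have h3 : (N ! : ℝ) = ((N - q)! : ℝ) * (N.descFactorial q : ℝ) := by
    rw [← h1]
    push_cast
    ring
  calc ((N - q)! : ℝ) * (N : ℝ) ^ q ≤ ((N - q)! : ℝ) * (Real.exp q * (N.descFactorial q : ℝ)) := by
        gcongr
    _ = Real.exp q * (N ! : ℝ) := by
        rw [h3]
        ring

theorem expM (x : Fin n → Fin n → ℝ) (hx : ∀ i j, 0 ≤ x i j) (R : Finset (Fin n))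
    (Z : Finset (Fin n × Fin n)) (hRZ : ∀ q ∈ Z, q.1 ∉ R) (hZn : Z.card < n) (X : ℝ)
    (hX : ∑ i ∈ R, ∑ j ∈ (Z.image Prod.snd)ᶜ, x i j ≤ X) :
    ∑ σ ∈ st Z, ∏ i ∈ R, (1 + x i (σ i)) ≤
      ((n - Z.card)! : ℝ) * Real.exp (Real.exp 1 * X / ((n - Z.card : ℕ) : ℝ)) := by
  classical
  rcases (st Z).eq_empty_or_nonempty with hZ | ⟨σ₀, hσ₀⟩
  · rw [hZ, sum_empty]
    positivity
  rw [mem_st] at hσ₀
  set N := n - Z.card with hN
  have hN0 : 0 < N := by omega
  have hN0' : (0 : ℝ) < N := by exact_mod_cast hN0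
  set C := Z.image Prod.snd with hC
  have hRN : R.card ≤ N := by
    have h1 : Disjoint (Z.image Prod.fst) R := by
      rw [disjoint_left]
      intro a ha haR
      rw [mem_image] at ha
      obtain ⟨q, hq, rfl⟩ := ha
      exact hRZ q hq haR
    have h2 := card_le_card (subset_univ (Z.image Prod.fst ∪ R))
    rw [card_union_of_disjoint h1, card_fst hσ₀, Finset.card_univ, Fintype.card_fin] at h2
    omega
  set w : Fin n → Fin n → ℝ := fun i j => if j ∈ C then 0 else x i j with hw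
  have hw0 : ∀ i j, 0 ≤ w i j := by
    intro i j
    rw [hw]
    dsimp only
    split_ifs
    · exact le_refl _
    · exact hx i j
  set W : Fin n → ℝ := fun i => ∑ j ∈ Cᶜ, x i j with hW
  have hW0 : ∀ i, 0 ≤ W i := fun i => sum_nonneg fun j _ => hx i j
  have hwW : ∀ i, ∑ j, w i j ≤ W i := by
    intro i
    rw [← sum_add_sum_compl C (fun j => w i j)]
    have h1 : ∑ j ∈ C, w i j = 0 := by
      apply sum_eq_zero
      intro j hj
      simp [hw, hj]
    have h2 : ∑ j ∈ Cᶜ, w i j = W i := by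
      apply sum_congr rfl
      intro j hj
      rw [mem_compl] at hj
      simp [hw, hj]
    rw [h1, h2, zero_add]
  have hxw : ∀ σ ∈ st Z, ∀ i ∈ R, x i (σ i) = w i (σ i) := by
    intro σ hσ i hi
    rw [mem_st] at hσ
    have : σ i ∉ C := by
      rw [hC, mem_image]
      rintro ⟨q, hq, hqe⟩
      have h1 := mem_gr.mp (hσ hq)
      rw [hqe] at h1
      exact hRZ q hq (by rw [σ.injective h1]; exact hi)
    simp [hw, this]
  have hE0 : (0 : ℝ) < Real.exp 1 := Real.exp_pos 1
  have hS : ∀ S ∈ R.powerset, ∑ σ ∈ st Z, ∏ i ∈ S, w i (σ i) ≤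
      (N ! : ℝ) * ∏ i ∈ S, (Real.exp 1 * W i / N) := by
    intro S hS
    rw [mem_powerset] at hS
    have h1 := seq2 w hw0 W S Z (fun q hq hqS => hRZ q hq (hS hqS)) (fun i _ => hwW i)
    rw [← hN] at h1
    have hSN : S.card ≤ N := (card_le_card hS).trans hRN
    have h2 := fact_sub_le hSN
    have hP0 : 0 ≤ ∏ i ∈ S, W i := prod_nonneg fun i _ => hW0 i
    have h3 : ((N - S.card)! : ℝ) ≤ (N ! : ℝ) * (Real.exp 1 / N) ^ S.card := by
      rw [div_pow, mul_div_assoc', le_div_iff₀ (by positivity)]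
      calc _ ≤ _ := h2
        _ = _ := by
          have : Real.exp (S.card : ℝ) = Real.exp 1 ^ S.card := by
            rw [← Real.exp_nat_mul, mul_one]
          rw [this]
          ring
    calc _ ≤ _ := h1
      _ ≤ (∏ i ∈ S, W i) * ((N ! : ℝ) * (Real.exp 1 / N) ^ S.card) := by gcongr
      _ = (N ! : ℝ) * ∏ i ∈ S, (Real.exp 1 * W i / N) := by
          have h4 : ∏ i ∈ S, (Real.exp 1 * W i / N) = (∏ i ∈ S, W i) *
              (Real.exp 1 / N) ^ S.card := by
            rw [← prod_const, ← prod_mul_distrib]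
            apply prod_congr rfl
            intro i _
            ring
          rw [h4]
          ring
  calc ∑ σ ∈ st Z, ∏ i ∈ R, (1 + x i (σ i))
      = ∑ σ ∈ st Z, ∑ S ∈ R.powerset, ∏ i ∈ S, w i (σ i) := by
        apply sum_congr rfl
        intro σ hσ
        rw [← prod_one_add]
        apply prod_congr rfl
        intro i hi
        rw [hxw σ hσ i hi]
    _ = ∑ S ∈ R.powerset, ∑ σ ∈ st Z, ∏ i ∈ S, w i (σ i) := sum_comm
    _ ≤ ∑ S ∈ R.powerset, (N ! : ℝ) * ∏ i ∈ S, (Real.exp 1 * W i / N) := sum_le_sum hS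
    _ = (N ! : ℝ) * ∏ i ∈ R, (1 + Real.exp 1 * W i / N) := by rw [← mul_sum, ← prod_one_add]
    _ ≤ (N ! : ℝ) * Real.exp (∑ i ∈ R, Real.exp 1 * W i / N) := by
        rw [Real.exp_sum]
        gcongr with i hi
        · intro i _
          have := hW0 i
          positivity
        · have := Real.add_one_le_exp (Real.exp 1 * W i / N)
          linarith
    _ ≤ (N ! : ℝ) * Real.exp (Real.exp 1 * X / N) := by
        gcongr
        rw [← sum_div, ← mul_sum]
        gcongr

end Pool.Agent.FI37
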