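import Pool.Agent.FI37.UT

/-!
# Phase 2: few members use the columns `J` on the rows `R` often

PROOF. `H = R ×ˢ J`, disjoint from `Y` (rows). The left side sum is `Σ_{τ ∈ B₁} |gr τ ∩ H|` (double
counting: `(lk B₁ p).card = Σ_{τ ∈ B₁} [p ∈ gr τ]`), and `|gr τ ∩ H| ≤ |R|`. Let `r = |R| = n/1000`,
`x = ⌈r/20⌉` (e.g. `r/20 + 1`), `y = |Y| ≤ b ≤ n/10^13`. Members of `B₁` with `|gr τ ∩ H| ≥ x`: at most
(`ut`) `C(r |J|, x) (n - y - x)!`. With `C(M,x) ≤ M^x/x! ≤ (e M/x)^x` and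
`(n-y-x)! (n-y-x)^x ≤ (n-y)!` this is `≤ (e r |J|/(x (n-y-x)))^x (n-y)!`; `x ≥ r/20`, `|J| ≤ n/900`,
`n - y - x ≥ 0.999 n`: the base is `≤ 20 e/(900 · 0.999) ≤ 0.061 ≤ e^{-2}`. And
`(n-y)! ≤ e^b |B| ≤ e^b 10^7 |B₁|` (`Den.le_card`), so the number is
`≤ e^{-2x + b} 10^7 |B₁| ≤ |B₁|/1000` (`x ≥ n/20001`, `b ≤ n/10^13`, `e^{x} ≥ 10^{10}`).
So the sum is `≤ (x + r/1000) |B₁| ≤ (r/20 + 1 + r/1000)|B₁| ≤ r |B₁|/15`.
-/

namespace Pool.Agent.FI37

open Finset Equiv Nat Pool.Agent.H17.PermInt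

variable {n : ℕ}

theorem ph2Avg (hn : 10 ^ 15 ≤ n) {b : ℝ} {Y : Finset (Fin n × Fin n)}
    {B B₁ : Finset (Perm (Fin n))} (hS : InSt Y B) (hD : Den b Y B) (hb : b ≤ (n : ℝ) / 10 ^ 13)
    (hsub : B₁ ⊆ B) (hB₁ : B.card ≤ 10 ^ 7 * B₁.card) (R J : Finset (Fin n))
    (hR : R.card = n / 1000) (hRY : ∀ i ∈ R, i ∉ Y.image Prod.fst) (hJ : 900 * J.card ≤ n) :
    15 * ∑ i ∈ R, ∑ j ∈ J, (lk B₁ (i, j)).card ≤ R.card * B₁.card := by
  classical
  have hnR : (10 : ℝ) ^ 15 ≤ n := by exact_mod_cast hn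
  have hy := hD.card_le hS
  set y := Y.card with hyd
  set r := n / 1000 with hr
  set x := r / 20 + 1 with hx
  have hr1 : 10 ^ 12 ≤ r := by omega
  have hB₁0 : (0 : ℝ) < B₁.card := by
    have h1 : 0 < B.card := Finset.card_pos.mpr hD.nonempty
    have h2 : 0 < B₁.card := by
      by_contra hc
      have : B₁.card = 0 := by omega
      omega
    exact_mod_cast h2
  set H := R ×ˢ J with hH
  have hdis : Disjoint Y H := by
    rw [disjoint_left]
    intro q hq hqH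
    rw [hH, mem_product] at hqH
    exact hRY q.1 hqH.1 (mem_image_of_mem _ hq)
  have hHc : H.card = r * J.card := by rw [hH, card_product, hR]
  -- double counting
  have hsum : ∑ i ∈ R, ∑ j ∈ J, (lk B₁ (i, j)).card = ∑ τ ∈ B₁, (gr τ ∩ H).card := by
    rw [← sum_product']
    have h1 : ∀ p ∈ R ×ˢ J, (lk B₁ (p.1, p.2)).card = ∑ τ ∈ B₁, if p ∈ gr τ then 1 else 0 := by
      intro p _
      rw [lk, card_filter]
    rw [sum_congr rfl h1, sum_comm]
    apply sum_congr rfl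
    intro τ _
    rw [← card_filter]
    congr 1
    ext p
    rw [mem_filter, mem_inter, and_comm]
  have hle : ∀ τ : Perm (Fin n), (gr τ ∩ H).card ≤ r := by
    intro τ
    rw [← hR]
    apply card_le_card_of_injOn Prod.fst
    · intro q hq
      rw [mem_coe, mem_inter, hH, mem_product] at hq
      exact hq.2.1
    · intro a ha b hb hab
      rw [mem_coe, mem_inter] at ha hb
      exact fst_injOn_gr τ (by exact_mod_cast ha.1) (by exact_mod_cast hb.1) hab
  set E := B₁.filter fun τ => x ≤ (gr τ ∩ H).card with hE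
  have hEut : (E.card : ℝ) ≤ (H.card.choose x : ℝ) * ((n - y - x)! : ℝ) := by
    have h1 : E ⊆ (st Y).filter fun τ => x ≤ (gr τ ∩ H).card := by
      apply filter_subset_filter
      exact hsub.trans hS.subset
    have h2 := (card_le_card h1).trans (ut Y H hdis x)
    exact_mod_cast h2
  -- numerics
  have hyN : 1000 * y ≤ n := by
    have : (1000 : ℝ) * y ≤ n := by linarith
    exact_mod_cast this
  have hx0 : (0 : ℝ) < x := by
    rw [hx]
    positivity
  have hxr : (r : ℝ) / 20 ≤ x := by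
    have h1 : r ≤ 20 * x := by omega
    have h2 : (r : ℝ) ≤ 20 * x := by exact_mod_cast h1
    linarith
  set k := n - y with hk
  have hkx : 99 * n ≤ 100 * (k - x + 1) := by omega
  have hkx' : (99 : ℝ) * n ≤ 100 * ((k - x + 1 : ℕ) : ℝ) := by exact_mod_cast hkx
  set v : ℝ := ((k - x + 1 : ℕ) : ℝ) with hv
  have hv0 : 0 < v := by linarith
  have hfac : ((k - x)! : ℝ) * v ^ x ≤ (k ! : ℝ) := by
    have h1 : (k - x)! * (k - x + 1) ^ x ≤ (k - x + x)! := Nat.factorial_mul_pow_le_factorial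
    rw [Nat.sub_add_cancel (by omega)] at h1
    rw [hv]
    exact_mod_cast h1
  have hchoose : (H.card.choose x : ℝ) ≤ (H.card : ℝ) ^ x / (x ! : ℝ) :=
    Nat.choose_le_pow_div x H.card
  have hxx : (x : ℝ) ^ x / (x ! : ℝ) ≤ Real.exp x :=
    Real.pow_div_factorial_le_exp (x : ℝ) hx0.le x
  have hJ' : (900 : ℝ) * J.card ≤ n := by exact_mod_cast hJ
  have hH' : (H.card : ℝ) = r * J.card := by rw [hHc]; push_cast; ring
  have he3 : Real.exp 3 ≤ 20.2 := by
    have h1 : Real.exp 3 = Real.exp 1 ^ 3 := by rw [← Real.exp_nat_mul]; norm_num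
    rw [h1]
    have h2 : Real.exp 1 ≤ 2.7182818286 := Real.exp_one_lt_d9.le
    calc Real.exp 1 ^ 3 ≤ (2.7182818286 : ℝ) ^ 3 := by gcongr
      _ ≤ _ := by norm_num
  have hr0 : (0 : ℝ) ≤ r := Nat.cast_nonneg _
  have hJ0 : (0 : ℝ) ≤ J.card := Nat.cast_nonneg _
  have hbase : (H.card : ℝ) * Real.exp 3 ≤ x * v := by
    rw [hH']
    calc (r : ℝ) * J.card * Real.exp 3 ≤ r * (n / 900) * 20.2 := by
          gcongr
          linarith
      _ ≤ (r / 20) * ((99 / 100) * n) := by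
          have : 0 ≤ (r : ℝ) * n := by positivity
          nlinarith
      _ ≤ x * v := by
          gcongr
          linarith
  have hmain : (H.card.choose x : ℝ) * ((k - x)! : ℝ) ≤ Real.exp (-(2 * (x : ℝ))) * (k ! : ℝ) := by
    have h1 : ((H.card : ℝ) * Real.exp 3) ^ x ≤ (x * v) ^ x := by gcongr
    have h2 : Real.exp 3 ^ x = Real.exp (3 * x) := by
      rw [← Real.exp_nat_mul]
      ring_nf
    rw [mul_pow, mul_pow, h2] at h1
    have hxp : (0 : ℝ) < (x : ℝ) ^ x := by positivity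
    have hvp : (0 : ℝ) < v ^ x := by positivity
    have h3 : (H.card : ℝ) ^ x / (x ! : ℝ) ≤ (H.card : ℝ) ^ x * Real.exp x / (x : ℝ) ^ x := by
      rw [le_div_iff₀ hxp]
      calc (H.card : ℝ) ^ x / (x ! : ℝ) * (x : ℝ) ^ x
          = (H.card : ℝ) ^ x * ((x : ℝ) ^ x / (x ! : ℝ)) := by ring
        _ ≤ _ := by gcongr
    have h4 : ((k - x)! : ℝ) ≤ (k ! : ℝ) / v ^ x := by
      rw [le_div_iff₀ hvp]
      exact hfac
    calc (H.card.choose x : ℝ) * ((k - x)! : ℝ)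
        ≤ ((H.card : ℝ) ^ x * Real.exp x / (x : ℝ) ^ x) * ((k ! : ℝ) / v ^ x) := by
          gcongr
          exact hchoose.trans h3
      _ = ((H.card : ℝ) ^ x * Real.exp (3 * x)) * (Real.exp (-(2 * (x : ℝ))) * (k ! : ℝ)) /
            ((x : ℝ) ^ x * v ^ x) := by
          have : Real.exp (x : ℝ) = Real.exp (3 * (x : ℝ)) * Real.exp (-(2 * (x : ℝ))) := by
            rw [← Real.exp_add]
            ring_nf
          rw [this]
          field_simp
      _ ≤ ((x : ℝ) ^ x * v ^ x) * (Real.exp (-(2 * (x : ℝ))) * (k ! : ℝ)) /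
            ((x : ℝ) ^ x * v ^ x) := by gcongr
      _ = _ := by field_simp
  have hEle : (E.card : ℝ) ≤ B₁.card / 1000 := by
    have h1 : ((n - y)! : ℝ) ≤ Real.exp b * B.card := hD.le_card
    rw [← hk] at h1
    have h2 : (B.card : ℝ) ≤ 10 ^ 7 * B₁.card := by exact_mod_cast hB₁
    have h3 : (10 : ℝ) ^ 10 ≤ Real.exp (2 * x - b) := by
      have h4 := Real.add_one_le_exp (2 * (x : ℝ) - b)
      have h5 : (10 : ℝ) ^ 12 ≤ r := by exact_mod_cast hr1
      have h6 : (n : ℝ) ≤ 1001 * r := by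
        have : n ≤ 1001 * r := by omega
        exact_mod_cast this
      nlinarith
    have h4 : Real.exp (-(2 * (x : ℝ))) * Real.exp b * Real.exp (2 * x - b) = 1 := by
      rw [← Real.exp_add, ← Real.exp_add]
      ring_nf
      exact Real.exp_zero
    have h5 : Real.exp (-(2 * (x : ℝ))) * Real.exp b ≤ 1 / 10 ^ 10 := by
      rw [le_div_iff₀ (by positivity)]
      calc Real.exp (-(2 * (x : ℝ))) * Real.exp b * 10 ^ 10
          ≤ Real.exp (-(2 * (x : ℝ))) * Real.exp b * Real.exp (2 * x - b) := by gcongr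
        _ = 1 := h4
    calc (E.card : ℝ) ≤ _ := hEut
      _ ≤ Real.exp (-(2 * (x : ℝ))) * (k ! : ℝ) := hmain
      _ ≤ Real.exp (-(2 * (x : ℝ))) * (Real.exp b * (10 ^ 7 * B₁.card)) := by
          gcongr
          exact h1.trans (by gcongr)
      _ = (Real.exp (-(2 * (x : ℝ))) * Real.exp b) * (10 ^ 7 * B₁.card) := by ring
      _ ≤ (1 / 10 ^ 10) * (10 ^ 7 * B₁.card) := by gcongr
      _ = _ := by ring
  -- conclusion
  have hfin : ∑ τ ∈ B₁, (gr τ ∩ H).card ≤ x * B₁.card + r * E.card := by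
    have h1 : ∀ τ ∈ B₁, (gr τ ∩ H).card ≤ x + (if x ≤ (gr τ ∩ H).card then r else 0) := by
      intro τ _
      split_ifs with hc
      · exact (hle τ).trans (Nat.le_add_left _ _)
      · omega
    calc ∑ τ ∈ B₁, (gr τ ∩ H).card
        ≤ ∑ τ ∈ B₁, (x + (if x ≤ (gr τ ∩ H).card then r else 0)) := sum_le_sum h1
      _ = x * B₁.card + r * E.card := by
          rw [sum_add_distrib, sum_const, smul_eq_mul, ← sum_filter, sum_const, smul_eq_mul]
          ring
  rw [hsum, hR]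
  have h7 : (15 : ℝ) * ((∑ τ ∈ B₁, (gr τ ∩ H).card : ℕ) : ℝ) ≤ r * B₁.card := by
    have h8 : ((∑ τ ∈ B₁, (gr τ ∩ H).card : ℕ) : ℝ) ≤ x * B₁.card + r * E.card := by
      exact_mod_cast hfin
    have h9 : (x : ℝ) ≤ r / 20 + 1 := by
      have : 20 * x ≤ r + 20 := by omega
      have h10 : (20 : ℝ) * x ≤ r + 20 := by exact_mod_cast this
      linarith
    have h5 : (10 : ℝ) ^ 12 ≤ r := by exact_mod_cast hr1
    have h10 : (x : ℝ) * B₁.card ≤ (r / 20 + 1) * B₁.card := by gcongr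
    have h11 : (r : ℝ) * E.card ≤ r * (B₁.card / 1000) := by gcongr
    have h12 : (15 : ℝ) * (r / 20 + 1 + r / 1000) ≤ r := by linarith
    calc (15 : ℝ) * ((∑ τ ∈ B₁, (gr τ ∩ H).card : ℕ) : ℝ)
        ≤ 15 * ((r / 20 + 1) * B₁.card + r * (B₁.card / 1000)) := by linarith
      _ = 15 * (r / 20 + 1 + r / 1000) * B₁.card := by ring
      _ ≤ r * B₁.card := by gcongr
  exact_mod_cast h7

end Pool.Agent.FI37
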