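import Pool.Agent.FI37.Phase1
import Pool.Agent.FI37.Ph2Avg
import Pool.Agent.FI37.ExpM

/-!
# A dense spread pair has members agreeing exactly on the common part

PROOF. Let `R₀ = rows YA ∪ rows YB`, `|R₀| ≤ |YA| + |YB| ≤ 2 n/10^13` (`Den.card_le`, `card_image_le`);
`Q` its complement, `Q₂ ⊆ Q` with `|Q₂| = n/1000` (floor), `Q₁ = Q \ Q₂`. `phase1` with `Q₁`
(`|YA| + |Q₁| + n/1000 ≤ n` as `YA`'s rows (`card_fst`), `Q₁`, `Q₂` are disjoint): `s`, `A₁`, `B₁`. Let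
`Z = YA ∪ s`, `|Z| = |YA| + |Q₁|`, `N = n - |Z|`, so `N ≥ |Q₂| = n/1000` and `N ≤ n - (n - |R₀| - |Q₂|)
≤ n/1000 + 2n/10^13 ≤ n/900`. `J = (Z.image Prod.snd)ᶜ`, `|J| = N` (a member of `A₁` contains `Z`;
`A₁` is nonempty by the bound of `phase1`). `ph2Avg`: `15 Σ_{i ∈ Q₂} Σ_{j ∈ J} |lk B₁ (i,j)| ≤ |Q₂||B₁|`.
Put `β i j = |lk B₁ (i,j)|/|B₁|` for `i ∈ Q₂` (`B₁` nonempty: `|B| ≤ 10^7 |B₁|`);
`|lk B₁ (i,j)| ≤ |lk B (i,j)| ≤ 8 |B|/n ≤ 8·10^7 |B₁|/n`, so with `μ = n/(8·10^7)`: `μ β ≤ 1` and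
`exp (μ β) ≤ 1 + 2 μ β` . CLAIM: some `σ ∈ A₁` has `T σ = Σ_{i ∈ Q₂} β i (σ i) < 1`. Otherwise
`|A₁| e^μ ≤ Σ_{σ ∈ A₁} Π_{i ∈ Q₂} exp (μ β i (σ i)) ≤ Σ_{σ ∈ st Z} Π_{i ∈ Q₂} (1 + 2 μ β i (σ i))
≤ N! exp (e · 2 μ (|Q₂|/15)/N) ≤ N! exp (2 e μ/15)` (`expM`, `|Q₂| ≤ N`), and
`N! ≤ exp (2n/10^9) |A₁|`, so `μ ≤ 2 e μ/15 + 2 n/10^9`, `(1 - 2e/15) μ ≥ 0.63 n/(8·10^7) > 2 n/10^9`:
contradiction. For this `σ`: the members `τ ∈ B₁` with `τ i = σ i` for some `i ∈ Q₂` number at most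
`Σ_{i ∈ Q₂} |lk B₁ (i, σ i)| = T σ |B₁| < |B₁|`; take `τ ∈ B₁` not among them. Then `gr σ ∩ gr τ = YA ∩ YB`:
`⊇` clear. `⊆`: `q ∈ gr σ ∩ gr τ`. If `q.1 ∈ rows YB`: some `q' ∈ YB ⊆ gr τ` has the same row, so `q = q' ∈ YB`,
`q ∈ gr σ ∩ YB ⊆ YA`. If `q.1 ∈ rows YA`: the same with `cB`. If `q.1 ∈ Q₁`: `s ⊆ gr σ` has a pair in this row,
so `q ∈ s`, contradicting `Disjoint (gr τ) s`. If `q.1 ∈ Q₂`: excluded by the choice of `τ`.
-/

namespace Pool.Agent.FI37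

open Finset Equiv Nat Pool.Agent.H17.PermInt

variable {n : ℕ}

private theorem exp_le_two {t : ℝ} (h0 : 0 ≤ t) (h1 : t ≤ 1) : Real.exp t ≤ 1 + 2 * t := by
  have h2 := Real.abs_exp_sub_one_sub_id_le (x := t) (by rw [abs_of_nonneg h0]; exact h1)
  have h3 := (abs_le.1 h2).2
  nlinarith

private theorem nat_card_le {Y : Finset (Fin n × Fin n)} {d : ℝ} (h1 : (Y.card : ℝ) ≤ d)
    (h2 : d ≤ (n : ℝ) / 10 ^ 13) : 10 ^ 13 * Y.card ≤ n := by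
  have h3 : (Y.card : ℝ) ≤ (n : ℝ) / 10 ^ 13 := h1.trans h2
  rw [le_div_iff₀ (by positivity)] at h3
  have h4 : ((10 ^ 13 * Y.card : ℕ) : ℝ) ≤ (n : ℝ) := by
    push_cast
    linarith
  exact_mod_cast h4

/-- the member of `A₁` -/
private theorem claim (hn : 10 ^ 15 ≤ n) {A₁ B B₁ : Finset (Perm (Fin n))}
    {YB Z : Finset (Fin n × Fin n)} {Q₂ : Finset (Fin n)} (hB₁ : B₁.Nonempty)
    (hsub : B₁ ⊆ B) (hBB : B.card ≤ 10 ^ 7 * B₁.card) (spB : Spr 8 YB B)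
    (hQB : ∀ i ∈ Q₂, ∀ j, (i, j) ∉ YB) (hRZ : ∀ q ∈ Z, q.1 ∉ Q₂) (hZ : InSt Z A₁)
    (hQ₂ : Q₂.card ≤ n - Z.card) (hN : 1 ≤ n - Z.card)
    (havg : 15 * ∑ i ∈ Q₂, ∑ j ∈ (Z.image Prod.snd)ᶜ, (lk B₁ (i, j)).card ≤ Q₂.card * B₁.card)
    (hA₁ : ((n - Z.card)! : ℝ) ≤ Real.exp (2 * (n : ℝ) / 10 ^ 9) * (A₁.card : ℝ)) :
    ∃ σ ∈ A₁, ∑ i ∈ Q₂, ((lk B₁ (i, σ i)).card : ℝ) < (B₁.card : ℝ) := by
  have hnR : (10 ^ 15 : ℝ) ≤ (n : ℝ) := by exact_mod_cast hn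
  have hB₁' : (0 : ℝ) < (B₁.card : ℝ) := by exact_mod_cast Finset.card_pos.mpr hB₁
  set μ : ℝ := (n : ℝ) / (8 * 10 ^ 7) with hμ
  have hμ0 : 0 < μ := by
    rw [hμ]
    have : (0 : ℝ) < n := by linarith
    positivity
  by_contra hcon
  push Not at hcon
  set β : Fin n → Fin n → ℝ := fun i j => ((lk B₁ (i, j)).card : ℝ) / (B₁.card : ℝ) with hβ
  have hβ0 : ∀ i j, 0 ≤ β i j := fun i j => by rw [hβ]; positivity
  have hβ1 : ∀ i ∈ Q₂, ∀ j, μ * β i j ≤ 1 := by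
    intro i hi j
    have h1 := spB (i, j) (hQB i hi j)
    have h2 := card_lk_mono hsub (i, j)
    have h3 : n * (lk B₁ (i, j)).card ≤ 8 * (10 ^ 7 * B₁.card) :=
      (Nat.mul_le_mul_left n h2).trans (h1.trans (Nat.mul_le_mul_left 8 hBB))
    have h4 : (n : ℝ) * ((lk B₁ (i, j)).card : ℝ) ≤ 8 * (10 ^ 7 * (B₁.card : ℝ)) := by
      exact_mod_cast h3
    rw [hμ, hβ]
    simp only
    rw [_root_.div_mul_div_comm, div_le_one (by positivity)]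
    linarith
  have hx : ∀ i j, 0 ≤ 2 * μ * β i j := fun i j => by
    have := hβ0 i j
    positivity
  have hX : ∑ i ∈ Q₂, ∑ j ∈ (Z.image Prod.snd)ᶜ, 2 * μ * β i j ≤ 2 * μ * ((Q₂.card : ℝ) / 15) := by
    have e : ∑ i ∈ Q₂, ∑ j ∈ (Z.image Prod.snd)ᶜ, 2 * μ * β i j =
        2 * μ / (B₁.card : ℝ) *
          ((∑ i ∈ Q₂, ∑ j ∈ (Z.image Prod.snd)ᶜ, (lk B₁ (i, j)).card : ℕ) : ℝ) := by
      push_cast
      rw [mul_sum]
      refine sum_congr rfl fun i _ => ?_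
      rw [mul_sum]
      refine sum_congr rfl fun j _ => ?_
      rw [hβ]
      ring
    rw [e]
    have h1 : (15 : ℝ) * ((∑ i ∈ Q₂, ∑ j ∈ (Z.image Prod.snd)ᶜ, (lk B₁ (i, j)).card : ℕ) : ℝ) ≤
        (Q₂.card : ℝ) * (B₁.card : ℝ) := by exact_mod_cast havg
    have h2 : 2 * μ / (B₁.card : ℝ) *
        ((∑ i ∈ Q₂, ∑ j ∈ (Z.image Prod.snd)ᶜ, (lk B₁ (i, j)).card : ℕ) : ℝ) ≤
        2 * μ / (B₁.card : ℝ) * ((Q₂.card : ℝ) * (B₁.card : ℝ) / 15) := by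
      apply mul_le_mul_of_nonneg_left _ (by positivity)
      linarith
    refine h2.trans (le_of_eq ?_)
    field_simp
  have hE := expM (fun i j => 2 * μ * β i j) hx Q₂ Z hRZ (by omega) _ hX
  have hAst : A₁ ⊆ st Z := hZ.subset
  have hlow : (A₁.card : ℝ) * Real.exp μ ≤ ∑ σ ∈ st Z, ∏ i ∈ Q₂, (1 + 2 * μ * β i (σ i)) := by
    calc (A₁.card : ℝ) * Real.exp μ = ∑ σ ∈ A₁, Real.exp μ := by
          rw [sum_const, nsmul_eq_mul]
      _ ≤ ∑ σ ∈ A₁, ∏ i ∈ Q₂, (1 + 2 * μ * β i (σ i)) := by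
          refine sum_le_sum fun σ hσ => ?_
          have h1 := hcon σ hσ
          have h2 : 1 ≤ ∑ i ∈ Q₂, β i (σ i) := by
            have e : ∑ i ∈ Q₂, β i (σ i) =
                (∑ i ∈ Q₂, ((lk B₁ (i, σ i)).card : ℝ)) / (B₁.card : ℝ) := by
              rw [sum_div]
            rw [e, le_div_iff₀ hB₁', one_mul]
            exact h1
          calc Real.exp μ ≤ Real.exp (∑ i ∈ Q₂, μ * β i (σ i)) := by
                rw [Real.exp_le_exp, ← mul_sum]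
                nlinarith
            _ = ∏ i ∈ Q₂, Real.exp (μ * β i (σ i)) := Real.exp_sum _ _
            _ ≤ ∏ i ∈ Q₂, (1 + 2 * μ * β i (σ i)) := by
                refine prod_le_prod (fun i _ => (Real.exp_pos _).le) fun i hi => ?_
                have h3 := exp_le_two (mul_nonneg hμ0.le (hβ0 i (σ i))) (hβ1 i hi (σ i))
                linarith
      _ ≤ _ := by
          refine sum_le_sum_of_subset_of_nonneg hAst fun σ _ _ => ?_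
          refine prod_nonneg fun i _ => ?_
          have := hx i (σ i)
          linarith
  have hup := hlow.trans hE
  -- the exponent
  have hNR : (1 : ℝ) ≤ ((n - Z.card : ℕ) : ℝ) := by exact_mod_cast hN
  have hQN : (Q₂.card : ℝ) ≤ ((n - Z.card : ℕ) : ℝ) := by exact_mod_cast hQ₂
  have he : Real.exp 1 * (2 * μ * ((Q₂.card : ℝ) / 15)) / ((n - Z.card : ℕ) : ℝ) ≤
      0.3625 * μ := by
    rw [div_le_iff₀ (by linarith)]
    have h1 := Real.exp_one_lt_d9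
    have h2 : Real.exp 1 * (2 * μ * ((Q₂.card : ℝ) / 15)) =
        (Real.exp 1 * 2 / 15) * (μ * (Q₂.card : ℝ)) := by ring
    rw [h2]
    have h3 : Real.exp 1 * 2 / 15 ≤ 0.3625 := by linarith
    have h4 : 0 ≤ μ * (Q₂.card : ℝ) := by positivity
    calc (Real.exp 1 * 2 / 15) * (μ * (Q₂.card : ℝ)) ≤ 0.3625 * (μ * (Q₂.card : ℝ)) := by gcongr
      _ ≤ 0.3625 * (μ * ((n - Z.card : ℕ) : ℝ)) := by gcongr
      _ = _ := by ring
  have hA₁pos : (0 : ℝ) < (A₁.card : ℝ) := by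
    have h1 : (0 : ℝ) < ((n - Z.card)! : ℝ) := by positivity
    by_contra h2
    have h3 : (A₁.card : ℝ) = 0 := le_antisymm (not_lt.1 h2) (by positivity)
    rw [h3, mul_zero] at hA₁
    linarith
  have hfin : (A₁.card : ℝ) * Real.exp μ ≤
      (A₁.card : ℝ) * Real.exp (2 * (n : ℝ) / 10 ^ 9 + 0.3625 * μ) := by
    calc (A₁.card : ℝ) * Real.exp μ ≤ _ := hup
      _ ≤ (Real.exp (2 * (n : ℝ) / 10 ^ 9) * (A₁.card : ℝ)) * Real.exp (0.3625 * μ) := by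
          gcongr
      _ = _ := by
          rw [Real.exp_add]
          ring
  have h5 := Real.exp_le_exp.1 (le_of_mul_le_mul_left hfin hA₁pos)
  have h6 : (n : ℝ) = 8 * 10 ^ 7 * μ := by
    rw [hμ]
    field_simp
  rw [h6] at h5
  norm_num at h5
  linarith

theorem zero (hn : 10 ^ 15 ≤ n) {a b : ℝ} {YA YB : Finset (Fin n × Fin n)}
    {A B : Finset (Perm (Fin n))} (h : Cpl a b YA A YB B) (ha : a ≤ (n : ℝ) / 10 ^ 13)
    (hb : b ≤ (n : ℝ) / 10 ^ 13) :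
    ∃ σ ∈ A, ∃ τ ∈ B, gr σ ∩ gr τ = YA ∩ YB := by
  classical
  have hYA := nat_card_le (h.dA.card_le h.stA) ha
  have hYB := nat_card_le (h.dB.card_le h.stB) hb
  obtain ⟨σ₀, hσ₀⟩ := h.dA.nonempty
  have hRA : (YA.image Prod.fst).card = YA.card := card_fst (h.stA σ₀ hσ₀)
  have hRB : (YB.image Prod.fst).card ≤ YB.card := card_image_le
  set R₀ : Finset (Fin n) := YA.image Prod.fst ∪ YB.image Prod.fst with hR₀
  have hR₀c : R₀.card ≤ YA.card + YB.card := by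
    refine (card_union_le _ _).trans ?_
    omega
  have hR₀A : YA.card ≤ R₀.card := by
    rw [← hRA]
    exact card_le_card subset_union_left
  have hQc : R₀ᶜ.card = n - R₀.card := by rw [card_compl, Fintype.card_fin]
  obtain ⟨Q₂, hQ₂s, hQ₂c⟩ := exists_subset_card_eq (s := R₀ᶜ) (n := n / 1000) (by omega)
  set Q₁ : Finset (Fin n) := R₀ᶜ \ Q₂ with hQ₁
  have hQ₁c : Q₁.card = n - R₀.card - n / 1000 := by
    rw [hQ₁, card_sdiff_of_subset hQ₂s, hQc, hQ₂c]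
  have hfree : ∀ i ∈ R₀ᶜ, i ∉ YA.image Prod.fst ∧ i ∉ YB.image Prod.fst := by
    intro i hi
    rw [mem_compl, hR₀, mem_union, not_or] at hi
    exact hi
  obtain ⟨s, hs1, hs2, hs3, hs4, hs5⟩ := phase1 hn h ha Q₁
    (fun i hi => (hfree i (mem_sdiff.1 hi).1).1) (fun i hi => (hfree i (mem_sdiff.1 hi).1).2)
    (by omega)
  set A₁ := A.filter fun σ => s ⊆ gr σ with hA₁
  set B₁ := B.filter fun τ => Disjoint (gr τ) s with hB₁
  set Z : Finset (Fin n × Fin n) := YA ∪ s with hZ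
  have hZc : Z.card = YA.card + s.card := card_union_of_disjoint hs3
  have hZst : InSt Z A₁ := by
    intro σ hσ
    rw [hA₁, mem_filter] at hσ
    exact union_subset (h.stA σ hσ.1) hσ.2
  have hNeq : n - YA.card - s.card = n - Z.card := by omega
  rw [hNeq] at hs5
  have hA₁ne : A₁.Nonempty := by
    rw [nonempty_iff_ne_empty]
    intro he
    rw [he, card_empty, Nat.cast_zero, mul_zero] at hs5
    have : (0 : ℝ) < ((n - Z.card)! : ℝ) := by positivity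
    linarith
  obtain ⟨σ₁, hσ₁⟩ := hA₁ne
  have hJc : ((Z.image Prod.snd)ᶜ).card = n - Z.card := by
    rw [card_compl, Fintype.card_fin, card_snd (hZst σ₁ hσ₁)]
  have hB₁ne : B₁.Nonempty := by
    rw [nonempty_iff_ne_empty]
    intro he
    rw [he, card_empty, mul_zero, Nat.le_zero, Finset.card_eq_zero] at hs4
    exact h.dB.nonempty.ne_empty hs4
  have hB₁B : B₁ ⊆ B := filter_subset _ _
  have hQ₂free : ∀ i ∈ Q₂, i ∉ YA.image Prod.fst ∧ i ∉ YB.image Prod.fst := fun i hi =>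
    hfree i (hQ₂s hi)
  have hQ₂Q₁ : ∀ i ∈ Q₂, i ∉ Q₁ := fun i hi h' => (mem_sdiff.1 h').2 hi
  have hRZ : ∀ q ∈ Z, q.1 ∉ Q₂ := by
    intro q hq hq2
    rw [hZ, mem_union] at hq
    rcases hq with hq | hq
    · exact (hQ₂free _ hq2).1 (mem_image_of_mem _ hq)
    · have h1 := mem_image_of_mem Prod.fst hq
      rw [hs1] at h1
      exact hQ₂Q₁ _ hq2 h1
  have havg := ph2Avg hn h.stB h.dB hb hB₁B hs4 Q₂ ((Z.image Prod.snd)ᶜ) hQ₂c
    (fun i hi => (hQ₂free i hi).2) (by rw [hJc]; omega)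
  obtain ⟨σ, hσ, hσT⟩ := claim hn hB₁ne hB₁B hs4 h.spB
    (fun i hi j hij => (hQ₂free i hi).2 (mem_image_of_mem Prod.fst hij)) hRZ hZst
    (by omega) (by omega) havg hs5
  -- choice of τ
  have hτ : ∃ τ ∈ B₁, ∀ i ∈ Q₂, τ i ≠ σ i := by
    by_contra hcon
    push Not at hcon
    have h1 : B₁ ⊆ Q₂.biUnion fun i => lk B₁ (i, σ i) := by
      intro τ hτ
      obtain ⟨i, hi, hi2⟩ := hcon τ hτ
      exact mem_biUnion.2 ⟨i, hi, mem_lk.2 ⟨hτ, mem_gr.2 hi2⟩⟩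
    have h2 : B₁.card ≤ ∑ i ∈ Q₂, (lk B₁ (i, σ i)).card :=
      (card_le_card h1).trans card_biUnion_le
    have h3 : (B₁.card : ℝ) ≤ ∑ i ∈ Q₂, ((lk B₁ (i, σ i)).card : ℝ) := by exact_mod_cast h2
    linarith
  obtain ⟨τ, hτB, hτQ⟩ := hτ
  rw [hA₁, mem_filter] at hσ
  rw [hB₁, mem_filter] at hτB
  refine ⟨σ, hσ.1, τ, hτB.1, ?_⟩
  apply subset_antisymm
  · intro q hq
    rw [mem_inter] at hq
    obtain ⟨q1, q2⟩ := hq
    by_cases hqB : q.1 ∈ YB.image Prod.fst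
    · obtain ⟨q', hq', he⟩ := mem_image.1 hqB
      have h1 : q' = q := fst_injOn_gr τ (mem_coe.2 (h.stB τ hτB.1 hq')) (mem_coe.2 q2) he
      rw [h1] at hq'
      exact mem_inter.2 ⟨h.cA σ hσ.1 (mem_inter.2 ⟨q1, hq'⟩), hq'⟩
    · by_cases hqA : q.1 ∈ YA.image Prod.fst
      · obtain ⟨q', hq', he⟩ := mem_image.1 hqA
        have h1 : q' = q := fst_injOn_gr σ (mem_coe.2 (h.stA σ hσ.1 hq')) (mem_coe.2 q1) he
        rw [h1] at hq'
        exact mem_inter.2 ⟨hq', h.cB τ hτB.1 (mem_inter.2 ⟨q2, hq'⟩)⟩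
      · exfalso
        by_cases hqQ : q.1 ∈ Q₂
        · apply hτQ _ hqQ
          rw [mem_gr.1 q1, mem_gr.1 q2]
        · have h1 : q.1 ∈ Q₁ := by
            rw [hQ₁, mem_sdiff, mem_compl, hR₀, mem_union, not_or]
            exact ⟨⟨hqA, hqB⟩, hqQ⟩
          rw [← hs1] at h1
          obtain ⟨q', hq', he⟩ := mem_image.1 h1
          have h2 : q' = q := fst_injOn_gr σ (mem_coe.2 (hσ.2 hq')) (mem_coe.2 q1) he
          rw [h2] at hq'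
          exact (disjoint_left.1 hτB.2) q2 hq'
  · intro q hq
    rw [mem_inter] at hq
    exact mem_inter.2 ⟨h.stA σ hσ.1 hq.1, h.stB τ hτB.1 hq.2⟩

end Pool.Agent.FI37
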