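import Pool.Agent.FI37.Step
import Pool.Agent.FI37.Zero
import Pool.Agent.FI37.Init

/-!
# Two dense spread families have members with any prescribed small agreement
-/

namespace Pool.Agent.FI37

open Finset Equiv Nat Pool.Agent.H17.PermInt

variable {n : ℕ}

theorem cross (hn : 10 ^ 15 ≤ n) (k : ℕ) : ∀ {a b : ℝ} {YA YB : Finset (Fin n × Fin n)}
    {A B : Finset (Perm (Fin n))} (_ : Cpl a b YA A YB B) (_ : a + 6 * k ≤ (n : ℝ) / 10 ^ 13)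
    (_ : b + 6 * k ≤ (n : ℝ) / 10 ^ 13),
    ∃ σ ∈ A, ∃ τ ∈ B, agr σ τ = (YA ∩ YB).card + k := by
  induction k with
  | zero =>
    intro a b YA YB A B h ha hb
    obtain ⟨σ, hσ, τ, hτ, hi⟩ := zero hn h (by simpa using ha) (by simpa using hb)
    exact ⟨σ, hσ, τ, hτ, by rw [← card_gr_inter, hi, add_zero]⟩
  | succ k ih =>
    intro a b YA YB A B h ha hb
    push_cast at ha hb
    obtain ⟨YA', YB', A', B', hA, hB, h', hc⟩ := step hn h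
      (by nlinarith [Nat.cast_nonneg (α := ℝ) k]) (by nlinarith [Nat.cast_nonneg (α := ℝ) k])
    obtain ⟨σ, hσ, τ, hτ, hi⟩ := ih h' (by linarith) (by linarith)
    exact ⟨σ, hA hσ, τ, hB hτ, by rw [hi, hc]; ring⟩

/-- two dense 6-spread families: any agreement `m` with `|Y1 ∩ Y2| ≤ m` -/
theorem cross_init (hn : 10 ^ 15 ≤ n) {d1 d2 : ℝ} {Y1 Y2 : Finset (Fin n × Fin n)}
    {A1 A2 : Finset (Perm (Fin n))} (hS1 : InSt Y1 A1) (hS2 : InSt Y2 A2) (hp1 : Spr 6 Y1 A1)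
    (hp2 : Spr 6 Y2 A2) (hD1 : Den d1 Y1 A1) (hD2 : Den d2 Y2 A2) (m : ℕ)
    (hm : (Y1 ∩ Y2).card ≤ m)
    (hd1 : d1 + 1 + 6 * m ≤ (n : ℝ) / 10 ^ 13) (hd2 : d2 + 1 + 6 * m ≤ (n : ℝ) / 10 ^ 13) :
    ∃ σ ∈ A1, ∃ τ ∈ A2, agr σ τ = m := by
  have hm0 : (0 : ℝ) ≤ m := Nat.cast_nonneg m
  obtain ⟨A, B, hA, hB, h⟩ := init hn hS1 hS2 hp1 hp2 hD1 hD2 (by linarith) (by linarith)
  obtain ⟨k, rfl⟩ := Nat.exists_eq_add_of_le hm
  have hk : (k : ℝ) ≤ (((Y1 ∩ Y2).card + k : ℕ) : ℝ) := by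
    push_cast
    linarith [Nat.cast_nonneg (α := ℝ) (Y1 ∩ Y2).card]
  obtain ⟨σ, hσ, τ, hτ, hi⟩ := cross hn k h (by linarith) (by linarith)
  exact ⟨σ, hA hσ, τ, hB hτ, hi⟩

end Pool.Agent.FI37
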