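import Mathlib
import Pool.Agent.H17.PermInt.Count

/-!
# Forbidden intersections of permutations, `n ≥ C t log n` (MP_ee287f_co): definitions and basic facts

A permutation `σ` is identified with its graph `gr σ`, a set of pairs.
-/

namespace Pool.Agent.FI37

open Finset Equiv Nat Pool.Agent.H17.PermInt

variable {n : ℕ}

/-- members of `A` containing the pair `q` -/
def lk (A : Finset (Perm (Fin n))) (q : Fin n × Fin n) : Finset (Perm (Fin n)) :=
  A.filter fun σ => q ∈ gr σ

/-- the star of `Y`: all permutations containing all pairs of `Y` -/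
def st (Y : Finset (Fin n × Fin n)) : Finset (Perm (Fin n)) := univ.filter fun σ => Y ⊆ gr σ

/-- all members of `A` contain `Y` -/
def InSt (Y : Finset (Fin n × Fin n)) (A : Finset (Perm (Fin n))) : Prop := ∀ σ ∈ A, Y ⊆ gr σ

/-- `A` is `K`-spread outside `Y` -/
def Spr (K : ℕ) (Y : Finset (Fin n × Fin n)) (A : Finset (Perm (Fin n))) : Prop :=
  ∀ q, q ∉ Y → n * (lk A q).card ≤ K * A.card

/-- the deficiency of `A` in the star of `Y` is at most `d`: the density of `A` in the star of `Y`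
is at least `exp (|Y| - d)` -/
def Den (d : ℝ) (Y : Finset (Fin n × Fin n)) (A : Finset (Perm (Fin n))) : Prop :=
  ((n - Y.card)! : ℝ) * Real.exp (Y.card : ℝ) ≤ Real.exp d * (A.card : ℝ)

/-- a coupled pair of dense spread families -/
structure Cpl (a b : ℝ) (YA : Finset (Fin n × Fin n)) (A : Finset (Perm (Fin n)))
    (YB : Finset (Fin n × Fin n)) (B : Finset (Perm (Fin n))) : Prop where
  stA : InSt YA A
  stB : InSt YB B
  spA : Spr 8 YA A
  spB : Spr 8 YB B
  dA : Den a YA A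
  dB : Den b YB B
  cA : ∀ σ ∈ A, gr σ ∩ YB ⊆ YA
  cB : ∀ τ ∈ B, gr τ ∩ YA ⊆ YB

/-! ### basic facts -/

theorem mem_lk {A : Finset (Perm (Fin n))} {q : Fin n × Fin n} {σ : Perm (Fin n)} :
    σ ∈ lk A q ↔ σ ∈ A ∧ q ∈ gr σ := by
  simp [lk]

theorem lk_subset (A : Finset (Perm (Fin n))) (q : Fin n × Fin n) : lk A q ⊆ A :=
  filter_subset _ _

theorem lk_mono {A B : Finset (Perm (Fin n))} (h : A ⊆ B) (q : Fin n × Fin n) :
    lk A q ⊆ lk B q := filter_subset_filter _ h

theorem card_lk_mono {A B : Finset (Perm (Fin n))} (h : A ⊆ B) (q : Fin n × Fin n) :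
    (lk A q).card ≤ (lk B q).card := card_le_card (lk_mono h q)

theorem mem_st {Y : Finset (Fin n × Fin n)} {σ : Perm (Fin n)} : σ ∈ st Y ↔ Y ⊆ gr σ := by
  simp [st]

theorem st_anti {Y Y' : Finset (Fin n × Fin n)} (h : Y ⊆ Y') : st Y' ⊆ st Y := by
  intro σ hσ
  rw [mem_st] at hσ ⊢
  exact h.trans hσ

theorem InSt.subset {Y : Finset (Fin n × Fin n)} {A : Finset (Perm (Fin n))} (h : InSt Y A) :
    A ⊆ st Y := fun σ hσ => mem_st.mpr (h σ hσ)

theorem InSt.mono {Y : Finset (Fin n × Fin n)} {A A' : Finset (Perm (Fin n))} (h : InSt Y A)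
    (hA : A' ⊆ A) : InSt Y A' := fun σ hσ => h σ (hA hσ)

theorem inSt_insert_lk {Y : Finset (Fin n × Fin n)} {A : Finset (Perm (Fin n))} (h : InSt Y A)
    (q : Fin n × Fin n) : InSt (insert q Y) (lk A q) := by
  intro σ hσ
  rw [mem_lk] at hσ
  exact insert_subset hσ.2 (h σ hσ.1)

theorem card_st_le (Y : Finset (Fin n × Fin n)) : (st Y).card ≤ (n - Y.card)! :=
  card_contain_le Y

/-- the number of permutations extending a partial permutation -/
theorem card_st {Y : Finset (Fin n × Fin n)} {σ₀ : Perm (Fin n)} (h : Y ⊆ gr σ₀) :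
    (st Y).card = (n - Y.card)! := by
  classical
  apply le_antisymm (card_st_le Y)
  have hc : (Y.image Prod.fst).card = Y.card :=
    card_image_of_injOn ((fst_injOn_gr σ₀).mono (by exact_mod_cast h))
  rw [← hc, ← card_fix]
  apply card_le_card_of_injOn (fun g => σ₀ * g)
  · intro g hg
    simp only [coe_filter, mem_univ, true_and, Set.mem_ofPred_eq] at hg
    rw [mem_coe, mem_st]
    intro x hx
    rw [mem_gr, Perm.mul_apply, hg x.1 (mem_image_of_mem _ hx)]
    exact mem_gr.mp (h hx)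
  · intro a _ b _ hab
    exact mul_left_cancel hab

theorem card_le_of_sub_gr {Y : Finset (Fin n × Fin n)} {σ₀ : Perm (Fin n)} (h : Y ⊆ gr σ₀) :
    Y.card ≤ n := by
  calc Y.card ≤ (gr σ₀).card := card_le_card h
    _ = n := card_gr σ₀

theorem card_fst {Y : Finset (Fin n × Fin n)} {σ₀ : Perm (Fin n)} (h : Y ⊆ gr σ₀) :
    (Y.image Prod.fst).card = Y.card :=
  card_image_of_injOn ((fst_injOn_gr σ₀).mono (by exact_mod_cast h))

theorem card_snd {Y : Finset (Fin n × Fin n)} {σ₀ : Perm (Fin n)} (h : Y ⊆ gr σ₀) :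
    (Y.image Prod.snd).card = Y.card :=
  card_image_of_injOn ((snd_injOn_gr σ₀).mono (by exact_mod_cast h))

theorem Den.nonempty {d : ℝ} {Y : Finset (Fin n × Fin n)} {A : Finset (Perm (Fin n))}
    (h : Den d Y A) : A.Nonempty := by
  rw [nonempty_iff_ne_empty]
  rintro rfl
  unfold Den at h
  have h1 : (0 : ℝ) < ((n - Y.card)! : ℝ) * Real.exp (Y.card : ℝ) := by positivity
  simp only [card_empty, Nat.cast_zero, mul_zero] at h
  linarith

theorem Den.card_pos {d : ℝ} {Y : Finset (Fin n × Fin n)} {A : Finset (Perm (Fin n))}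
    (h : Den d Y A) : (0 : ℝ) < A.card := by
  exact_mod_cast Finset.card_pos.mpr h.nonempty

theorem Den.card_le {d : ℝ} {Y : Finset (Fin n × Fin n)} {A : Finset (Perm (Fin n))}
    (h : Den d Y A) (hS : InSt Y A) : (Y.card : ℝ) ≤ d := by
  have h1 : (A.card : ℝ) ≤ ((n - Y.card)! : ℝ) := by
    exact_mod_cast (card_le_card hS.subset).trans (card_st_le Y)
  unfold Den at h
  have h2 : ((n - Y.card)! : ℝ) * Real.exp (Y.card : ℝ) ≤ ((n - Y.card)! : ℝ) * Real.exp d := by
    calc ((n - Y.card)! : ℝ) * Real.exp (Y.card : ℝ) ≤ Real.exp d * (A.card : ℝ) := h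
      _ ≤ Real.exp d * ((n - Y.card)! : ℝ) := by gcongr
      _ = _ := mul_comm _ _
  have h3 : (0 : ℝ) < ((n - Y.card)! : ℝ) := by positivity
  exact Real.exp_le_exp.mp (le_of_mul_le_mul_left h2 h3)

theorem Den.mono {d d' : ℝ} {Y : Finset (Fin n × Fin n)} {A : Finset (Perm (Fin n))}
    (h : Den d Y A) (hd : d ≤ d') : Den d' Y A := by
  unfold Den at h ⊢
  calc _ ≤ _ := h
    _ ≤ _ := by gcongr

/-- passing to a subfamily of proportion at least `exp (-e)` -/
theorem Den.scale {d e : ℝ} {Y : Finset (Fin n × Fin n)} {A A' : Finset (Perm (Fin n))}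
    (h : Den d Y A) (hA : (A.card : ℝ) ≤ Real.exp e * A'.card) : Den (d + e) Y A' := by
  unfold Den at h ⊢
  calc _ ≤ _ := h
    _ ≤ Real.exp d * (Real.exp e * A'.card) := by gcongr
    _ = _ := by rw [Real.exp_add]; ring

/-- lower bound for the size -/
theorem Den.le_card {d : ℝ} {Y : Finset (Fin n × Fin n)} {A : Finset (Perm (Fin n))}
    (h : Den d Y A) : ((n - Y.card)! : ℝ) ≤ Real.exp d * A.card := by
  unfold Den at h
  refine le_trans ?_ h
  have h1 : (1 : ℝ) ≤ Real.exp (Y.card : ℝ) := Real.one_le_exp (by positivity)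
  nlinarith [show (0 : ℝ) < ((n - Y.card)! : ℝ) by positivity]

theorem Spr.mono {K K' : ℕ} {Y : Finset (Fin n × Fin n)} {A : Finset (Perm (Fin n))}
    (h : Spr K Y A) (hK : K ≤ K') : Spr K' Y A := fun q hq =>
  (h q hq).trans (Nat.mul_le_mul_right _ hK)

end Pool.Agent.FI37
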