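import Pool.Agent.FI37.Reg

/-!
# Covering a family by dense spread pieces

PROOF. `P` = all `Y` (filter of `univ`, classical) for which such an `A` exists. If the rest
`F' = {σ ∈ F : ∀ Y ∈ P, ¬ Y ⊆ gr σ}` has at least `θ` members then `Den d ∅ F'`
(`n! e^0 ≤ e^d θ ≤ e^d |F'|`) and `InSt ∅ F'`; `reg` gives `Y'`, `A' ⊆ F'`, so `Y' ∈ P` and a member of `A'`
contains `Y'`: contradiction.
-/

namespace Pool.Agent.FI37

open Finset Equiv Nat Pool.Agent.H17.PermInt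

variable {n : ℕ}

theorem extract (F : Finset (Perm (Fin n))) (d θ : ℝ) (hd : d + 1 ≤ (n : ℝ) / 2)
    (hθ : (n ! : ℝ) ≤ Real.exp d * θ) :
    ∃ P : Finset (Finset (Fin n × Fin n)),
      (∀ Y ∈ P, ∃ A : Finset (Perm (Fin n)), A ⊆ F ∧ InSt Y A ∧ Spr 6 Y A ∧ Den d Y A) ∧
      ((F.filter fun σ => ∀ Y ∈ P, ¬ Y ⊆ gr σ).card : ℝ) < θ := by
  classical
  set P : Finset (Finset (Fin n × Fin n)) := univ.filter fun Y =>
    ∃ A : Finset (Perm (Fin n)), A ⊆ F ∧ InSt Y A ∧ Spr 6 Y A ∧ Den d Y A with hP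
  refine ⟨P, fun Y hY => (mem_filter.mp hY).2, ?_⟩
  by_contra hc
  push Not at hc
  set F' := F.filter fun σ => ∀ Y ∈ P, ¬ Y ⊆ gr σ with hF'
  have hD : Den d ∅ F' := by
    unfold Den
    rw [card_empty, Nat.cast_zero, Real.exp_zero, mul_one, Nat.sub_zero]
    exact hθ.trans (by gcongr)
  obtain ⟨Y', A', -, hA', hS', hp', hD'⟩ := reg (Y := ∅) (A := F') (d := d)
    (fun σ _ => empty_subset _) hD hd
  have hmem : Y' ∈ P := mem_filter.mpr ⟨mem_univ _, A', hA'.trans (filter_subset _ _), hS', hp', hD'⟩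
  obtain ⟨σ, hσ⟩ := hD'.nonempty
  exact (mem_filter.mp (hA' hσ)).2 Y' hmem (hS' σ hσ)

end Pool.Agent.FI37
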