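import Pool.Agent.FI37.LayerStep

/-!
# A `t`-intersecting family of small sets of pairs is essentially one star

PROOF. By induction on `N`: there is a `t`-intersecting `T₀` with all sizes `≤ t` and
`#{σ : contains a member of T, none of T₀} ≤ Σ_{a=1}^{N} (1/20)^a (n-t)!` (so `≤ (1/19)(n-t)!`).
Step (`N = a+1` to `a`, sizes `≤ t+a+1`, `220 (t+a+1) ≤ n`): `layerStep` loses at most
`(e (t+a+1))^{a+1} (n-t-a-1)!` and `(n-t-(a+1))! (n/2)^{a+1} ≤ (n-t)!`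
(`Nat.factorial_mul_pow_sub_le_factorial`-like; all factors `≥ n - t - a ≥ n/2`), so the loss is
`≤ (2 e (t+a+1)/n)^{a+1} (n-t)! ≤ (2 e/220)^{a+1} (n-t)! ≤ (1/20)^{a+1} (n-t)!`.
At the end: members of `T₀` have size exactly `t` (`|X ∩ X| ≥ t`) and any two are equal
(`|X ∩ Y| ≥ t`). If `T₀` is nonempty let `X₀` be its member, otherwise any set of `t` pairs
(exists: `t ≤ n ≤ n²`).
-/

namespace Pool.Agent.FI37

open Finset Equiv Nat Pool.Agent.H17.PermInt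

variable {n : ℕ}

/-- permutations containing a member of `T` and none of `T₀` -/
private def bad (T T₀ : Finset (Finset (Fin n × Fin n))) : Finset (Perm (Fin n)) :=
  (univ : Finset (Perm (Fin n))).filter fun σ => (∃ X ∈ T, X ⊆ gr σ) ∧ ∀ X ∈ T₀, ¬ X ⊆ gr σ

private theorem bad_trans (T T₂ T₀ : Finset (Finset (Fin n × Fin n))) :
    (bad T T₀).card ≤ (bad T T₂).card + (bad T₂ T₀).card := by
  refine le_trans (card_le_card ?_) (card_union_le _ _)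
  intro σ hσ
  obtain ⟨-, h1, h2⟩ := mem_filter.1 hσ
  rw [mem_union]
  by_cases h : ∃ X ∈ T₂, X ⊆ gr σ
  · right
    exact mem_filter.2 ⟨mem_univ _, h, h2⟩
  · left
    push Not at h
    exact mem_filter.2 ⟨mem_univ _, h1, h⟩

private theorem loss_le (t N : ℕ) (hN : 220 * (t + (N + 1)) ≤ n) :
    Real.exp (N + 1) * ((t : ℝ) + N + 1) ^ (N + 1) * ((n - (t + N + 1))! : ℝ) ≤
      (1 / 20) ^ (N + 1) * ((n - t)! : ℝ) := by
  have h1 := Nat.factorial_mul_pow_le_factorial (m := n - (t + N + 1)) (n := N + 1)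
  have e1 : n - (t + N + 1) + (N + 1) = n - t := by omega
  have e2 : n - (t + N + 1) + 1 = n - (t + N) := by omega
  rw [e1, e2] at h1
  have h2 : ((n - (t + N + 1))! : ℝ) * ((n - (t + N) : ℕ) : ℝ) ^ (N + 1) ≤ ((n - t)! : ℝ) := by
    exact_mod_cast h1
  have e3 : ((n - (t + N) : ℕ) : ℝ) = (n : ℝ) - (t + N) := by
    rw [Nat.cast_sub (by omega)]
    push_cast
    ring
  have hN' : 220 * ((t : ℝ) + (N + 1)) ≤ n := by exact_mod_cast hN
  rw [e3] at h2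
  have e4 : Real.exp (N + 1) = Real.exp 1 ^ (N + 1) := by
    rw [← Real.exp_nat_mul]
    push_cast
    ring_nf
  have h3 : Real.exp 1 * ((t : ℝ) + N + 1) ≤ 1 / 20 * ((n : ℝ) - (t + N)) := by
    have h4 := Real.exp_one_lt_d9
    norm_num at h4
    nlinarith [show (0 : ℝ) ≤ (t : ℝ) from by positivity, show (0 : ℝ) ≤ (N : ℝ) from by positivity]
  have h5 : (Real.exp 1 * ((t : ℝ) + N + 1)) ^ (N + 1) ≤ (1 / 20 * ((n : ℝ) - (t + N))) ^ (N + 1) :=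
    pow_le_pow_left₀ (by positivity) h3 _
  calc Real.exp (N + 1) * ((t : ℝ) + N + 1) ^ (N + 1) * ((n - (t + N + 1))! : ℝ)
      = (Real.exp 1 * ((t : ℝ) + N + 1)) ^ (N + 1) * ((n - (t + N + 1))! : ℝ) := by rw [e4, mul_pow]
    _ ≤ (1 / 20 * ((n : ℝ) - (t + N))) ^ (N + 1) * ((n - (t + N + 1))! : ℝ) := by gcongr
    _ = (1 / 20) ^ (N + 1) * (((n - (t + N + 1))! : ℝ) * ((n : ℝ) - (t + N)) ^ (N + 1)) := by
        rw [mul_pow]
        ring
    _ ≤ _ := by gcongr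

private theorem layer_aux (t : ℕ) (ht : 1 ≤ t) (N : ℕ) : ∀ (_ : 220 * (t + N) ≤ n)
    (T : Finset (Finset (Fin n × Fin n)))
    (_ : ∀ X ∈ T, ∀ Y ∈ T, t ≤ (X ∩ Y).card) (_ : ∀ X ∈ T, X.card ≤ t + N),
    ∃ T₀ : Finset (Finset (Fin n × Fin n)), (∀ X ∈ T₀, ∀ Y ∈ T₀, t ≤ (X ∩ Y).card) ∧
      (∀ X ∈ T₀, X.card ≤ t) ∧
      ((bad T T₀).card : ℝ) ≤ 1 / 19 * (1 - (1 / 20) ^ N) * ((n - t)! : ℝ) := by
  induction N with
  | zero =>
    intro _ T h1 h2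
    refine ⟨T, h1, h2, ?_⟩
    have h3 : bad T T = ∅ := by
      rw [eq_empty_iff_forall_notMem]
      intro σ hσ
      obtain ⟨-, ⟨X, hX, hXσ⟩, h4⟩ := mem_filter.1 hσ
      exact h4 X hX hXσ
    rw [h3]
    simp
  | succ N ih =>
    intro hN T h1 h2
    obtain ⟨T₂, g1, g2, g3⟩ := layerStep t N ht T h1 (fun X hX => h2 X hX)
    obtain ⟨T₀, k1, k2, k3⟩ := ih (by omega) T₂ g1 g2
    refine ⟨T₀, k1, k2, ?_⟩
    have h3 := bad_trans T T₂ T₀
    have h4 : ((bad T T₀).card : ℝ) ≤ (bad T T₂).card + (bad T₂ T₀).card := by exact_mod_cast h3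
    have h5 : ((bad T T₂).card : ℝ) ≤ (1 / 20) ^ (N + 1) * ((n - t)! : ℝ) := g3.trans (loss_le t N hN)
    calc ((bad T T₀).card : ℝ) ≤ (1 / 20) ^ (N + 1) * ((n - t)! : ℝ) +
          1 / 19 * (1 - (1 / 20) ^ N) * ((n - t)! : ℝ) := by linarith
      _ = _ := by ring

theorem layer (t N : ℕ) (ht : 1 ≤ t) (hN : 220 * (t + N) ≤ n)
    (T : Finset (Finset (Fin n × Fin n)))
    (hint : ∀ X ∈ T, ∀ Y ∈ T, t ≤ (X ∩ Y).card) (hsz : ∀ X ∈ T, X.card ≤ t + N) :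
    ∃ X₀ : Finset (Fin n × Fin n), X₀.card = t ∧
      10 * ((univ : Finset (Perm (Fin n))).filter fun σ => (∃ X ∈ T, X ⊆ gr σ) ∧
        ¬ X₀ ⊆ gr σ).card ≤ (n - t)! := by
  classical
  obtain ⟨T₀, h1, h2, h3⟩ := layer_aux t ht N hN T hint hsz
  have hX : ∃ X₀ : Finset (Fin n × Fin n), X₀.card = t ∧ ∀ X ∈ T₀, X = X₀ := by
    rcases T₀.eq_empty_or_nonempty with h | ⟨X₀, hX₀⟩
    · have h4 : t ≤ (univ : Finset (Fin n × Fin n)).card := by
        rw [Finset.card_univ, Fintype.card_prod, Fintype.card_fin]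
        nlinarith
      obtain ⟨X₀, -, hc⟩ := exists_subset_card_eq h4
      refine ⟨X₀, hc, ?_⟩
      rw [h]
      intro X hX
      exact absurd hX (notMem_empty X)
    · have hc : ∀ X ∈ T₀, X.card = t := fun X hX => by
        have h4 := h1 X hX X hX
        rw [inter_self] at h4
        exact le_antisymm (h2 X hX) h4
      refine ⟨X₀, hc X₀ hX₀, fun X hX => ?_⟩
      have h4 := h1 X hX X₀ hX₀
      have h5 : X ∩ X₀ = X := eq_of_subset_of_card_le inter_subset_left (by rw [hc X hX]; exact h4)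
      have h6 : X ∩ X₀ = X₀ := eq_of_subset_of_card_le inter_subset_right (by rw [hc X₀ hX₀]; exact h4)
      rw [← h5, h6]
  obtain ⟨X₀, hc, hX₀⟩ := hX
  refine ⟨X₀, hc, ?_⟩
  have h4 : ((univ : Finset (Perm (Fin n))).filter fun σ => (∃ X ∈ T, X ⊆ gr σ) ∧
        ¬ X₀ ⊆ gr σ) ⊆ bad T T₀ := by
    intro σ hσ
    obtain ⟨-, h5, h6⟩ := mem_filter.1 hσ
    refine mem_filter.2 ⟨mem_univ _, h5, fun X hX hXσ => h6 ?_⟩
    rw [← hX₀ X hX]
    exact hXσ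
  have h5 := card_le_card h4
  have h6 : (((univ : Finset (Perm (Fin n))).filter fun σ => (∃ X ∈ T, X ⊆ gr σ) ∧
        ¬ X₀ ⊆ gr σ).card : ℝ) ≤ 1 / 19 * (1 - (1 / 20) ^ N) * ((n - t)! : ℝ) :=
    le_trans (by exact_mod_cast h5) h3
  have h7 : 1 / 19 * (1 - (1 / 20) ^ N) * ((n - t)! : ℝ) ≤ 1 / 10 * ((n - t)! : ℝ) := by
    have h8 : (0 : ℝ) ≤ (1 / 20) ^ N := by positivity
    apply mul_le_mul_of_nonneg_right _ (by positivity)
    linarith
  have h8 : (10 : ℝ) * (((univ : Finset (Perm (Fin n))).filter fun σ => (∃ X ∈ T, X ⊆ gr σ) ∧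
        ¬ X₀ ⊆ gr σ).card : ℝ) ≤ ((n - t)! : ℝ) := by linarith
  exact_mod_cast h8

end Pool.Agent.FI37
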