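import Pool.Agent.FI37.Defs

/-!
# Counting the critical largest sets of a `t`-intersecting family

PROOF. Let `i = t + a`, `W = {X ∈ T : |X| = i}`. If `W = ∅` trivial. Fix `A₁ ∈ W`. CLAIM: for `m ≤ a` the
number of `B ∈ W` with `|A₁ \ B| = m` is `≤ C(i, m) a^m` (and `m ≤ a` always as `|A₁ ∩ B| ≥ t`).
`K = A₁ ∩ B` has `C(i,m)` choices. For fixed `K ⊆ A₁`, `|K| ≥ t`, prove by induction on `l = |B \ K'|`: for
every `K' ⊇ K` the number of `B ∈ W` with `K' ⊆ B`, `B ∩ A₁ = K`, `|B| = |K'| + l` is `≤ a^l`. `l = 0`: `B = K'`.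
`l + 1`: if there is such a `B`, then `K' ⊊ B`, take `x ∈ B \ K'`; by `hcrit` some `C ∈ T` has
`|C ∩ K'| ≤ |C ∩ B.erase x| < t`. Fix this `C` (depends on `K'` only). Every `B` of the class has
`|C ∩ B| ≥ t > |C ∩ K'|`, so contains some `z ∈ C \ K'`, `z ∈ B`, `z ∉ A₁` (as `B ∩ A₁ = K ⊆ K'`), so
`z ∈ C \ A₁`, and `|C \ A₁| ≤ |C| - t ≤ a`. The class is the union over these `z` of the classes
of `insert z K'`, each `≤ a^l`.
Finally `Σ_{m ≤ a} C(i,m) a^m ≤ Σ_m i^m a^m/m! ≤ i^a Σ_m a^m/m! ≤ i^a e^a` (`Real.sum_le_exp_of_nonneg`).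
-/

namespace Pool.Agent.FI37

open Finset Nat

private lemma lc_aux {α : Type*} [DecidableEq α] (t a : ℕ) (T : Finset (Finset α))
    (hint : ∀ X ∈ T, ∀ Y ∈ T, t ≤ (X ∩ Y).card) (hsz : ∀ X ∈ T, X.card ≤ t + a)
    (hcrit : ∀ X ∈ T, X.card = t + a → ∀ x ∈ X, ∃ C ∈ T, (C ∩ X.erase x).card < t)
    {A₁ : Finset α} (hA : A₁ ∈ T) (K : Finset α) (l : ℕ) :
    ∀ K' : Finset α, K ⊆ K' →
      (T.filter fun B => B.card = t + a ∧ K' ⊆ B ∧ B ∩ A₁ = K ∧ B.card = K'.card + l).card ≤
        a ^ l := by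
  induction l with
  | zero =>
    intro K' hK
    rw [pow_zero, Finset.card_le_one]
    intro B hB B' hB'
    rw [mem_filter] at hB hB'
    have h1 : K' = B := eq_of_subset_of_card_le hB.2.2.1 (by have := hB.2.2.2.2; omega)
    have h2 : K' = B' := eq_of_subset_of_card_le hB'.2.2.1 (by have := hB'.2.2.2.2; omega)
    rw [← h1, ← h2]
  | succ l ih =>
    intro K' hK
    by_cases hne : (T.filter fun B => B.card = t + a ∧ K' ⊆ B ∧ B ∩ A₁ = K ∧
        B.card = K'.card + (l + 1)).Nonempty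
    · obtain ⟨B₀, hB₀⟩ := hne
      rw [mem_filter] at hB₀
      obtain ⟨hBT, hBc, hKB, hBA, hBl⟩ := hB₀
      obtain ⟨x, hxB, hxK⟩ : ∃ x ∈ B₀, x ∉ K' := by
        by_contra hcon
        push Not at hcon
        have := card_le_card (show B₀ ⊆ K' from hcon)
        omega
      obtain ⟨C, hC, hCx⟩ := hcrit B₀ hBT hBc x hxB
      have hCK : (C ∩ K').card < t := by
        refine lt_of_le_of_lt (card_le_card ?_) hCx
        intro y hy
        rw [mem_inter] at hy ⊢
        refine ⟨hy.1, ?_⟩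
        rw [mem_erase]
        exact ⟨fun h => hxK (h ▸ hy.2), hKB hy.2⟩
      have hsub : (T.filter fun B => B.card = t + a ∧ K' ⊆ B ∧ B ∩ A₁ = K ∧
          B.card = K'.card + (l + 1)) ⊆ ((C \ A₁) \ K').biUnion (fun z => T.filter fun B =>
            B.card = t + a ∧ insert z K' ⊆ B ∧ B ∩ A₁ = K ∧
              B.card = (insert z K').card + l) := by
        intro B hB
        rw [mem_filter] at hB
        obtain ⟨hB1, hB2, hB3, hB4, hB5⟩ := hB
        have h1 := hint C hC B hB1
        obtain ⟨z, hz, hzK⟩ : ∃ z ∈ C ∩ B, z ∉ K' := by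
          by_contra hcon
          push Not at hcon
          have h2 : C ∩ B ⊆ C ∩ K' := fun z hz => mem_inter.2 ⟨(mem_inter.1 hz).1, hcon z hz⟩
          have := card_le_card h2
          omega
        rw [mem_inter] at hz
        rw [mem_biUnion]
        refine ⟨z, ?_, ?_⟩
        · rw [mem_sdiff, mem_sdiff]
          exact ⟨⟨hz.1, fun hzA => hzK (hK (hB4 ▸ mem_inter.2 ⟨hz.2, hzA⟩))⟩, hzK⟩
        · rw [mem_filter, card_insert_of_notMem hzK]
          exact ⟨hB1, hB2, insert_subset hz.2 hB3, hB4, by omega⟩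
      have hCA : ((C \ A₁) \ K').card ≤ a := by
        have h1 := hint C hC A₁ hA
        have h2 := hsz C hC
        have h3 := card_sdiff_add_card_inter C A₁
        have h4 : ((C \ A₁) \ K').card ≤ (C \ A₁).card := card_le_card sdiff_subset
        omega
      calc _ ≤ _ := card_le_card hsub
        _ ≤ ∑ z ∈ (C \ A₁) \ K', a ^ l := card_biUnion_le.trans
            (sum_le_sum fun z _ => ih (insert z K') (hK.trans (subset_insert _ _)))
        _ ≤ a ^ (l + 1) := by
            rw [sum_const, smul_eq_mul, pow_succ']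
            exact Nat.mul_le_mul_right _ hCA
    · rw [not_nonempty_iff_eq_empty] at hne
      rw [hne, card_empty]
      exact Nat.zero_le _

theorem layerCount {α : Type*} [DecidableEq α] (t a : ℕ) (ht : 1 ≤ t) (T : Finset (Finset α))
    (hint : ∀ X ∈ T, ∀ Y ∈ T, t ≤ (X ∩ Y).card) (hsz : ∀ X ∈ T, X.card ≤ t + a)
    (hcrit : ∀ X ∈ T, X.card = t + a → ∀ x ∈ X, ∃ C ∈ T, (C ∩ X.erase x).card < t) :
    ((T.filter fun X => X.card = t + a).card : ℝ) ≤ Real.exp a * ((t : ℝ) + a) ^ a := by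
  by_cases hne : (T.filter fun X => X.card = t + a).Nonempty
  · obtain ⟨A₁, hA₁⟩ := hne
    rw [mem_filter] at hA₁
    obtain ⟨hA, hAc⟩ := hA₁
    have hsub : (T.filter fun X => X.card = t + a) ⊆
        (A₁.powerset.filter (fun D => D.card ≤ a)).biUnion (fun D => T.filter fun B =>
          B.card = t + a ∧ A₁ \ D ⊆ B ∧ B ∩ A₁ = A₁ \ D ∧
            B.card = (A₁ \ D).card + D.card) := by
      intro B hB
      rw [mem_filter] at hB
      have h1 := hint A₁ hA B hB.1
      have h2 := card_sdiff_add_card_inter A₁ B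
      have h3 : A₁ \ (A₁ \ B) = B ∩ A₁ := by
        rw [sdiff_sdiff_right_self, inf_eq_inter, inter_comm]
      have h4 := card_sdiff_add_card_inter A₁ (A₁ \ B)
      have h5 : A₁ ∩ (A₁ \ B) = A₁ \ B := inter_eq_right.2 sdiff_subset
      rw [h5] at h4
      rw [mem_biUnion]
      refine ⟨A₁ \ B, ?_, ?_⟩
      · rw [mem_filter, mem_powerset]
        exact ⟨sdiff_subset, by omega⟩
      · rw [mem_filter]
        refine ⟨hB.1, hB.2, ?_, h3.symm, ?_⟩
        · rw [h3]
          exact inter_subset_left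
        · rw [hB.2]
          omega
    have hcard : (T.filter fun X => X.card = t + a).card ≤
        ∑ D ∈ A₁.powerset, (if D.card ≤ a then a ^ D.card else 0) := by
      refine (card_le_card hsub).trans (card_biUnion_le.trans ?_)
      rw [← sum_filter]
      refine sum_le_sum fun D _ => ?_
      exact lc_aux t a T hint hsz hcrit hA (A₁ \ D) D.card (A₁ \ D) (Subset.refl _)
    rw [sum_powerset_apply_card (fun m => if m ≤ a then a ^ m else 0), hAc] at hcard
    have hcard' : ((T.filter fun X => X.card = t + a).card : ℝ) ≤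
        ∑ m ∈ range (t + a + 1), ((t + a).choose m : ℝ) *
          (if m ≤ a then (a : ℝ) ^ m else 0) := by
      have h1 : ((T.filter fun X => X.card = t + a).card : ℝ) ≤
          ((∑ m ∈ range (t + a + 1), (t + a).choose m • (if m ≤ a then a ^ m else 0) : ℕ) : ℝ) := by
        exact_mod_cast hcard
      refine h1.trans_eq ?_
      rw [Nat.cast_sum]
      refine sum_congr rfl fun m _ => ?_
      rw [smul_eq_mul, Nat.cast_mul]
      split_ifs <;> simp
    refine hcard'.trans ?_
    have h1 : (1 : ℝ) ≤ (t : ℝ) + a := by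
      have : (1 : ℝ) ≤ t := by exact_mod_cast ht
      have : (0 : ℝ) ≤ a := Nat.cast_nonneg _
      linarith
    have hterm : ∀ m ∈ range (t + a + 1), ((t + a).choose m : ℝ) *
        (if m ≤ a then (a : ℝ) ^ m else 0) ≤ ((t : ℝ) + a) ^ a * ((a : ℝ) ^ m / (m ! : ℝ)) := by
      intro m _
      split_ifs with hm
      · have h2 : ((t + a).choose m : ℝ) ≤ ((t + a : ℕ) : ℝ) ^ m / (m ! : ℝ) :=
          Nat.choose_le_pow_div m (t + a)
        have h3 : ((t : ℝ) + a) ^ m ≤ ((t : ℝ) + a) ^ a := pow_le_pow_right₀ h1 hm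
        have h4 : (0 : ℝ) < (m ! : ℝ) := by positivity
        have h5 : (0 : ℝ) ≤ (a : ℝ) ^ m := by positivity
        push_cast at h2
        calc ((t + a).choose m : ℝ) * (a : ℝ) ^ m
            ≤ (((t : ℝ) + a) ^ m / (m ! : ℝ)) * (a : ℝ) ^ m := by gcongr
          _ ≤ (((t : ℝ) + a) ^ a / (m ! : ℝ)) * (a : ℝ) ^ m := by gcongr
          _ = _ := by ring
      · rw [mul_zero]
        positivity
    refine (sum_le_sum hterm).trans ?_
    rw [← mul_sum, mul_comm]
    gcongr
    exact Real.sum_le_exp_of_nonneg (Nat.cast_nonneg _) _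
  · rw [not_nonempty_iff_eq_empty] at hne
    rw [hne, card_empty, Nat.cast_zero]
    positivity

end Pool.Agent.FI37
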