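import Pool.Agent.FI37.LayerCount

/-!
# Removing one layer

PROOF. Consider the families `T'` that are `t`-intersecting (`∀ X Y ∈ T', t ≤ |X ∩ Y|`), with sizes
`≤ t + a + 1` and such that every permutation containing a member of `T` contains a member of `T'`
(`T' = T` is one). Choose one with the least number of members of size `t + a + 1`. CLAIM: `T'` satisfies
`hcrit` of `layerCount` with `a + 1`: let `X ∈ T'`, `|X| = t+a+1`, `x ∈ X`, and suppose all `C ∈ T'` have
`|C ∩ X.erase x| ≥ t`. Replace `X` by `X.erase x`: `T'' = insert (X.erase x) (T'.erase X)` is again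
admissible (`|X.erase x ∩ X.erase x| = t + a ≥ t`; containing `X` implies containing `X.erase x`) and has
fewer members of size `t+a+1`; contradiction. Put `T₂ = {X ∈ T' : |X| ≤ t + a}`. A permutation containing a
member of `T` but none of `T₂` contains a member of `W = {X ∈ T' : |X| = t+a+1}`: at most
`|W| (n - (t+a+1))!` (`card_st_le`).
-/

namespace Pool.Agent.FI37

open Finset Equiv Nat Pool.Agent.H17.PermInt

variable {n : ℕ}

/-- the number of members of size `k` -/
private def mc (k : ℕ) (T : Finset (Finset (Fin n × Fin n))) : ℕ := (T.filter fun X => X.card = k).card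

/-- admissible families -/
private def Adm (t a : ℕ) (T T' : Finset (Finset (Fin n × Fin n))) : Prop :=
  (∀ X ∈ T', ∀ Y ∈ T', t ≤ (X ∩ Y).card) ∧ (∀ X ∈ T', X.card ≤ t + a + 1) ∧
    ∀ σ : Perm (Fin n), (∃ X ∈ T, X ⊆ gr σ) → ∃ X ∈ T', X ⊆ gr σ

private theorem adm_crit {t a : ℕ} {T T' : Finset (Finset (Fin n × Fin n))} (h : Adm t a T T')
    (hmin : ∀ T'', Adm t a T T'' → mc (t + (a + 1)) T' ≤ mc (t + (a + 1)) T'') :
    ∀ X ∈ T', X.card = t + (a + 1) → ∀ x ∈ X, ∃ C ∈ T', (C ∩ X.erase x).card < t := by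
  intro X hX hc x hx
  by_contra hcon
  push Not at hcon
  obtain ⟨h1, h2, h3⟩ := h
  have hce : (X.erase x).card = t + a := by
    rw [card_erase_of_mem hx, hc]
    omega
  have hadm : Adm t a T (insert (X.erase x) (T'.erase X)) := by
    refine ⟨?_, ?_, ?_⟩
    · intro U hU V hV
      rw [mem_insert, mem_erase] at hU hV
      rcases hU with rfl | ⟨_, hU⟩
      · rcases hV with rfl | ⟨_, hV⟩
        · rw [inter_self, hce]
          omega
        · rw [inter_comm]
          exact hcon V hV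
      · rcases hV with rfl | ⟨_, hV⟩
        · exact hcon U hU
        · exact h1 U hU V hV
    · intro U hU
      rw [mem_insert, mem_erase] at hU
      rcases hU with rfl | ⟨_, hU⟩
      · rw [hce]
        omega
      · exact h2 U hU
    · intro σ hσ
      obtain ⟨C, hC, hCσ⟩ := h3 σ hσ
      by_cases hCX : C = X
      · refine ⟨X.erase x, mem_insert_self _ _, ?_⟩
        rw [hCX] at hCσ
        exact (erase_subset _ _).trans hCσ
      · exact ⟨C, mem_insert_of_mem (mem_erase.2 ⟨hCX, hC⟩), hCσ⟩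
  have h4 := hmin _ hadm
  have h5 : ((insert (X.erase x) (T'.erase X)).filter fun Y => Y.card = t + (a + 1)) ⊆
      (T'.filter fun Y => Y.card = t + (a + 1)).erase X := by
    intro Y hY
    rw [mem_filter, mem_insert, mem_erase] at hY
    obtain ⟨rfl | ⟨hY1, hY2⟩, hY3⟩ := hY
    · omega
    · rw [mem_erase, mem_filter]
      exact ⟨hY1, hY2, hY3⟩
  have h6 := card_le_card h5
  have h7 : X ∈ T'.filter fun Y => Y.card = t + (a + 1) := mem_filter.2 ⟨hX, hc⟩
  rw [card_erase_of_mem h7] at h6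
  have h8 := card_pos.2 ⟨X, h7⟩
  unfold mc at h4
  omega

theorem layerStep (t a : ℕ) (ht : 1 ≤ t) (T : Finset (Finset (Fin n × Fin n)))
    (hint : ∀ X ∈ T, ∀ Y ∈ T, t ≤ (X ∩ Y).card) (hsz : ∀ X ∈ T, X.card ≤ t + a + 1) :
    ∃ T₂ : Finset (Finset (Fin n × Fin n)), (∀ X ∈ T₂, ∀ Y ∈ T₂, t ≤ (X ∩ Y).card) ∧
      (∀ X ∈ T₂, X.card ≤ t + a) ∧
      (((univ : Finset (Perm (Fin n))).filter fun σ => (∃ X ∈ T, X ⊆ gr σ) ∧
        ∀ X ∈ T₂, ¬ X ⊆ gr σ).card : ℝ) ≤
        Real.exp (a + 1) * ((t : ℝ) + a + 1) ^ (a + 1) * ((n - (t + a + 1))! : ℝ) := by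
  classical
  have hex : ∃ k : ℕ, ∃ T' : Finset (Finset (Fin n × Fin n)), Adm t a T T' ∧ mc (t + (a + 1)) T' = k :=
    ⟨_, T, ⟨hint, hsz, fun _ h => h⟩, rfl⟩
  obtain ⟨T', hA, hk⟩ := Nat.find_spec hex
  have hmin : ∀ T'', Adm t a T T'' → mc (t + (a + 1)) T' ≤ mc (t + (a + 1)) T'' := by
    intro T'' h
    rw [hk]
    exact Nat.find_min' hex ⟨T'', h, rfl⟩
  have hcrit := adm_crit hA hmin
  obtain ⟨h1, h2, h3⟩ := hA
  have hcount := layerCount t (a + 1) ht T' h1 h2 hcrit
  refine ⟨T'.filter fun X => X.card ≤ t + a, ?_, ?_, ?_⟩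
  · intro X hX Y hY
    exact h1 X (mem_filter.1 hX).1 Y (mem_filter.1 hY).1
  · intro X hX
    exact (mem_filter.1 hX).2
  · set W := T'.filter fun X => X.card = t + (a + 1) with hW
    have h4 : ((univ : Finset (Perm (Fin n))).filter fun σ => (∃ X ∈ T, X ⊆ gr σ) ∧
        ∀ X ∈ T'.filter fun X => X.card ≤ t + a, ¬ X ⊆ gr σ) ⊆ W.biUnion fun X => st X := by
      intro σ hσ
      obtain ⟨-, hσ1, hσ2⟩ := mem_filter.1 hσ
      obtain ⟨C, hC, hCσ⟩ := h3 σ hσ1
      rw [mem_biUnion]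
      refine ⟨C, ?_, mem_st.2 hCσ⟩
      rw [hW, mem_filter]
      refine ⟨hC, ?_⟩
      have h5 := h2 C hC
      have h6 : ¬ C.card ≤ t + a := fun h => hσ2 C (mem_filter.2 ⟨hC, h⟩) hCσ
      omega
    have h5 : (W.biUnion fun X => st X).card ≤ W.card * (n - (t + a + 1))! := by
      apply card_biUnion_le_card_mul
      intro X hX
      have h6 := card_st_le X
      rw [(mem_filter.1 hX).2] at h6
      exact h6
    have h6 := (card_le_card h4).trans h5
    have h7 : (((univ : Finset (Perm (Fin n))).filter fun σ => (∃ X ∈ T, X ⊆ gr σ) ∧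
        ∀ X ∈ T'.filter fun X => X.card ≤ t + a, ¬ X ⊆ gr σ).card : ℝ) ≤
        (W.card : ℝ) * ((n - (t + a + 1))! : ℝ) := by
      exact_mod_cast h6
    refine h7.trans ?_
    apply mul_le_mul_of_nonneg_right _ (by positivity)
    refine hcount.trans (le_of_eq ?_)
    push_cast
    ring

end Pool.Agent.FI37
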