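import Pool.Agent.FI37.Seq

/-!
# Few free pairs have small link

PROOF. Suppose `10 |G| ≥ 3 n²`. Let `G_i = {j : (i,j) ∈ G}`. Rows with `|G_i| < 3n/20` contribute at
most `3n²/20`, so (each row has at most `n` pairs) at least `3n/20` rows have `|G_i| ≥ 3n/20`; choose a
set `R` of `m = n/20` (floor) of them; they are not rows of `Y`. For `σ` let
`N σ = #{i ∈ R : (i, σ i) ∈ G}`. Then `Σ_{σ ∈ A} N σ = Σ_{p ∈ G, p.1 ∈ R} |lk A p| ≤ m n |A|/(50 n)
= (m/50) |A|`. With `a = m/50`: `2^{-N} ≥ 2^{-a} (1 - (N - a) log 2)` (`exp x ≥ 1 + x`), so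
`Σ_{σ ∈ A} (1/2)^{N σ} ≥ 2^{-a} |A|`. On the other hand (`A ⊆ st Y`) the sum is
`≤ Σ_{σ ∈ st Y} Π_{i ∈ R} w i (σ i)`, `w i j = 1/2` if `(i,j) ∈ G`, else `1`, and `seq` applies with
`c = 951/1000` and `m' = |Y| + m ≤ 0.0501 n` (`|Y| ≤ d ≤ n/10^13`, `Den.card_le`):
for `|U| ≤ 0.0501 n`: `Σ_{j ∉ U} w i j = (n - |U|) - |G_i \ U|/2 ≤ (n-|U|) - (0.15 n - |U|)/2
≤ 0.951 (n - |U|)` (true for `|U| ≤ 0.0576 n`). So `2^{-m/50} |A| ≤ 0.951^m (n-|Y|)!
≤ 0.951^m e^d |A|` (`Den.le_card`), i.e. `m (log(1000/951) - log 2/50) ≤ d ≤ n/10^13`; but the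
bracket is `≥ 0.03` and `m ≥ n/20 - 1`: contradiction.
-/

namespace Pool.Agent.FI37

open Finset Equiv Nat Pool.Agent.H17.PermInt

variable {n : ℕ}

private theorem lemF_rows (G : Finset (Fin n × Fin n)) (hn : 0 < n)
    (hG : 3 * n ^ 2 ≤ 10 * G.card) :
    ∃ R : Finset (Fin n), R.card = n / 20 ∧
      ∀ i ∈ R, 3 * n ≤ 20 * (univ.filter fun j => (i, j) ∈ G).card := by
  classical
  set g : Fin n → ℕ := fun i => (univ.filter fun j => (i, j) ∈ G).card with hg
  have hsum : G.card = ∑ i, g i := by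
    have h1 : G = (univ : Finset (Fin n × Fin n)).filter fun p => (p.1, p.2) ∈ G := by
      ext p
      simp
    conv_lhs => rw [h1]
    rw [card_filter, Fintype.sum_prod_type]
    refine sum_congr rfl fun i _ => ?_
    rw [hg]
    simp only
    rw [card_filter]
  set Big : Finset (Fin n) := univ.filter fun i => 3 * n ≤ 20 * g i with hBig
  have hle : ∀ i, g i ≤ n := by
    intro i
    calc g i ≤ (univ : Finset (Fin n)).card := card_le_card (filter_subset _ _)
      _ = n := by simp
  have h1 : ∑ i, 20 * g i ≤ ∑ i : Fin n, ((if i ∈ Big then 20 * n else 0) + 3 * n) := by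
    refine sum_le_sum fun i _ => ?_
    by_cases hi : i ∈ Big
    · rw [if_pos hi]
      have := hle i
      omega
    · rw [if_neg hi]
      rw [hBig, mem_filter] at hi
      push Not at hi
      have := hi (mem_univ _)
      omega
  rw [← mul_sum, ← hsum, sum_add_distrib, ← sum_filter, sum_const, sum_const, Finset.card_univ,
    Fintype.card_fin, smul_eq_mul, smul_eq_mul] at h1
  have h2 : (univ.filter fun i => i ∈ Big) = Big := by
    ext i
    simp
  rw [h2] at h1
  have h3 : 3 * n ≤ 20 * Big.card := by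
    have h4 : n * (3 * n) ≤ n * (20 * Big.card) := by nlinarith
    exact Nat.le_of_mul_le_mul_left h4 hn
  obtain ⟨R, hR1, hR2⟩ := exists_subset_card_eq (s := Big) (n := n / 20) (by omega)
  refine ⟨R, hR2, fun i hi => ?_⟩
  have := hR1 hi
  rw [hBig, mem_filter] at this
  exact this.2

theorem lemF (hn : 10 ^ 15 ≤ n) {d : ℝ} {Y : Finset (Fin n × Fin n)} {A : Finset (Perm (Fin n))}
    (hS : InSt Y A) (hD : Den d Y A) (hd : d ≤ (n : ℝ) / 10 ^ 13)
    (G : Finset (Fin n × Fin n)) (hrow : ∀ p ∈ G, p.1 ∉ Y.image Prod.fst)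
    (hG : ∀ p ∈ G, 50 * n * (lk A p).card ≤ A.card) : 10 * G.card < 3 * n ^ 2 := by
  classical
  by_contra hcon
  push Not at hcon
  have hn0 : 0 < n := by omega
  have hnR : (10 : ℝ) ^ 15 ≤ n := by exact_mod_cast hn
  obtain ⟨R, hRc, hRg⟩ := lemF_rows G hn0 hcon
  set g : Fin n → Finset (Fin n) := fun i => univ.filter fun j => (i, j) ∈ G with hg
  have hY : (Y.card : ℝ) ≤ (n : ℝ) / 10 ^ 13 := (hD.card_le hS).trans hd
  have hRY : ∀ q ∈ Y, q.1 ∉ R := by
    intro q hq hqR
    have h1 := hRg _ hqR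
    have h2 : 0 < (g q.1).card := by
      rw [hg]
      simp only
      omega
    obtain ⟨j, hj⟩ := card_pos.1 h2
    rw [hg] at hj
    simp only [mem_filter, mem_univ, true_and] at hj
    exact hrow _ hj (mem_image.2 ⟨q, hq, rfl⟩)
  set N : Perm (Fin n) → ℕ := fun σ => (R.filter fun i => (i, σ i) ∈ G).card with hN
  set w : Fin n → Fin n → ℝ := fun i j => if (i, j) ∈ G then 1 / 2 else 1 with hw
  -- the sum of `N`
  have hNsum : 50 * ∑ σ ∈ A, N σ ≤ R.card * A.card := by
    have h1 : ∑ σ ∈ A, N σ = ∑ i ∈ R, ∑ j ∈ g i, (lk A (i, j)).card := by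
      calc ∑ σ ∈ A, N σ = ∑ σ ∈ A, ∑ i ∈ R, (if (i, σ i) ∈ G then 1 else 0) := by
            refine sum_congr rfl fun σ _ => ?_
            rw [hN]
            simp only
            rw [card_filter]
        _ = ∑ i ∈ R, ∑ σ ∈ A, (if (i, σ i) ∈ G then 1 else 0) := sum_comm
        _ = ∑ i ∈ R, ∑ j ∈ g i, (lk A (i, j)).card := by
            refine sum_congr rfl fun i _ => ?_
            have h2 : ∀ j, (lk A (i, j)).card = ∑ σ ∈ A, (if σ i = j then 1 else 0) := by
              intro j
              unfold lk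
              rw [card_filter]
              refine sum_congr rfl fun σ _ => ?_
              simp only [mem_gr]
            simp only [h2]
            rw [sum_comm]
            refine sum_congr rfl fun σ _ => ?_
            rw [sum_ite_eq, hg]
            simp
    rw [h1, mul_sum]
    calc ∑ i ∈ R, 50 * ∑ j ∈ g i, (lk A (i, j)).card ≤ ∑ i ∈ R, A.card := by
          refine sum_le_sum fun i _ => ?_
          have h2 : n * (50 * ∑ j ∈ g i, (lk A (i, j)).card) ≤ n * A.card := by
            calc n * (50 * ∑ j ∈ g i, (lk A (i, j)).card)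
                = ∑ j ∈ g i, 50 * n * (lk A (i, j)).card := by rw [← mul_sum]; ring
              _ ≤ ∑ j ∈ g i, A.card := by
                  refine sum_le_sum fun j hj => hG _ ?_
                  rw [hg] at hj
                  simpa using hj
              _ = (g i).card * A.card := by rw [sum_const, smul_eq_mul]
              _ ≤ n * A.card := by
                  refine Nat.mul_le_mul_right _ ?_
                  calc (g i).card ≤ (univ : Finset (Fin n)).card := card_le_card (filter_subset _ _)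
                    _ = n := by simp
          exact Nat.le_of_mul_le_mul_left h2 hn0
      _ = R.card * A.card := by rw [sum_const, smul_eq_mul]
  -- the weights
  have hprod : ∀ σ : Perm (Fin n), ∏ i ∈ R, w i (σ i) = Real.exp (-(N σ * Real.log 2)) := by
    intro σ
    have h1 : ∏ i ∈ R, w i (σ i) = (1 / 2 : ℝ) ^ N σ := by
      rw [hw, hN]
      simp only
      rw [prod_ite, prod_const, prod_const_one, mul_one]
    rw [h1, one_div, inv_pow, Real.exp_neg, Real.exp_nat_mul, Real.exp_log (by norm_num)]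
  have hlog2 : Real.log 2 < 0.6931471808 := Real.log_two_lt_d9
  have hlog2p : 0 < Real.log 2 := Real.log_pos (by norm_num)
  have hlow : Real.exp (-((R.card : ℝ) / 50 * Real.log 2)) * A.card ≤
      ∑ σ ∈ A, ∏ i ∈ R, w i (σ i) := by
    have h1 : ∀ σ : Perm (Fin n), Real.exp (-((R.card : ℝ) / 50 * Real.log 2)) *
        (1 + ((R.card : ℝ) / 50 - N σ) * Real.log 2) ≤ ∏ i ∈ R, w i (σ i) := by
      intro σ
      rw [hprod]
      have h2 := Real.add_one_le_exp (((R.card : ℝ) / 50 - N σ) * Real.log 2)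
      calc Real.exp (-((R.card : ℝ) / 50 * Real.log 2)) *
          (1 + ((R.card : ℝ) / 50 - N σ) * Real.log 2)
          ≤ Real.exp (-((R.card : ℝ) / 50 * Real.log 2)) *
            Real.exp (((R.card : ℝ) / 50 - N σ) * Real.log 2) :=
            mul_le_mul_of_nonneg_left (by linarith) (Real.exp_pos _).le
        _ = Real.exp (-(N σ * Real.log 2)) := by
            rw [← Real.exp_add]
            congr 1
            ring
    refine le_trans ?_ (sum_le_sum fun σ _ => h1 σ)
    rw [← mul_sum]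
    refine mul_le_mul_of_nonneg_left ?_ (Real.exp_pos _).le
    rw [sum_add_distrib, sum_const, nsmul_eq_mul, mul_one, ← sum_mul, sum_sub_distrib, sum_const,
      nsmul_eq_mul]
    have h2 : 50 * ∑ σ ∈ A, (N σ : ℝ) ≤ R.card * A.card := by exact_mod_cast hNsum
    have h3 : 0 ≤ ((A.card : ℝ) * ((R.card : ℝ) / 50) - ∑ σ ∈ A, (N σ : ℝ)) * Real.log 2 := by
      apply mul_nonneg _ hlog2p.le
      linarith
    linarith
  have hwn : ∀ i j, 0 ≤ w i j := by
    intro i j
    rw [hw]
    simp only
    split_ifs <;> norm_num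
  have hup : ∑ σ ∈ A, ∏ i ∈ R, w i (σ i) ≤ (951 / 1000 : ℝ) ^ R.card * ((n - Y.card)! : ℝ) := by
    refine (sum_le_sum_of_subset_of_nonneg hS.subset
      fun σ _ _ => prod_nonneg fun i _ => hwn _ _).trans ?_
    refine seq w hwn (951 / 1000) (by norm_num) (Y.card + R.card) R Y hRY le_rfl ?_
    intro U hU i hi
    have h1 : ∑ j ∈ Uᶜ, w i j = (Uᶜ.card : ℝ) - 1 / 2 * ((Uᶜ.filter fun j => (i, j) ∈ G).card : ℝ) := by
      have h2 : ∀ j, w i j = 1 - 1 / 2 * (if (i, j) ∈ G then 1 else 0) := by
        intro j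
        rw [hw]
        simp only
        split_ifs <;> norm_num
      simp only [h2]
      rw [sum_sub_distrib, sum_const, nsmul_eq_mul, mul_one, ← mul_sum, sum_boole]
    have h3 : (g i).card ≤ (Uᶜ.filter fun j => (i, j) ∈ G).card + U.card := by
      have h4 : g i ⊆ (Uᶜ.filter fun j => (i, j) ∈ G) ∪ U := by
        intro j hj
        rw [hg] at hj
        simp only [mem_filter, mem_univ, true_and] at hj
        rw [mem_union, mem_filter, mem_compl]
        by_cases hjU : j ∈ U
        · exact Or.inr hjU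
        · exact Or.inl ⟨hjU, hj⟩
      exact (card_le_card h4).trans (card_union_le _ _)
    have h5 := hRg i hi
    have h6 : (Uᶜ.card : ℝ) = n - U.card := by
      rw [card_compl, Fintype.card_fin, Nat.cast_sub]
      calc U.card ≤ (univ : Finset (Fin n)).card := card_le_card (subset_univ _)
        _ = n := by simp
    rw [h1, h6]
    have h3' : ((g i).card : ℝ) ≤ ((Uᶜ.filter fun j => (i, j) ∈ G).card : ℝ) + U.card := by
      exact_mod_cast h3
    have h5' : 3 * (n : ℝ) ≤ 20 * ((g i).card : ℝ) := by exact_mod_cast h5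
    have hU' : (U.card : ℝ) ≤ Y.card + R.card := by exact_mod_cast hU
    have hR' : (R.card : ℝ) ≤ (n : ℝ) / 20 := by
      rw [hRc]
      have : 20 * (n / 20) ≤ n := by omega
      have h7 : (20 : ℝ) * ((n / 20 : ℕ) : ℝ) ≤ n := by exact_mod_cast this
      linarith
    have h8 : (n : ℝ) / 10 ^ 13 ≤ n / 1000 := by
      apply div_le_div_of_nonneg_left (by positivity) (by norm_num) (by norm_num)
    linarith
  -- conclusion
  have hA := hD.le_card
  have hAp := hD.card_pos
  have h1 : Real.exp (-((R.card : ℝ) / 50 * Real.log 2)) ≤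
      (951 / 1000 : ℝ) ^ R.card * Real.exp d := by
    have h2 : Real.exp (-((R.card : ℝ) / 50 * Real.log 2)) * A.card ≤
        (951 / 1000 : ℝ) ^ R.card * Real.exp d * A.card := by
      calc _ ≤ _ := hlow
        _ ≤ _ := hup
        _ ≤ (951 / 1000 : ℝ) ^ R.card * (Real.exp d * A.card) := by gcongr
        _ = _ := by ring
    exact le_of_mul_le_mul_right h2 hAp
  have h2 : (951 / 1000 : ℝ) ^ R.card ≤ Real.exp (-(49 / 1000) * R.card) := by
    have h3 : (951 / 1000 : ℝ) ≤ Real.exp (-(49 / 1000)) := by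
      have := Real.add_one_le_exp (-(49 / 1000) : ℝ)
      linarith
    calc (951 / 1000 : ℝ) ^ R.card ≤ Real.exp (-(49 / 1000)) ^ R.card :=
          pow_le_pow_left₀ (by norm_num) h3 _
      _ = _ := by
          rw [← Real.exp_nat_mul]
          congr 1
          ring
  have h3 : Real.exp (-((R.card : ℝ) / 50 * Real.log 2)) ≤
      Real.exp (-(49 / 1000) * R.card + d) := by
    rw [Real.exp_add]
    exact h1.trans (mul_le_mul_of_nonneg_right h2 (Real.exp_pos _).le)
  rw [Real.exp_le_exp] at h3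
  have hR1 : (n : ℝ) / 20 - 1 ≤ R.card := by
    rw [hRc]
    have : n ≤ 20 * (n / 20) + 20 := by omega
    have h7 : (n : ℝ) ≤ 20 * ((n / 20 : ℕ) : ℝ) + 20 := by exact_mod_cast this
    linarith
  have h8 : (n : ℝ) / 10 ^ 13 ≤ n / 10000 := by
    apply div_le_div_of_nonneg_left (by positivity) (by norm_num) (by norm_num)
  have hRp : (0 : ℝ) ≤ R.card := by positivity
  have h9 : (R.card : ℝ) * Real.log 2 ≤ R.card * 0.6931471808 :=
    mul_le_mul_of_nonneg_left hlog2.le hRp
  have hnR2 : (1000000 : ℝ) ≤ n := le_trans (by norm_num) hnR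
  norm_num at h9
  linarith

end Pool.Agent.FI37
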