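import Pool.Agent.FI37.LockDefs

/-!
# Locks: union bound in the fibres of the restriction to `P`

PROOF. Let `E` be the set on the left. Group `E` by the value `s = rst P τ`
(`card_eq_sum_card_fiberwise`, over the image of `E` or of `st Y`). For `τ₀ ∈ st Y`, `s = rst P τ₀`,
`T = Y ∪ s`: the fibre `{τ ∈ st Y : rst P τ = s}` equals `st T` (if `T ⊆ gr τ` then
`rst P τ ⊇ s` and both have `|P|` elements), has exactly `(n - |T|)!` elements (`card_st`,
`T ⊆ gr τ₀`), and `|T| = |Y.image Prod.fst ∪ P| ` (`T ⊆ gr τ₀`, `card_fst`, the rows of `T` are the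
rows of `Y` together with `P`). Let `k = n - |T|`, so `2 M ≤ k`. The set `H = GS L Z P s` is disjoint
from `T` (its rows are outside `P` and outside the rows of `Y`). If `|H| ≤ g`, by `ut` the number of
`τ ∈ st T` with `M ≤ |gr τ ∩ H|` is `≤ C(g, M) (k - M)!`, and
`C(g,M) ≤ g^M/M! ≤ (e g/M)^M`, `(k-M)! (k - M + 1)^M ≤ k!` with `k - M + 1 ≥ M`, so this is
`≤ (e g/M²)^M k! ≤ e^{-M} k!` by `hg`. Summing over the fibres: `Σ_s k! = |st Y| ≤ (n-|Y|)!`.
-/

namespace Pool.Agent.FI37

open Finset Equiv Nat Pool.Agent.H17.PermInt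

variable {n : ℕ}

theorem lockFib (Y L : Finset (Fin n × Fin n)) (Z : Fin n × Fin n → Finset (Fin n × Fin n))
    (P : Finset (Fin n)) (hrow : ∀ p ∈ L, p.1 ∉ Y.image Prod.fst) (M g : ℕ) (hM : 1 ≤ M)
    (hg : Real.exp 2 * g ≤ (M : ℝ) ^ 2)
    (hfree : (Y.image Prod.fst ∪ P).card + 2 * M ≤ n) :
    (((st Y).filter fun τ => (GS L Z P (rst P τ)).card ≤ g ∧
      M ≤ (gr τ ∩ GS L Z P (rst P τ)).card).card : ℝ) ≤
      Real.exp (-(M : ℝ)) * ((n - Y.card)! : ℝ) := by
  classical
  set E := (st Y).filter fun τ => (GS L Z P (rst P τ)).card ≤ g ∧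
      M ≤ (gr τ ∩ GS L Z P (rst P τ)).card with hE
  have hfib : ∀ s ∈ (st Y).image (rst P), ((E.filter fun τ => rst P τ = s).card : ℝ) ≤
      Real.exp (-(M : ℝ)) * (((st Y).filter fun τ => rst P τ = s).card : ℝ) := by
    intro s hs
    rw [mem_image] at hs
    obtain ⟨τ₀, hτ₀, hs⟩ := hs
    rw [mem_st] at hτ₀
    have hsgr : s ⊆ gr τ₀ := by
      rw [← hs]
      exact filter_subset _ _
    set T := Y ∪ s with hT
    have hTgr : T ⊆ gr τ₀ := union_subset hτ₀ hsgr
    have hsrow : s.image Prod.fst = P := by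
      ext i
      rw [mem_image]
      constructor
      · rintro ⟨q, hq, rfl⟩
        rw [← hs, rst, mem_filter] at hq
        exact hq.2
      · intro hi
        refine ⟨(i, τ₀ i), ?_, rfl⟩
        rw [← hs, rst, mem_filter]
        exact ⟨mem_gr.mpr rfl, hi⟩
    have hTc : T.card = (Y.image Prod.fst ∪ P).card := by
      rw [← card_fst hTgr, hT, image_union, hsrow]
    have heq : (st Y).filter (fun τ => rst P τ = s) = st T := by
      ext τ
      rw [mem_filter, mem_st, mem_st]
      constructor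
      · rintro ⟨h1, h2⟩
        apply union_subset h1
        rw [← h2]
        exact filter_subset _ _
      · intro h1
        refine ⟨subset_union_left.trans h1, ?_⟩
        rw [← hs]
        ext q
        rw [rst, rst, mem_filter, mem_filter, mem_gr, mem_gr]
        constructor
        · rintro ⟨h2, h3⟩
          refine ⟨?_, h3⟩
          have h4 : (q.1, τ₀ q.1) ∈ s := by
            rw [← hs, rst, mem_filter]
            exact ⟨mem_gr.mpr rfl, h3⟩
          have h5 := mem_gr.mp (h1 (mem_union_right _ h4))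
          simp only at h5
          rw [← h5, h2]
        · rintro ⟨h2, h3⟩
          refine ⟨?_, h3⟩
          have h4 : (q.1, τ₀ q.1) ∈ s := by
            rw [← hs, rst, mem_filter]
            exact ⟨mem_gr.mpr rfl, h3⟩
          have h5 := mem_gr.mp (h1 (mem_union_right _ h4))
          simp only at h5
          rw [h5, h2]
    rw [heq, card_st hTgr]
    set H := GS L Z P s with hH
    by_cases hHg : H.card ≤ g
    · have hdis : Disjoint T H := by
        rw [disjoint_left]
        intro q hq hqH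
        rw [hH, GS, mem_filter] at hqH
        rw [hT, mem_union] at hq
        rcases hq with hq | hq
        · exact hrow q hqH.1 (mem_image_of_mem _ hq)
        · rw [← hs, rst, mem_filter] at hq
          exact hqH.2.1 hq.2
      have hsub : E.filter (fun τ => rst P τ = s) ⊆
          (st T).filter fun τ => M ≤ (gr τ ∩ H).card := by
        intro τ hτ
        rw [mem_filter, hE, mem_filter] at hτ
        obtain ⟨⟨h1, h2, h3⟩, h4⟩ := hτ
        rw [mem_filter]
        constructor
        · rw [← heq, mem_filter]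
          exact ⟨h1, h4⟩
        · rw [h4] at h3
          exact h3
      have h1 := (card_le_card hsub).trans (ut T H hdis M)
      have h2 : H.card.choose M ≤ g.choose M := Nat.choose_le_choose M hHg
      set k := n - T.card with hk
      have hk2 : 2 * M ≤ k := by omega
      have h3 : ((E.filter fun τ => rst P τ = s).card : ℝ) ≤
          (g.choose M : ℝ) * ((k - M)! : ℝ) := by
        have : (E.filter fun τ => rst P τ = s).card ≤ g.choose M * (k - M)! :=
          h1.trans (Nat.mul_le_mul_right _ h2)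
        exact_mod_cast this
      have hM0 : (0 : ℝ) < M := by exact_mod_cast hM
      have h4 : (g.choose M : ℝ) ≤ (g : ℝ) ^ M / (M ! : ℝ) := Nat.choose_le_pow_div M g
      have h5 : (M : ℝ) ^ M / (M ! : ℝ) ≤ Real.exp M :=
        Real.pow_div_factorial_le_exp (M : ℝ) hM0.le M
      have h6 : ((k - M)! : ℝ) * (M : ℝ) ^ M ≤ (k ! : ℝ) := by
        have h7 : (k - M)! * (k - M + 1) ^ M ≤ (k - M + M)! := Nat.factorial_mul_pow_le_factorial
        rw [Nat.sub_add_cancel (by omega)] at h7
        have h8 : (k - M)! * M ^ M ≤ k ! := by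
          refine le_trans ?_ h7
          gcongr
          omega
        exact_mod_cast h8
      have hg0 : (0 : ℝ) ≤ g := Nat.cast_nonneg _
      have hMM : (0 : ℝ) < (M : ℝ) ^ M := by positivity
      -- main computation
      have h9 : (g : ℝ) ^ M * Real.exp (2 * M) ≤ (M : ℝ) ^ M * (M : ℝ) ^ M := by
        have h10 : (Real.exp 2 * g) ^ M ≤ ((M : ℝ) ^ 2) ^ M := by gcongr
        have h11 : Real.exp (2 * (M : ℝ)) = Real.exp 2 ^ M := by
          rw [← Real.exp_nat_mul]
          ring_nf
        rw [h11]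
        calc (g : ℝ) ^ M * Real.exp 2 ^ M = (Real.exp 2 * g) ^ M := by rw [mul_pow]; ring
          _ ≤ _ := h10
          _ = _ := by ring
      have h12 : (g : ℝ) ^ M / (M ! : ℝ) * ((k - M)! : ℝ) ≤ Real.exp (-(M : ℝ)) * (k ! : ℝ) := by
        have h13 : (g : ℝ) ^ M / (M ! : ℝ) ≤ (g : ℝ) ^ M * Real.exp M / (M : ℝ) ^ M := by
          rw [le_div_iff₀ hMM]
          calc (g : ℝ) ^ M / (M ! : ℝ) * (M : ℝ) ^ M = (g : ℝ) ^ M * ((M : ℝ) ^ M / (M ! : ℝ)) := by
                ring
            _ ≤ (g : ℝ) ^ M * Real.exp M := by gcongr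
        have h14 : ((k - M)! : ℝ) ≤ (k ! : ℝ) / (M : ℝ) ^ M := by
          rw [le_div_iff₀ hMM]
          exact h6
        calc (g : ℝ) ^ M / (M ! : ℝ) * ((k - M)! : ℝ)
            ≤ ((g : ℝ) ^ M * Real.exp M / (M : ℝ) ^ M) * ((k ! : ℝ) / (M : ℝ) ^ M) := by gcongr
          _ = ((g : ℝ) ^ M * Real.exp (2 * M)) * (Real.exp (-(M : ℝ)) * (k ! : ℝ)) /
                ((M : ℝ) ^ M * (M : ℝ) ^ M) := by
              have : Real.exp (M : ℝ) = Real.exp (2 * (M : ℝ)) * Real.exp (-(M : ℝ)) := by
                rw [← Real.exp_add]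
                ring_nf
              rw [this]
              field_simp
          _ ≤ ((M : ℝ) ^ M * (M : ℝ) ^ M) * (Real.exp (-(M : ℝ)) * (k ! : ℝ)) /
                ((M : ℝ) ^ M * (M : ℝ) ^ M) := by gcongr
          _ = Real.exp (-(M : ℝ)) * (k ! : ℝ) := by
              field_simp
      calc _ ≤ _ := h3
        _ ≤ (g : ℝ) ^ M / (M ! : ℝ) * ((k - M)! : ℝ) := by gcongr
        _ ≤ _ := h12
    · have hemp : E.filter (fun τ => rst P τ = s) = ∅ := by
        rw [filter_eq_empty_iff]
        intro τ hτ h4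
        rw [hE, mem_filter] at hτ
        obtain ⟨h1, h2, h3⟩ := hτ
        rw [h4] at h2
        exact hHg h2
      rw [hemp, card_empty, Nat.cast_zero]
      positivity
  have hEm : ∀ τ ∈ E, rst P τ ∈ (st Y).image (rst P) := fun τ hτ =>
    mem_image_of_mem _ (mem_filter.mp hτ).1
  have hYm : ∀ τ ∈ st Y, rst P τ ∈ (st Y).image (rst P) := fun τ hτ => mem_image_of_mem _ hτ
  have h1 := card_eq_sum_card_fiberwise (f := rst P) (t := (st Y).image (rst P)) (s := E) hEm
  have h2 := card_eq_sum_card_fiberwise (f := rst P) (t := (st Y).image (rst P)) (s := st Y) hYm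
  have h3 : ((st Y).card : ℝ) ≤ ((n - Y.card)! : ℝ) := by exact_mod_cast card_st_le Y
  calc (E.card : ℝ) = ∑ s ∈ (st Y).image (rst P), ((E.filter fun τ => rst P τ = s).card : ℝ) := by
        rw [h1]
        push_cast
        rfl
    _ ≤ ∑ s ∈ (st Y).image (rst P),
        Real.exp (-(M : ℝ)) * (((st Y).filter fun τ => rst P τ = s).card : ℝ) := sum_le_sum hfib
    _ = Real.exp (-(M : ℝ)) * ((st Y).card : ℝ) := by
        rw [← mul_sum, h2]
        push_cast
        rfl
    _ ≤ _ := by gcongr

end Pool.Agent.FI37
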