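import Pool.Agent.FI37.LockAvg
import Pool.Agent.FI37.LockFib

/-!
# Locks are rare

PROOF. Suppose `10 |L| ≥ 3 n²`. By `hlock`, `hlk`:
`Σ_{p ∈ L} #{τ ∈ lk B p : gr τ ∩ Z p ≠ ∅} ≥ Σ_{p ∈ L} |lk B p|/2 ≥ 0.3 n² · |B|/(100 n) = 0.003 n |B|`.
`lockAvg` gives `P` with `Σ_{τ ∈ B} N τ ≥ 0.00075 n |B|`, `N τ = |gr τ ∩ G τ|`,
`G τ = GS L Z P (rst P τ)`. Let `M = ⌈n/3000⌉` (e.g. `n/3000 + 1`): `2 M ≤ 0.00075 n`, so
`Σ_{τ ∈ B} N τ ≥ 2 M |B|`. In particular some `τ ∈ B` has `N τ ≥ 2M`; as the pairs of `gr τ ∩ G τ` have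
distinct rows outside `P` and outside the rows of `Y` (hrow), `|rows Y ∪ P| + 2M ≤ n` (`hfree` of
`lockFib`). Also `N τ ≤ n` always. Next `Σ_{τ ∈ B} |G τ| ≤ Σ_{p ∈ L} Σ_{q ∈ Z p} |lk B q|
≤ n² · (n/10^13) · 8|B|/n = 8 n² · n/10^13 ... = (8/10^13) n² |B|` (`Spr`, `q ∉ Y`; `|L| ≤ n²`). Let
`g = ⌊M²/e²⌋` (so `hg` holds and `g + 1 ≥ M²/e²`); the members with `|G τ| > g` number at most
`(8/10^13) n² |B| / (g+1)`, contributing at most `n · (8/10^13) n² |B| e²/M² ≤ M |B|/2`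
(`M³ ≥ n³/2.7·10^10 ≥ 16 e² n³/10^13`, as `16 e² ≤ 118.3 < 370`). The members with `N τ < M` contribute
at most `M |B|`. So the members with `|G τ| ≤ g` and `N τ ≥ M` have `Σ N τ ≥ M|B|/2`, so there are at
least `M |B|/(2n) ≥ |B|/6000` of them, and by `lockFib` (`B ⊆ st Y`) at most
`e^{-M} (n - |Y|)! ≤ e^{-M} e^d |B|` (`Den.le_card`). So `e^{M - d} ≤ 6000 ≤ e^9`, `M ≤ d + 9
≤ n/10^13 + 9 < n/3000`: contradiction.
-/

namespace Pool.Agent.FI37

open Finset Equiv Nat Pool.Agent.H17.PermInt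

variable {n : ℕ}

theorem lemL (hn : 10 ^ 15 ≤ n) {d : ℝ} {Y : Finset (Fin n × Fin n)} {B : Finset (Perm (Fin n))}
    (hS : InSt Y B) (hSp : Spr 8 Y B) (hD : Den d Y B) (hd : d ≤ (n : ℝ) / 10 ^ 13)
    (L : Finset (Fin n × Fin n)) (Z : Fin n × Fin n → Finset (Fin n × Fin n))
    (hrow : ∀ p ∈ L, p.1 ∉ Y.image Prod.fst)
    (hZc : ∀ p ∈ L, ((Z p).card : ℝ) ≤ (n : ℝ) / 10 ^ 13)
    (hZ : ∀ p ∈ L, ∀ q ∈ Z p, q.1 ≠ p.1 ∧ q ∉ Y)
    (hlk : ∀ p ∈ L, B.card ≤ 50 * n * (lk B p).card)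
    (hlock : ∀ p ∈ L, (lk B p).card ≤
      2 * ((lk B p).filter fun τ => (gr τ ∩ Z p).Nonempty).card) :
    10 * L.card < 3 * n ^ 2 := by
  classical
  by_contra hcon
  push Not at hcon
  have hn0 : 0 < n := by omega
  have hnR : (10 : ℝ) ^ 15 ≤ n := by exact_mod_cast hn
  have hnp : (0 : ℝ) < n := by exact_mod_cast hn0
  have hb : (0 : ℝ) < B.card := hD.card_pos
  obtain ⟨P, hP⟩ := lockAvg B L Z (fun p hp q hq => (hZ p hp q hq).1)
  set GG : Perm (Fin n) → Finset (Fin n × Fin n) := fun τ => GS L Z P (rst P τ) with hGG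
  set N : Perm (Fin n) → ℕ := fun τ => (gr τ ∩ GG τ).card with hN
  have hP' : ∑ p ∈ L, ((lk B p).filter fun τ => (gr τ ∩ Z p).Nonempty).card ≤
      4 * ∑ τ ∈ B, N τ := hP
  have h1 : 3 * n * B.card ≤ 4000 * ∑ τ ∈ B, N τ := by
    have a1 : ∑ p ∈ L, (lk B p).card ≤
        2 * ∑ p ∈ L, ((lk B p).filter fun τ => (gr τ ∩ Z p).Nonempty).card := by
      rw [mul_sum]
      exact sum_le_sum hlock
    have a2 : L.card * B.card ≤ 50 * n * ∑ p ∈ L, (lk B p).card := by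
      rw [mul_sum, ← smul_eq_mul, ← sum_const]
      exact sum_le_sum hlk
    have a3 : n * (3 * n * B.card) ≤ n * (4000 * ∑ τ ∈ B, N τ) := by
      calc n * (3 * n * B.card) = 3 * n ^ 2 * B.card := by ring
        _ ≤ 10 * L.card * B.card := Nat.mul_le_mul_right _ hcon
        _ = 10 * (L.card * B.card) := by ring
        _ ≤ 10 * (50 * n * ∑ p ∈ L, (lk B p).card) := Nat.mul_le_mul_left _ a2
        _ ≤ 10 * (50 * n * (2 * (4 * ∑ τ ∈ B, N τ))) :=
            Nat.mul_le_mul_left _ (Nat.mul_le_mul_left _ (a1.trans (Nat.mul_le_mul_left _ hP')))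
        _ = n * (4000 * ∑ τ ∈ B, N τ) := by ring
    exact Nat.le_of_mul_le_mul_left a3 hn0
  set M := n / 3000 + 1 with hM
  have hM2 : 2 * M * B.card ≤ ∑ τ ∈ B, N τ := by
    have a : 8000 * M ≤ 3 * n := by omega
    have a2 : 4000 * (2 * M * B.card) ≤ 4000 * ∑ τ ∈ B, N τ := by
      calc 4000 * (2 * M * B.card) = 8000 * M * B.card := by ring
        _ ≤ 3 * n * B.card := Nat.mul_le_mul_right _ a
        _ ≤ _ := h1
    exact Nat.le_of_mul_le_mul_left a2 (by norm_num)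
  obtain ⟨τ₀, hτ₀B, hτ₀⟩ : ∃ τ ∈ B, 2 * M ≤ N τ := by
    by_contra hc
    push Not at hc
    have h2 : ∑ τ ∈ B, N τ < ∑ τ ∈ B, 2 * M := sum_lt_sum_of_nonempty hD.nonempty hc
    rw [sum_const, smul_eq_mul, mul_comm] at h2
    omega
  have hfree : (Y.image Prod.fst ∪ P).card + 2 * M ≤ n := by
    have c1 : ((gr τ₀ ∩ GG τ₀).image Prod.fst).card = N τ₀ :=
      card_image_of_injOn ((fst_injOn_gr τ₀).mono (by exact_mod_cast inter_subset_left))
    have c2 : Disjoint (Y.image Prod.fst ∪ P) ((gr τ₀ ∩ GG τ₀).image Prod.fst) := by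
      rw [disjoint_right]
      intro i hi
      rw [mem_image] at hi
      obtain ⟨q, hq, rfl⟩ := hi
      have hq2 := (mem_inter.1 hq).2
      rw [hGG] at hq2
      simp only [GS, mem_filter] at hq2
      rw [mem_union]
      rintro (h | h)
      · exact hrow q hq2.1 h
      · exact hq2.2.1 h
    have c3 := card_union_of_disjoint c2
    have c4 : ((Y.image Prod.fst ∪ P) ∪ ((gr τ₀ ∩ GG τ₀).image Prod.fst)).card ≤ n := by
      calc _ ≤ (univ : Finset (Fin n)).card := card_le_card (subset_univ _)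
        _ = n := by simp
    omega
  have hNn : ∀ τ, N τ ≤ n := by
    intro τ
    calc N τ ≤ (gr τ).card := card_le_card inter_subset_left
      _ = n := card_gr τ
  have h3 : n * ∑ τ ∈ B, (GG τ).card ≤ ∑ p ∈ L, (Z p).card * (8 * B.card) := by
    have b1 : ∀ τ, (GG τ).card ≤ ∑ p ∈ L, ∑ q ∈ Z p, (if q ∈ gr τ then 1 else 0) := by
      intro τ
      rw [hGG]
      simp only [GS]
      rw [card_filter]
      refine sum_le_sum fun p hp => ?_
      split_ifs with h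
      · obtain ⟨-, q, hq⟩ := h
        rw [mem_inter] at hq
        have hq2 : q ∈ gr τ := (mem_filter.1 hq.2).1
        calc 1 = (if q ∈ gr τ then 1 else 0) := by rw [if_pos hq2]
          _ ≤ ∑ q ∈ Z p, (if q ∈ gr τ then 1 else 0) :=
            single_le_sum (f := fun q => if q ∈ gr τ then 1 else 0) (fun _ _ => Nat.zero_le _) hq.1
      · exact Nat.zero_le _
    have b2 : ∑ τ ∈ B, (GG τ).card ≤ ∑ p ∈ L, ∑ q ∈ Z p, (lk B q).card := by
      calc ∑ τ ∈ B, (GG τ).card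
          ≤ ∑ τ ∈ B, ∑ p ∈ L, ∑ q ∈ Z p, (if q ∈ gr τ then 1 else 0) :=
            sum_le_sum fun τ _ => b1 τ
        _ = ∑ p ∈ L, ∑ τ ∈ B, ∑ q ∈ Z p, (if q ∈ gr τ then 1 else 0) := sum_comm
        _ = ∑ p ∈ L, ∑ q ∈ Z p, ∑ τ ∈ B, (if q ∈ gr τ then 1 else 0) :=
            sum_congr rfl fun p _ => sum_comm
        _ = ∑ p ∈ L, ∑ q ∈ Z p, (lk B q).card := by
            refine sum_congr rfl fun p _ => sum_congr rfl fun q _ => ?_
            unfold lk
            rw [card_filter]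
    calc n * ∑ τ ∈ B, (GG τ).card ≤ n * ∑ p ∈ L, ∑ q ∈ Z p, (lk B q).card :=
          Nat.mul_le_mul_left _ b2
      _ = ∑ p ∈ L, ∑ q ∈ Z p, n * (lk B q).card := by
          rw [mul_sum]
          exact sum_congr rfl fun p _ => mul_sum _ _ _
      _ ≤ ∑ p ∈ L, ∑ q ∈ Z p, 8 * B.card :=
          sum_le_sum fun p hp => sum_le_sum fun q hq => hSp q (hZ p hp q hq).2
      _ = ∑ p ∈ L, (Z p).card * (8 * B.card) :=
          sum_congr rfl fun p _ => by rw [sum_const, smul_eq_mul]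
  have h3R : ∑ τ ∈ B, ((GG τ).card : ℝ) ≤ 8 * (n : ℝ) ^ 2 * B.card / 10 ^ 13 := by
    have b1 : (n : ℝ) * ∑ τ ∈ B, ((GG τ).card : ℝ) ≤
        ∑ p ∈ L, ((Z p).card : ℝ) * (8 * B.card) := by exact_mod_cast h3
    have hL : (L.card : ℝ) ≤ (n : ℝ) ^ 2 := by
      have : L.card ≤ n * n := by
        calc L.card ≤ (univ : Finset (Fin n × Fin n)).card := card_le_card (subset_univ _)
          _ = n * n := by simp
      have h4 : (L.card : ℝ) ≤ n * n := by exact_mod_cast this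
      rwa [sq]
    have b2 : ∑ p ∈ L, ((Z p).card : ℝ) * (8 * B.card) ≤
        (n : ℝ) * (8 * (n : ℝ) ^ 2 * B.card / 10 ^ 13) := by
      calc ∑ p ∈ L, ((Z p).card : ℝ) * (8 * B.card)
          ≤ ∑ p ∈ L, (n : ℝ) / 10 ^ 13 * (8 * B.card) :=
            sum_le_sum fun p hp => mul_le_mul_of_nonneg_right (hZc p hp) (by positivity)
        _ = L.card * ((n : ℝ) / 10 ^ 13 * (8 * B.card)) := by rw [sum_const, nsmul_eq_mul]
        _ ≤ (n : ℝ) ^ 2 * ((n : ℝ) / 10 ^ 13 * (8 * B.card)) :=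
            mul_le_mul_of_nonneg_right hL (by positivity)
        _ = _ := by ring
    exact le_of_mul_le_mul_left (b1.trans b2) hnp
  have hE : Real.exp 2 < 7.4 := by
    have h4 := Real.exp_one_lt_d9
    have h5 : Real.exp 2 = Real.exp 1 ^ 2 := by
      rw [← Real.exp_nat_mul]
      norm_num
    rw [h5]
    have h6 := Real.exp_pos 1
    norm_num at h4 ⊢
    nlinarith
  have hEp := Real.exp_pos 2
  set g : ℕ := ⌊(M : ℝ) ^ 2 / Real.exp 2⌋₊ with hg
  have hg1 : Real.exp 2 * g ≤ (M : ℝ) ^ 2 := by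
    have h4 : (g : ℝ) ≤ (M : ℝ) ^ 2 / Real.exp 2 := Nat.floor_le (by positivity)
    rwa [le_div_iff₀ hEp, mul_comm] at h4
  have hg2 : (M : ℝ) ^ 2 / Real.exp 2 ≤ (g : ℝ) + 1 := (Nat.lt_floor_add_one _).le
  set X1 := B.filter fun τ => g < (GG τ).card with hX1
  set X2 := B.filter fun τ => (GG τ).card ≤ g ∧ M ≤ N τ with hX2
  have hMR : (n : ℝ) / 3000 ≤ M := by
    have h4 : n ≤ 3000 * M := by omega
    have h5 : (n : ℝ) ≤ 3000 * M := by exact_mod_cast h4
    linarith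
  have hMp : (0 : ℝ) < M := by
    have : (0 : ℝ) < (n : ℝ) / 3000 := by positivity
    linarith
  have hsplit : ∑ τ ∈ B, (N τ : ℝ) ≤ n * X1.card + n * X2.card + M * B.card := by
    have h4 : ∀ τ ∈ B, (N τ : ℝ) ≤ (if g < (GG τ).card then (n : ℝ) else 0) +
        (if (GG τ).card ≤ g ∧ M ≤ N τ then (n : ℝ) else 0) + M := by
      intro τ _
      have h5 : (N τ : ℝ) ≤ n := by exact_mod_cast hNn τ
      by_cases c1 : g < (GG τ).card
      · rw [if_pos c1]
        split_ifs <;> linarith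
      · rw [if_neg c1]
        by_cases c2 : M ≤ N τ
        · rw [if_pos ⟨by omega, c2⟩]
          linarith
        · rw [if_neg (fun h => c2 h.2)]
          have h6 : (N τ : ℝ) ≤ M := by exact_mod_cast (by omega : N τ ≤ M)
          linarith
    refine (sum_le_sum h4).trans (le_of_eq ?_)
    rw [sum_add_distrib, sum_add_distrib, ← sum_filter, ← sum_filter, sum_const, sum_const,
      sum_const, nsmul_eq_mul, nsmul_eq_mul, nsmul_eq_mul]
    ring
  have hM2R : 2 * (M : ℝ) * B.card ≤ ∑ τ ∈ B, (N τ : ℝ) := by exact_mod_cast hM2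
  have hX1c : (X1.card : ℝ) * ((M : ℝ) ^ 2 / Real.exp 2) ≤ 8 * (n : ℝ) ^ 2 * B.card / 10 ^ 13 := by
    calc (X1.card : ℝ) * ((M : ℝ) ^ 2 / Real.exp 2) ≤ X1.card * ((g : ℝ) + 1) :=
          mul_le_mul_of_nonneg_left hg2 (by positivity)
      _ = ∑ τ ∈ X1, ((g : ℝ) + 1) := by rw [sum_const, nsmul_eq_mul]
      _ ≤ ∑ τ ∈ X1, ((GG τ).card : ℝ) := by
          refine sum_le_sum fun τ hτ => ?_
          have := (mem_filter.1 hτ).2
          exact_mod_cast this
      _ ≤ ∑ τ ∈ B, ((GG τ).card : ℝ) :=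
          sum_le_sum_of_subset_of_nonneg (filter_subset _ _) fun _ _ _ => by positivity
      _ ≤ _ := h3R
  have hX1b : (n : ℝ) * X1.card ≤ M * B.card / 2 := by
    have h4 : (X1.card : ℝ) * (M : ℝ) ^ 2 ≤ 8 * (n : ℝ) ^ 2 * B.card / 10 ^ 13 * Real.exp 2 := by
      rw [← mul_div_assoc, div_le_iff₀ hEp] at hX1c
      exact hX1c
    have h5 : (n : ℝ) * X1.card * (M : ℝ) ^ 2 ≤ M * B.card / 2 * (M : ℝ) ^ 2 := by
      calc (n : ℝ) * X1.card * (M : ℝ) ^ 2 = n * (X1.card * (M : ℝ) ^ 2) := by ring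
        _ ≤ n * (8 * (n : ℝ) ^ 2 * B.card / 10 ^ 13 * Real.exp 2) :=
            mul_le_mul_of_nonneg_left h4 hnp.le
        _ ≤ n * (8 * (n : ℝ) ^ 2 * B.card / 10 ^ 13 * 7.4) :=
            mul_le_mul_of_nonneg_left (mul_le_mul_of_nonneg_left hE.le (by positivity)) hnp.le
        _ = B.card * ((n : ℝ) ^ 3 * (592 / 10 ^ 14)) := by ring
        _ ≤ B.card * (((n : ℝ) / 3000) ^ 3 / 2) := by
            refine mul_le_mul_of_nonneg_left ?_ hb.le
            have h6 : ((n : ℝ) / 3000) ^ 3 / 2 = (n : ℝ) ^ 3 * (1 / (2 * 3000 ^ 3)) := by ring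
            rw [h6]
            refine mul_le_mul_of_nonneg_left ?_ (by positivity)
            norm_num
        _ ≤ B.card * ((M : ℝ) ^ 3 / 2) := by
            refine mul_le_mul_of_nonneg_left ?_ hb.le
            have := pow_le_pow_left₀ (by positivity) hMR 3
            linarith
        _ = M * B.card / 2 * (M : ℝ) ^ 2 := by ring
    exact le_of_mul_le_mul_right h5 (by positivity)
  have hX2a : (M : ℝ) * B.card / 2 ≤ n * X2.card := by linarith
  have hX2b : (X2.card : ℝ) ≤ Real.exp (-(M : ℝ)) * (Real.exp d * B.card) := by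
    have h4 := lockFib Y L Z P hrow M g (by omega) hg1 hfree
    have h5 : X2 ⊆ (st Y).filter fun τ => (GS L Z P (rst P τ)).card ≤ g ∧
        M ≤ (gr τ ∩ GS L Z P (rst P τ)).card := by
      intro τ hτ
      rw [hX2, mem_filter] at hτ
      rw [mem_filter]
      exact ⟨hS.subset hτ.1, hτ.2⟩
    have h6 : (X2.card : ℝ) ≤ (((st Y).filter fun τ => (GS L Z P (rst P τ)).card ≤ g ∧
        M ≤ (gr τ ∩ GS L Z P (rst P τ)).card).card : ℝ) := by exact_mod_cast card_le_card h5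
    refine (h6.trans h4).trans ?_
    exact mul_le_mul_of_nonneg_left hD.le_card (Real.exp_pos _).le
  have hfin : (1 : ℝ) / 6000 ≤ Real.exp (d - M) := by
    have h4 : (n : ℝ) / 3000 * B.card / 2 ≤ n * (Real.exp (d - M) * B.card) := by
      calc (n : ℝ) / 3000 * B.card / 2 ≤ M * B.card / 2 := by
            have := mul_le_mul_of_nonneg_right hMR hb.le
            linarith
        _ ≤ n * X2.card := hX2a
        _ ≤ n * (Real.exp (-(M : ℝ)) * (Real.exp d * B.card)) :=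
            mul_le_mul_of_nonneg_left hX2b hnp.le
        _ = n * (Real.exp (d - M) * B.card) := by
            rw [sub_eq_add_neg, Real.exp_add]
            ring
    have h5 : (n : ℝ) * B.card * (1 / 6000) ≤ n * B.card * Real.exp (d - M) := by linarith
    exact le_of_mul_le_mul_left h5 (by positivity)
  have h7 : Real.exp (M - d) ≤ 6000 := by
    have h8 : Real.exp (M - d) * Real.exp (d - M) = 1 := by
      rw [← Real.exp_add]
      simp
    have h9 := Real.exp_pos (M - d)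
    nlinarith
  have h8 := Real.add_one_le_exp ((M : ℝ) - d)
  have h9 : (n : ℝ) / 10 ^ 13 ≤ n / 10000 := by
    apply div_le_div_of_nonneg_left (by positivity) (by norm_num) (by norm_num)
  have h10 : (10 : ℝ) ^ 9 ≤ n := le_trans (by norm_num) hnR
  norm_num at h10
  linarith

end Pool.Agent.FI37
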