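import Pool.Agent.FI37.LockDefs

/-!
# Locks: choosing the rows `P` by averaging

PROOF. For each `(p, τ)` with `p ∈ L`, `τ ∈ lk B p`, `gr τ ∩ Z p ≠ ∅` choose `q ∈ gr τ ∩ Z p`; then
`q.1 ≠ p.1`. The number of `P ⊆ Fin n` (`univ : Finset (Finset (Fin n))`, `2^n` sets) with
`p.1 ∉ P`, `q.1 ∈ P` is `2^n / 4` (the number of subsets of the complement of two points; for the lower
bound: `4 * #{P : a ∉ P, b ∈ P} = 2^n`, e.g. by the bijections toggling `a` and `b`). For such `P` the
pair `p` lies in `gr τ ∩ GS L Z P (rst P τ)`. Double counting: `Σ_P 4 Σ_τ |gr τ ∩ GS ..| ≥ 2^n · LHS`,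
so some `P` works (`Finset.exists_le_of_sum_le` or contradiction).
-/

namespace Pool.Agent.FI37

open Finset Equiv Nat Pool.Agent.H17.PermInt

variable {n : ℕ}

/-- at least a quarter of the sets of rows avoid `a` and contain `b` -/
theorem quarter (a b : Fin n) (hab : a ≠ b) :
    2 ^ n ≤ 4 * ((univ : Finset (Finset (Fin n))).filter fun P => a ∉ P ∧ b ∈ P).card := by
  classical
  have h1 : (univ : Finset (Finset (Fin n))) ⊆
      (((univ : Finset (Finset (Fin n))).filter fun P => a ∉ P ∧ b ∈ P) ×ˢ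
        (univ : Finset (Bool × Bool))).image fun x =>
          (if x.2.1 then insert a x.1 else x.1) \ (if x.2.2 then {b} else ∅) := by
    intro P _
    rw [mem_image]
    refine ⟨((insert b P).erase a, (decide (a ∈ P), decide (b ∉ P))), ?_, ?_⟩
    · rw [mem_product, mem_filter]
      refine ⟨⟨mem_univ _, ?_, ?_⟩, mem_univ _⟩
      · simp
      · simp [hab.symm]
    · ext x
      by_cases hxa : x = a
      · subst hxa
        by_cases h1 : x ∈ P <;> by_cases h2 : b ∈ P <;> simp [h1, h2, hab]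
      · by_cases hxb : x = b
        · subst hxb
          by_cases h1 : a ∈ P <;> by_cases h2 : x ∈ P <;> simp [h1, h2, hxa]
        · by_cases h1 : a ∈ P <;> by_cases h2 : b ∈ P <;> simp [h1, h2, hxa, hxb]
  have h2 := (card_le_card h1).trans card_image_le
  rw [card_product, Finset.card_univ, Fintype.card_finset, Fintype.card_fin, Finset.card_univ,
    Fintype.card_prod, Fintype.card_bool] at h2
  omega

theorem lockAvg (B : Finset (Perm (Fin n))) (L : Finset (Fin n × Fin n))
    (Z : Fin n × Fin n → Finset (Fin n × Fin n)) (hZ : ∀ p ∈ L, ∀ q ∈ Z p, q.1 ≠ p.1) :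
    ∃ P : Finset (Fin n),
      ∑ p ∈ L, ((lk B p).filter fun τ => (gr τ ∩ Z p).Nonempty).card ≤
        4 * ∑ τ ∈ B, (gr τ ∩ GS L Z P (rst P τ)).card := by
  classical
  -- the marked incidences
  set N : Finset (Fin n) → ℕ := fun P => ∑ τ ∈ B, (gr τ ∩ GS L Z P (rst P τ)).card with hN
  set m : ℕ := ∑ p ∈ L, ((lk B p).filter fun τ => (gr τ ∩ Z p).Nonempty).card with hm
  have hN' : ∀ P, N P = ∑ p ∈ L, ((lk B p).filter fun τ => p.1 ∉ P ∧ (Z p ∩ rst P τ).Nonempty).card := by
    intro P
    rw [hN]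
    simp only
    have h1 : ∀ τ ∈ B, (gr τ ∩ GS L Z P (rst P τ)).card =
        ∑ p ∈ L, if (p ∈ gr τ ∧ p.1 ∉ P ∧ (Z p ∩ rst P τ).Nonempty) then 1 else 0 := by
      intro τ _
      rw [← card_filter]
      congr 1
      ext p
      rw [mem_inter, GS, mem_filter, mem_filter]
      tauto
    rw [sum_congr rfl h1, sum_comm]
    apply sum_congr rfl
    intro p _
    rw [← card_filter]
    congr 1
    ext τ
    rw [mem_filter, mem_filter, mem_lk]
    tauto
  have hkey : 2 ^ n * m ≤ ∑ P : Finset (Fin n), 4 * N P := by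
    have h1 : ∑ P : Finset (Fin n), 4 * N P = ∑ p ∈ L, ∑ τ ∈ lk B p,
        4 * ((univ : Finset (Finset (Fin n))).filter fun P =>
          p.1 ∉ P ∧ (Z p ∩ rst P τ).Nonempty).card := by
      simp_rw [hN', card_filter, mul_sum]
      rw [sum_comm]
      apply sum_congr rfl
      intro p _
      rw [sum_comm]
    rw [h1, hm, mul_sum]
    apply sum_le_sum
    intro p hp
    rw [card_filter, mul_sum]
    apply sum_le_sum
    intro τ hτ
    by_cases hne : (gr τ ∩ Z p).Nonempty
    · rw [if_pos hne, mul_one]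
      obtain ⟨q, hq⟩ := hne
      rw [mem_inter] at hq
      have hqp := hZ p hp q hq.2
      refine (quarter p.1 q.1 (Ne.symm hqp)).trans ?_
      apply Nat.mul_le_mul_left
      apply card_le_card
      intro P hP
      rw [mem_filter] at hP ⊢
      refine ⟨mem_univ _, hP.2.1, q, ?_⟩
      rw [mem_inter, rst, mem_filter]
      exact ⟨hq.2, hq.1, hP.2.2⟩
    · rw [if_neg hne, mul_zero]
      exact Nat.zero_le _
  by_contra hc
  push Not at hc
  have h2 : ∑ P : Finset (Fin n), 4 * N P < ∑ _P : Finset (Fin n), m := by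
    apply sum_lt_sum_of_nonempty univ_nonempty
    intro P _
    exact hc P
  rw [sum_const, smul_eq_mul, Finset.card_univ, Fintype.card_finset, Fintype.card_fin] at h2
  omega

end Pool.Agent.FI37
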