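import Pool.Agent.FI37.UT

/-!
# Locks: definitions

`rst P τ` is the restriction of `τ` to the rows `P`. `GS L Z P s` is the set of pairs `p ∈ L`, with
row outside `P`, whose set `Z p` meets `s`.
-/

namespace Pool.Agent.FI37

open Finset Equiv Nat Pool.Agent.H17.PermInt

variable {n : ℕ}

def rst (P : Finset (Fin n)) (τ : Perm (Fin n)) : Finset (Fin n × Fin n) :=
  (gr τ).filter fun q => q.1 ∈ P

def GS (L : Finset (Fin n × Fin n)) (Z : Fin n × Fin n → Finset (Fin n × Fin n))
    (P : Finset (Fin n)) (s : Finset (Fin n × Fin n)) : Finset (Fin n × Fin n) :=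
  L.filter fun p => p.1 ∉ P ∧ (Z p ∩ s).Nonempty

end Pool.Agent.FI37
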