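import Pool.Agent.FI37.Defs
import Pool.Agent.H52.ThreeStar.Fiber

/-!
# Many members of a star agree with an outside permutation in exactly `t - 1` points

PROOF. `S = X₀.image Prod.fst`, `|S| = t` (`card_fst`), `K = {i ∈ S : σ₀ i = π₀ i}`, `k = |K| ≤ t - 1`
(`¬ X₀ ⊆ gr σ₀`). `E = {i ∉ S : σ₀ i ∉ S.image π₀}`: `|E| ≥ n - 2t`. Choose `T' ⊆ E` with `|T'| = t - 1 - k`
(`≤ n - 2t`). `extend_perm` (Pool.Agent.H52.ThreeStar): a permutation `π` with `π = π₀` on `S` and `π = σ₀` on `E` (injective
on `S ∪ E`). `D = (S ∪ T')ᶜ`, `|D| = n - t - (t-1-k) ≥ n - 2t + 1 ≥ 2`. For `ρ` with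
`∀ i, i ∉ D ↔ ρ i = i` (i.e. fixed points exactly outside `D`) put `τ = π * ρ`. `X₀ ⊆ gr τ`. The
agreement set of `σ₀` and `τ` is `K ∪ T'`: on `S` it is `K`, on `T'` it is everything (`ρ i = i`,
`π i = σ₀ i`); `i ∈ D ∩ E`: `π (ρ i) = σ₀ i = π i` would give `ρ i = i`; `i ∈ D \ E` (`i ∉ S`): `σ₀ i ∈ S.image π₀ =
S.image π`, so `π (ρ i) = σ₀ i` would give `ρ i ∈ S`, `ρ i` is a fixed point of `ρ`, so `ρ i = i ∈ S`, no.
So `agr σ₀ τ = k + (t-1-k) = t - 1`. `ρ ↦ π * ρ` is injective; the number of such `ρ` is
`numDerangements |D|` (`derangements.subtypeEquiv`, `card_derangements_eq_numDerangements`), and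
`(m - 1)! ≤ numDerangements m` for `m ≥ 2` (induction, `numDerangements_add_two`); `|D| - 1 ≥ n - 2t`.
-/

namespace Pool.Agent.FI37

open Finset Equiv Nat Pool.Agent.H17.PermInt

variable {n : ℕ}

theorem numDer_ge (k : ℕ) : (k + 1)! ≤ numDerangements (k + 2) := by
  induction k with
  | zero => decide
  | succ k ih =>
    rw [numDerangements_add_two, Nat.factorial_succ (k + 1)]
    apply Nat.mul_le_mul (le_refl _)
    have : k + 1 + 1 = k + 2 := rfl
    rw [this]
    omega

theorem card_der (D : Finset (Fin n)) :
    ((univ : Finset (Perm (Fin n))).filter fun ρ => ∀ a, a ∉ D ↔ ρ a = a).card =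
      numDerangements D.card := by
  classical
  have e := derangements.subtypeEquiv (fun a : Fin n => a ∈ D)
  have h1 : Fintype.card (derangements {a : Fin n // a ∈ D}) = numDerangements D.card := by
    rw [card_derangements_eq_numDerangements, Fintype.card_coe]
  rw [← h1, Fintype.card_congr e, Fintype.card_subtype]
  congr 1

theorem nSigma (t : ℕ) (ht : 1 ≤ t) (hn : 3 * t + 1 ≤ n) (X₀ : Finset (Fin n × Fin n))
    (hX : X₀.card = t) (π₀ : Perm (Fin n)) (h : X₀ ⊆ gr π₀) (σ₀ : Perm (Fin n))
    (hσ : ¬ X₀ ⊆ gr σ₀) :
    (n - 2 * t)! ≤ ((st X₀).filter fun τ => agr σ₀ τ = t - 1).card := by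
  classical
  set S := X₀.image Prod.fst with hS
  have hSc : S.card = t := by rw [hS, card_fst h, hX]
  have hmemS : ∀ i ∈ S, (i, π₀ i) ∈ X₀ := by
    intro i hi
    rw [hS, mem_image] at hi
    obtain ⟨q, hq, rfl⟩ := hi
    have h1 := mem_gr.mp (h hq)
    rw [h1]
    exact hq
  set K := S.filter fun i => σ₀ i = π₀ i with hK
  have hKlt : K.card < t := by
    rw [← hSc]
    apply card_lt_card
    rw [filter_ssubset]
    by_contra hc
    push Not at hc
    apply hσ
    intro q hq
    rw [mem_gr, hc q.1 (mem_image_of_mem _ hq)]
    exact mem_gr.mp (h hq)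
  set I := S.image π₀ with hI
  have hIc : I.card = t := by rw [hI, Finset.card_image_of_injective _ π₀.injective, hSc]
  set E : Finset (Fin n) := univ.filter fun i => i ∉ S ∧ σ₀ i ∉ I with hE
  have hEc : n ≤ E.card + 2 * t := by
    have h1 : (univ : Finset (Fin n)) ⊆ E ∪ (S ∪ I.image σ₀.symm) := by
      intro i _
      rw [mem_union, mem_union, hE, mem_filter]
      by_cases h1 : i ∈ S
      · exact Or.inr (Or.inl h1)
      · by_cases h2 : σ₀ i ∈ I
        · right
          right
          rw [mem_image]
          exact ⟨σ₀ i, h2, by simp⟩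
        · exact Or.inl ⟨mem_univ _, h1, h2⟩
    have h2 := card_le_card h1
    have h3 := card_union_le E (S ∪ I.image σ₀.symm)
    have h4 := card_union_le S (I.image σ₀.symm)
    rw [Finset.card_univ, Fintype.card_fin] at h2
    rw [Finset.card_image_of_injective _ σ₀.symm.injective] at h4
    omega
  obtain ⟨T', hT'E, hT'c⟩ := exists_subset_card_eq (s := E) (n := t - 1 - K.card) (by omega)
  have hTS : Disjoint S T' := by
    rw [disjoint_left]
    intro i hi hi'
    exact (mem_filter.mp (hT'E hi')).2.1 hi
  -- the extension
  obtain ⟨π, hπ⟩ := Pool.Agent.H52.ThreeStar.extend_perm (S ∪ E)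
    (fun i => if i ∈ S then π₀ i else σ₀ i) (by
      intro a ha b hb hab
      rw [mem_coe, mem_union] at ha hb
      simp only at hab
      by_cases ha' : a ∈ S <;> by_cases hb' : b ∈ S
      · rw [if_pos ha', if_pos hb'] at hab
        exact π₀.injective hab
      · rw [if_pos ha', if_neg hb'] at hab
        have hbE : b ∈ E := hb.resolve_left hb'
        exact absurd (by rw [← hab]; exact mem_image_of_mem _ ha') (mem_filter.mp hbE).2.2
      · rw [if_neg ha', if_pos hb'] at hab
        have haE : a ∈ E := ha.resolve_left ha'
        exact absurd (by rw [hab]; exact mem_image_of_mem _ hb') (mem_filter.mp haE).2.2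
      · rw [if_neg ha', if_neg hb'] at hab
        exact σ₀.injective hab)
  have hπS : ∀ i ∈ S, π i = π₀ i := by
    intro i hi
    rw [hπ i (mem_union_left _ hi)]
    simp [hi]
  have hπE : ∀ i ∈ E, π i = σ₀ i := by
    intro i hi
    have : i ∉ S := (mem_filter.mp hi).2.1
    rw [hπ i (mem_union_right _ hi)]
    simp [this]
  set D := (S ∪ T')ᶜ with hD
  have hDc : D.card = n - (t + (t - 1 - K.card)) := by
    rw [hD, card_compl, Fintype.card_fin, card_union_of_disjoint hTS, hSc, hT'c]
  have hcount := card_der D
  obtain ⟨m, hm⟩ : ∃ m, D.card = m + 2 := ⟨D.card - 2, by omega⟩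
  have hlow : (n - 2 * t)! ≤ numDerangements D.card := by
    rw [hm]
    refine le_trans ?_ (numDer_ge m)
    apply Nat.factorial_le
    omega
  refine hlow.trans ?_
  rw [← hcount]
  apply card_le_card_of_injOn (fun ρ => π * ρ)
  · intro ρ hρ
    simp only [coe_filter, mem_univ, true_and, Set.mem_ofPred_eq] at hρ
    have hfix : ∀ i, i ∉ D → ρ i = i := fun i hi => (hρ i).mp hi
    have hmov : ∀ i ∈ D, ρ i ≠ i := fun i hi hc => ((hρ i).mpr hc) hi
    rw [mem_coe, mem_filter, mem_st]
    constructor
    · intro q hq
      have hqS : q.1 ∈ S := mem_image_of_mem _ hq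
      have hqD : q.1 ∉ D := by
        rw [hD, mem_compl, not_not]
        exact mem_union_left _ hqS
      rw [mem_gr, Perm.mul_apply, hfix _ hqD, hπS _ hqS]
      exact mem_gr.mp (h hq)
    · have hag : (univ.filter fun i => σ₀ i = (π * ρ) i) = K ∪ T' := by
        ext i
        rw [mem_filter, mem_union, Perm.mul_apply]
        simp only [mem_univ, true_and]
        constructor
        · intro hi
          by_cases hiS : i ∈ S
          · left
            have hiD : i ∉ D := by
              rw [hD, mem_compl, not_not]
              exact mem_union_left _ hiS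
            rw [hfix i hiD, hπS i hiS] at hi
            exact mem_filter.mpr ⟨hiS, hi⟩
          · by_cases hiT : i ∈ T'
            · exact Or.inr hiT
            · exfalso
              have hiD : i ∈ D := by
                rw [hD, mem_compl, mem_union, not_or]
                exact ⟨hiS, hiT⟩
              by_cases hiE : i ∈ E
              · rw [← hπE i hiE] at hi
                exact hmov i hiD (π.injective hi).symm
              · rw [hE, mem_filter, not_and, not_and, not_not] at hiE
                have h1 := hiE (mem_univ _) hiS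
                rw [hI, mem_image] at h1
                obtain ⟨j, hj, hje⟩ := h1
                rw [← hje, ← hπS j hj] at hi
                have h2 : j = ρ i := π.injective hi
                have hjD : j ∉ D := by
                  rw [hD, mem_compl, not_not]
                  exact mem_union_left _ hj
                have h3 := hfix j hjD
                rw [h2] at h3
                have h4 : ρ i = i := ρ.injective h3
                exact hmov i hiD h4
        · rintro (hi | hi)
          · rw [hK, mem_filter] at hi
            have hiD : i ∉ D := by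
              rw [hD, mem_compl, not_not]
              exact mem_union_left _ hi.1
            rw [hfix i hiD, hπS i hi.1]
            exact hi.2
          · have hiD : i ∉ D := by
              rw [hD, mem_compl, not_not]
              exact mem_union_right _ hi
            rw [hfix i hiD, hπE i (hT'E hi)]
      have hdisK : Disjoint K T' := hTS.mono_left (filter_subset _ _)
      unfold agr
      rw [hag, card_union_of_disjoint hdisK, hT'c]
      omega
  · intro a _ b _ hab
    exact mul_left_cancel hab

end Pool.Agent.FI37
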