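import Pool.Agent.FI37.Cross
import Pool.Agent.FI37.Extract
import Pool.Agent.FI37.Layer
import Pool.Agent.FI37.NSigma

/-!
# Large `(t-1)`-avoiding families are stars, `n ≥ C t log n`
-/

namespace Pool.Agent.FI37

open Finset Equiv Nat Pool.Agent.H17.PermInt

variable {n : ℕ}

theorem num {t : ℕ} (ht : 1 ≤ t) (hn2 : 2 ≤ n) (hC : (10 : ℝ) ^ 14 * t * Real.log n ≤ n) :
    10 ^ 15 ≤ n ∧ (31 : ℝ) ≤ Real.log n := by
  have ht' : (1 : ℝ) ≤ t := by exact_mod_cast ht
  have hn2' : (2 : ℝ) ≤ n := by exact_mod_cast hn2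
  have hl2 : (0.69 : ℝ) ≤ Real.log n := by
    have h1 := Real.log_two_gt_d9
    have h2 : Real.log 2 ≤ Real.log n := Real.log_le_log (by norm_num) hn2'
    linarith
  have hmul : ∀ x : ℝ, x ≤ Real.log n → 0 ≤ x → (10 : ℝ) ^ 14 * x ≤ n := by
    intro x hx hx0
    refine le_trans ?_ hC
    have : x ≤ t * Real.log n := by nlinarith
    nlinarith
  have h1 := hmul _ hl2 (by norm_num)
  have h31 : (31 : ℝ) ≤ Real.log n := by
    rw [Real.le_log_iff_exp_le (by linarith)]
    refine le_trans ?_ h1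
    have he : Real.exp 31 = Real.exp 1 ^ 31 := by
      rw [← Real.exp_nat_mul]
      norm_num
    rw [he]
    have h3 : Real.exp 1 ≤ 2.7182818286 := Real.exp_one_lt_d9.le
    calc Real.exp 1 ^ 31 ≤ (2.7182818286 : ℝ) ^ 31 := by gcongr
      _ ≤ _ := by norm_num
  refine ⟨?_, h31⟩
  have h2 := hmul _ h31 (by norm_num)
  have h3 : ((10 : ℝ) ^ 15) ≤ n := by linarith
  exact_mod_cast h3

theorem fact_le_pow (t : ℕ) (ht : t ≤ n) : (n ! : ℝ) ≤ (n : ℝ) ^ t * ((n - t)! : ℝ) := by
  have h1 := Nat.factorial_mul_descFactorial ht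
  have h2 := Nat.descFactorial_le_pow n t
  have h3 : n ! ≤ n ^ t * (n - t)! := by
    rw [← h1, mul_comm]
    exact Nat.mul_le_mul_right _ h2
  exact_mod_cast h3

theorem mainStar {t : ℕ} (ht : 1 ≤ t) (hn2 : 2 ≤ n)
    (hC : (10 : ℝ) ^ 14 * t * Real.log n ≤ n) (F : Finset (Perm (Fin n)))
    (hF : IsAvoiding t F) (hcard : (n - t)! ≤ F.card) :
    ∃ X₀ : Finset (Fin n × Fin n), X₀.card = t ∧ F = st X₀ := by
  classical
  obtain ⟨hn, h31⟩ := num ht hn2 hC
  have ht' : (1 : ℝ) ≤ t := by exact_mod_cast ht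
  have hn' : (10 : ℝ) ^ 15 ≤ n := by exact_mod_cast hn
  set L : ℝ := t * Real.log n with hL
  have hLn : 10 ^ 14 * L ≤ n := by rw [hL]; linarith
  have htL : (t : ℝ) * 31 ≤ L := by rw [hL]; nlinarith
  have hL31 : 31 ≤ L := by nlinarith
  have hexpL : Real.exp L = (n : ℝ) ^ t := by
    rw [hL, Real.exp_nat_mul, Real.exp_log (by linarith)]
  have hlog10 : Real.log 10 ≤ 3 := by
    have h1 : Real.log 10 = Real.log 2 + Real.log 5 := by
      rw [← Real.log_mul (by norm_num) (by norm_num)]; norm_num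
    have h2 : Real.log 5 ≤ Real.log 8 := Real.log_le_log (by norm_num) (by norm_num)
    have h3 : Real.log 8 = 3 * Real.log 2 := by
      rw [show (8 : ℝ) = 2 ^ 3 by norm_num, Real.log_pow]; norm_num
    have h4 := Real.log_two_lt_d9
    linarith
  have hlog10' : 0 ≤ Real.log 10 := Real.log_nonneg (by norm_num)
  -- naturals
  have htn : 1000 * t ≤ n := by
    have : (1000 : ℝ) * t ≤ n := by nlinarith
    exact_mod_cast this
  have hf : (0 : ℝ) < ((n - t)! : ℝ) := by positivity
  -- no agreement `t - 1` inside `F`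
  have hno : ∀ σ ∈ F, ∀ τ ∈ F, agr σ τ ≠ t - 1 := by
    intro σ hσ τ hτ h
    by_cases hst : σ = τ
    · subst hst
      rw [agr_self] at h
      omega
    · exact hF σ hσ τ hτ hst h
  have hm : ((t - 1 : ℕ) : ℝ) ≤ t := by exact_mod_cast Nat.sub_le t 1
  -- pieces
  obtain ⟨P, hP, hrest⟩ := extract F (L + Real.log 10) (((n - t)! : ℝ) / 10) (by nlinarith) (by
    rw [Real.exp_add, hexpL, Real.exp_log (by norm_num)]
    have := fact_le_pow (n := n) t (by omega)
    calc (n ! : ℝ) ≤ _ := this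
      _ = _ := by ring)
  have hint : ∀ X ∈ P, ∀ Y ∈ P, t ≤ (X ∩ Y).card := by
    intro X hX Y hY
    by_contra hlt
    push Not at hlt
    obtain ⟨A1, hA1, hS1, hp1, hD1⟩ := hP X hX
    obtain ⟨A2, hA2, hS2, hp2, hD2⟩ := hP Y hY
    obtain ⟨σ, hσ, τ, hτ, h⟩ := cross_init hn hS1 hS2 hp1 hp2 hD1 hD2 (t - 1) (by omega)
      (by linarith) (by linarith)
    exact hno σ (hA1 hσ) τ (hA2 hτ) h
  have hd0 : 0 ≤ L + Real.log 10 := by linarith
  have hsz : ∀ X ∈ P, X.card ≤ t + (⌊L + Real.log 10⌋₊ - t) := by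
    intro X hX
    obtain ⟨A1, hA1, hS1, hp1, hD1⟩ := hP X hX
    have h1 := hD1.card_le hS1
    have h2 : X.card ≤ ⌊L + Real.log 10⌋₊ := Nat.le_floor h1
    omega
  have htfl : t ≤ ⌊L + Real.log 10⌋₊ := Nat.le_floor (by nlinarith)
  obtain ⟨X₀, hX₀, hlay⟩ := layer t (⌊L + Real.log 10⌋₊ - t) ht (by
    rw [Nat.add_sub_cancel' htfl]
    have h1 : ((⌊L + Real.log 10⌋₊ : ℕ) : ℝ) ≤ L + Real.log 10 := Nat.floor_le hd0
    have h2 : (220 : ℝ) * ((⌊L + Real.log 10⌋₊ : ℕ) : ℝ) ≤ n := by nlinarith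
    exact_mod_cast h2) P hint hsz
  refine ⟨X₀, hX₀, ?_⟩
  set A₀ := F.filter fun σ => X₀ ⊆ gr σ with hA₀
  set G := F.filter fun σ => ¬ X₀ ⊆ gr σ with hG
  have hsplit : A₀.card + G.card = F.card := card_filter_add_card_filter_not _
  have hGle : (G.card : ℝ) ≤ ((n - t)! : ℝ) / 5 := by
    have h1 : G.card ≤ (F.filter fun σ => ∀ Y ∈ P, ¬ Y ⊆ gr σ).card +
        ((univ : Finset (Perm (Fin n))).filter fun σ => (∃ X ∈ P, X ⊆ gr σ) ∧
        ¬ X₀ ⊆ gr σ).card := by
      refine (card_le_card ?_).trans (card_union_le _ _)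
      intro σ hσ
      rw [hG, mem_filter] at hσ
      rw [mem_union, mem_filter, mem_filter]
      by_cases hc : ∃ X ∈ P, X ⊆ gr σ
      · exact Or.inr ⟨mem_univ _, hc, hσ.2⟩
      · push Not at hc
        exact Or.inl ⟨hσ.1, hc⟩
    have h2 : (10 : ℝ) * (((univ : Finset (Perm (Fin n))).filter fun σ => (∃ X ∈ P, X ⊆ gr σ) ∧
        ¬ X₀ ⊆ gr σ).card : ℝ) ≤ ((n - t)! : ℝ) := by exact_mod_cast hlay
    have h3 : (G.card : ℝ) ≤ ((F.filter fun σ => ∀ Y ∈ P, ¬ Y ⊆ gr σ).card : ℝ) +
        (((univ : Finset (Perm (Fin n))).filter fun σ => (∃ X ∈ P, X ⊆ gr σ) ∧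
        ¬ X₀ ⊆ gr σ).card : ℝ) := by exact_mod_cast h1
    linarith
  have hcard' : ((n - t)! : ℝ) ≤ F.card := by exact_mod_cast hcard
  have hsplit' : (A₀.card : ℝ) + G.card = F.card := by exact_mod_cast hsplit
  have hA₀ge : (4 / 5 : ℝ) * ((n - t)! : ℝ) ≤ A₀.card := by linarith
  have hA₀F : A₀ ⊆ F := filter_subset _ _
  have hGF : G ⊆ F := filter_subset _ _
  have hA₀st : InSt X₀ A₀ := fun σ hσ => (mem_filter.mp hσ).2
  have hstar : (st X₀).card ≤ (n - t)! := by
    have := card_st_le X₀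
    rwa [hX₀] at this
  rcases G.eq_empty_or_nonempty with hGe | ⟨σ₀, hσ₀⟩
  · -- `F` is inside the star
    have hFst : F ⊆ st X₀ := by
      intro σ hσ
      rw [mem_st]
      by_contra hc
      have : σ ∈ G := mem_filter.mpr ⟨hσ, hc⟩
      rw [hGe] at this
      simp at this
    exact eq_of_subset_of_card_le hFst (hstar.trans hcard)
  · exfalso
    have hσ₀' := (mem_filter.mp hσ₀)
    obtain ⟨π₀, hπ₀⟩ : A₀.Nonempty := by
      rw [← Finset.card_pos]
      have : (0 : ℝ) < A₀.card := by linarith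
      exact_mod_cast this
    have hns := nSigma t ht (by omega) X₀ hX₀ π₀ (hA₀st π₀ hπ₀) σ₀ hσ₀'.2
    have hdis : Disjoint A₀ ((st X₀).filter fun τ => agr σ₀ τ = t - 1) := by
      rw [disjoint_left]
      intro τ hτ hτ'
      exact hno σ₀ hσ₀'.1 τ (hA₀F hτ) (mem_filter.mp hτ').2
    have hle : A₀.card + ((st X₀).filter fun τ => agr σ₀ τ = t - 1).card ≤ (n - t)! := by
      rw [← card_union_of_disjoint hdis]
      refine (card_le_card ?_).trans hstar
      exact union_subset hA₀st.subset (filter_subset _ _)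
    have hGbig : (n - 2 * t)! ≤ G.card := by omega
    have hGbig' : ((n - 2 * t)! : ℝ) ≤ G.card := by exact_mod_cast hGbig
    have hDG : Den (2 * L) ∅ G := by
      unfold Den
      rw [card_empty, Nat.cast_zero, Real.exp_zero, mul_one, Nat.sub_zero]
      have h1 := fact_le_pow (n := n) (2 * t) (by omega)
      have h2 : Real.exp (2 * L) = (n : ℝ) ^ (2 * t) := by
        rw [mul_comm 2 t, pow_mul, ← hexpL, ← Real.exp_nat_mul]
        norm_num
      rw [h2]
      calc _ ≤ _ := h1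
        _ ≤ _ := by gcongr
    obtain ⟨Y', A', -, hA'G, hS', hp', hD'⟩ := reg (Y := ∅) (A := G) (d := 2 * L)
      (fun σ _ => empty_subset _) hDG (by nlinarith)
    have hDA₀ : Den (t + 1) X₀ A₀ := by
      unfold Den
      rw [hX₀, Real.exp_add]
      have h1 : (2.7 : ℝ) ≤ Real.exp 1 := by have := Real.exp_one_gt_d9; linarith
      have h2 : (0 : ℝ) < Real.exp t := Real.exp_pos _
      calc ((n - t)! : ℝ) * Real.exp t ≤ (Real.exp t * 2.7) * (4 / 5 * ((n - t)! : ℝ)) := by
            nlinarith [mul_pos h2 hf]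
        _ ≤ (Real.exp t * Real.exp 1) * A₀.card := by gcongr
    have hpA₀ : Spr 6 X₀ A₀ := by
      intro q hq
      have h1 : (lk A₀ q).card ≤ (n - t - 1)! := by
        have h2 := card_le_card (inSt_insert_lk hA₀st q).subset
        have h3 := card_st_le (insert q X₀)
        rw [card_insert_of_notMem hq, hX₀] at h3
        exact h2.trans h3
      have h2 : (n - t)! = (n - t) * (n - t - 1)! := by
        rw [Nat.mul_factorial_pred (by omega)]
      have h3 : (n : ℝ) ≤ (24 / 5 : ℝ) * ((n - t : ℕ) : ℝ) := by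
        have h4 : n * 5 ≤ 24 * (n - t) := by omega
        have h5 : (n : ℝ) * 5 ≤ 24 * ((n - t : ℕ) : ℝ) := by exact_mod_cast h4
        linarith
      have h6 : ((n : ℝ)) * ((lk A₀ q).card : ℝ) ≤ 6 * (A₀.card : ℝ) := by
        calc (n : ℝ) * ((lk A₀ q).card : ℝ) ≤ (24 / 5 : ℝ) * ((n - t : ℕ) : ℝ) *
              ((n - t - 1)! : ℝ) := by
              gcongr
          _ = 6 * (4 / 5 * ((n - t)! : ℝ)) := by
              rw [h2]
              push_cast
              ring
          _ ≤ _ := by gcongr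
      exact_mod_cast h6
    have hXY : (X₀ ∩ Y').card ≤ t - 1 := by
      by_contra hc
      push Not at hc
      have h1 : X₀ ∩ Y' = X₀ := by
        apply eq_of_subset_of_card_le inter_subset_left
        rw [hX₀]
        omega
      obtain ⟨σ, hσ⟩ := hD'.nonempty
      have h2 : X₀ ⊆ gr σ := by
        rw [← h1]
        exact inter_subset_right.trans (hS' σ hσ)
      exact (mem_filter.mp (hA'G hσ)).2 h2
    obtain ⟨σ, hσ, τ, hτ, h⟩ := cross_init hn hA₀st hS' hpA₀ hp' hDA₀ hD' (t - 1) hXY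
      (by nlinarith) (by nlinarith)
    exact hno σ (hA₀F hσ) τ (hGF (hA'G hτ)) h

theorem st_intersecting {t : ℕ} {X₀ : Finset (Fin n × Fin n)} (h : X₀.card = t) :
    IsIntersecting t (st X₀) := by
  intro σ hσ τ hτ
  rw [mem_st] at hσ hτ
  rw [← card_gr_inter, ← h]
  exact card_le_card (subset_inter hσ hτ)

/-- The main theorem. -/
theorem main {t : ℕ} (ht : 1 ≤ t) (hn2 : 2 ≤ n) (hC : (10 : ℝ) ^ 14 * t * Real.log n ≤ n) :
    Coincide n t ∧ ∀ F : Finset (Perm (Fin n)), IsLargest (IsAvoiding t) F ↔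
      ∃ (S : Finset (Fin n)) (π : Perm (Fin n)), S.card = t ∧
        F = univ.filter fun σ => ∀ i ∈ S, σ i = π i := by
  classical
  obtain ⟨hn, h31⟩ := num ht hn2 hC
  have htn : t ≤ n := by
    have ht' : (1 : ℝ) ≤ t := by exact_mod_cast ht
    have : (t : ℝ) ≤ n := by nlinarith
    exact_mod_cast this
  obtain ⟨F₁, hF₁, hF₁c⟩ := star_exists (n := n) htn
  -- stars of partial permutations of size `t`
  have hst : ∀ F : Finset (Perm (Fin n)), IsAvoiding t F → (n - t)! ≤ F.card →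
      F.card = (n - t)! ∧ IsIntersecting t F ∧
      ∃ (S : Finset (Fin n)) (π : Perm (Fin n)), S.card = t ∧
        F = univ.filter fun σ => ∀ i ∈ S, σ i = π i := by
    intro F hF hc
    obtain ⟨X₀, hX₀, rfl⟩ := mainStar ht hn2 hC F hF hc
    have hle := card_st_le X₀
    rw [hX₀] at hle
    obtain ⟨π, hπ⟩ : (st X₀).Nonempty := by
      rw [← Finset.card_pos]
      exact lt_of_lt_of_le (Nat.factorial_pos _) hc
    rw [mem_st] at hπ
    refine ⟨le_antisymm hle hc, st_intersecting hX₀, X₀.image Prod.fst, π, ?_, ?_⟩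
    · rw [card_fst hπ, hX₀]
    · ext σ
      simp only [mem_st, mem_filter, mem_univ, true_and, mem_image, Prod.exists, exists_and_right,
        exists_eq_right, forall_exists_index]
      constructor
      · intro h i j hij
        rw [mem_gr.mp (h hij), mem_gr.mp (hπ hij)]
      · rintro h ⟨i, j⟩ hij
        rw [mem_gr]
        have := h i j hij
        rw [this]
        exact mem_gr.mp (hπ hij)
  have hav : ∀ F : Finset (Perm (Fin n)), IsAvoiding t F → F.card ≤ (n - t)! := by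
    intro F hF
    by_contra hlt
    push Not at hlt
    have := (hst F hF hlt.le).1
    omega
  constructor
  · intro F
    constructor
    · rintro ⟨hF, hmax⟩
      have h1 : (n - t)! ≤ F.card := by
        rw [← hF₁c]
        exact hmax F₁ (hF₁.avoiding ht)
      obtain ⟨h2, h3, -⟩ := hst F hF h1
      exact ⟨h3, fun G hG => by rw [h2]; exact hav G (hG.avoiding ht)⟩
    · rintro ⟨hF, hmax⟩
      have h1 : (n - t)! ≤ F.card := by
        rw [← hF₁c]
        exact hmax F₁ hF₁
      exact ⟨hF.avoiding ht, fun G hG => (hav G hG).trans h1⟩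
  · intro F
    constructor
    · rintro ⟨hF, hmax⟩
      have h1 : (n - t)! ≤ F.card := by
        rw [← hF₁c]
        exact hmax F₁ (hF₁.avoiding ht)
      exact (hst F hF h1).2.2
    · rintro ⟨S, π, hS, rfl⟩
      have hc : (univ.filter fun σ : Perm (Fin n) => ∀ i ∈ S, σ i = π i) =
          st (S.image fun i => (i, π i)) := by
        ext σ
        simp only [mem_st, mem_filter, mem_univ, true_and, image_subset_iff, mem_gr]
      have hX : (S.image fun i => (i, π i)).card = t := by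
        rw [Finset.card_image_of_injective _ (fun a b h => (Prod.mk.inj h).1), hS]
      have hcard : (st (S.image fun i => (i, π i))).card = (n - t)! := by
        rw [← hX]
        apply card_st (σ₀ := π)
        intro q hq
        rw [mem_image] at hq
        obtain ⟨i, -, rfl⟩ := hq
        rw [mem_gr]
      rw [hc]
      refine ⟨(st_intersecting hX).avoiding ht, fun G hG => ?_⟩
      rw [hcard]
      exact hav G hG

end Pool.Agent.FI37
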