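import Pool.Agent.FI37.Defs

/-!
# Phase 1: choice of one value

PROOF. Let `N = n - |T|`, `J` = the set of `j` not in `T.image Prod.snd`; `|J| = N` (`card_snd` with a
member of `A`). Every `σ ∈ A` has `σ i ∈ J` (`i` is not a row of `T`, `T ⊆ gr σ`), so
`Σ_{j ∈ J} |lk A (i,j)| = |A|`. Let `β j = |lk B (i,j)|/|B| ≤ 1/(2 lam)` (if `lam = 0` everything is
easier but the same), `Σ_j β j ≤ 1`, `|{τ ∈ B : (i,j) ∉ gr τ}| = |B| (1 - β j)`. Suppose all `j` fail:
`|lk A (i,j)| (1 - β j)^lam (N + 2 lam) < |A|`. By Bernoulli (`one_add_mul_le_pow`)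
`(1 - β)^lam ≥ 1 - lam β ≥ 1/2 > 0` and `1/(1 - x) ≤ 1 + 2 x` for `0 ≤ x ≤ 1/2`, i.e.
`(1 - lam β)(1 + 2 lam β) ≥ 1`. So `|lk A (i,j)| (N + 2 lam) < |A| (1 + 2 lam β j)`. Sum over `j ∈ J`
(nonempty): `|A| (N + 2 lam) < |A| (N + 2 lam Σ β j) ≤ |A| (N + 2 lam)`, contradiction.
-/

namespace Pool.Agent.FI37

open Finset Equiv Nat Pool.Agent.H17.PermInt

variable {n : ℕ}

theorem ph1Step (A B : Finset (Perm (Fin n))) (T : Finset (Fin n × Fin n)) (lam : ℕ) (i : Fin n)
    (hA : A.Nonempty) (hB : B.Nonempty) (hS : InSt T A) (hi : ∀ q ∈ T, q.1 ≠ i)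
    (hlk : ∀ j, 2 * lam * (lk B (i, j)).card ≤ B.card) :
    ∃ j, (A.card : ℝ) * (B.card : ℝ) ^ lam ≤
      ((lk A (i, j)).card : ℝ) * ((B.filter fun τ => (i, j) ∉ gr τ).card : ℝ) ^ lam *
        (((n - T.card : ℕ) : ℝ) + 2 * lam) := by
  classical
  by_contra hcon
  push Not at hcon
  obtain ⟨σ₀, hσ₀⟩ := hA
  have hTσ : ∀ σ ∈ A, T ⊆ gr σ := hS
  set J : Finset (Fin n) := (univ : Finset (Fin n)) \ T.image Prod.snd with hJ
  have hJc : J.card = n - T.card := by
    rw [hJ, card_univ_diff, card_snd (hTσ σ₀ hσ₀), Fintype.card_fin]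
  have hJσ : ∀ σ ∈ A, σ i ∈ J := by
    intro σ hσ
    rw [hJ, mem_sdiff]
    refine ⟨mem_univ _, ?_⟩
    intro h
    rw [mem_image] at h
    obtain ⟨q, hq, hq2⟩ := h
    have h1 := mem_gr.1 (hTσ σ hσ hq)
    have h2 : q.1 = i := σ.injective (by rw [h1, hq2])
    exact hi q hq h2
  have hfib : ∀ (F : Finset (Perm (Fin n))) (j : Fin n),
      lk F (i, j) = F.filter fun σ => σ i = j := by
    intro F j
    ext σ
    rw [mem_lk, mem_filter, mem_gr]
  have hsumA : ∑ j ∈ J, ((lk A (i, j)).card : ℝ) = A.card := by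
    have h := card_eq_sum_card_fiberwise (f := fun σ : Perm (Fin n) => σ i) (s := A) (t := J)
      (fun σ hσ => hJσ σ hσ)
    rw [h]
    push_cast
    refine sum_congr rfl fun j _ => ?_
    rw [hfib]
  have hsumB : ∑ j ∈ J, ((lk B (i, j)).card : ℝ) ≤ B.card := by
    have h := card_eq_sum_card_fiberwise (f := fun σ : Perm (Fin n) => σ i) (s := B)
      (t := (univ : Finset (Fin n))) (fun σ _ => mem_coe.2 (mem_univ _))
    rw [h]
    push_cast
    calc ∑ j ∈ J, ((lk B (i, j)).card : ℝ) ≤ ∑ j ∈ univ, ((lk B (i, j)).card : ℝ) := by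
          apply sum_le_sum_of_subset_of_nonneg (subset_univ _)
          intro j _ _
          positivity
      _ = _ := by
          refine sum_congr rfl fun j _ => ?_
          rw [hfib]
  have hBpos : (0 : ℝ) < B.card := by exact_mod_cast Finset.card_pos.2 hB
  have hApos : (0 : ℝ) < A.card := by exact_mod_cast Finset.card_pos.2 ⟨σ₀, hσ₀⟩
  have hJne : J.Nonempty := ⟨σ₀ i, hJσ σ₀ hσ₀⟩
  have hpt : ∀ j ∈ J, ((lk A (i, j)).card : ℝ) * (((n - T.card : ℕ) : ℝ) + 2 * lam) <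
      (A.card : ℝ) * (1 + 2 * lam * (((lk B (i, j)).card : ℝ) / B.card)) := by
    intro j _
    have hc := hcon j
    have hcc : ((B.filter fun τ => (i, j) ∉ gr τ).card : ℝ) =
        B.card * (1 - ((lk B (i, j)).card : ℝ) / B.card) := by
      have h1 := card_filter_add_card_filter_not (s := B) (fun τ => (i, j) ∈ gr τ)
      have h2 : ((lk B (i, j)).card : ℝ) + ((B.filter fun τ => (i, j) ∉ gr τ).card : ℝ)
          = B.card := by
        rw [← h1]
        push_cast
        rfl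
      field_simp
      linarith
    have hb : (lam : ℝ) * (((lk B (i, j)).card : ℝ) / B.card) ≤ 1 / 2 := by
      have h1 : (2 : ℝ) * lam * ((lk B (i, j)).card : ℝ) ≤ B.card := by exact_mod_cast hlk j
      rw [← mul_div_assoc, div_le_iff₀ hBpos]
      linarith
    have hb0 : (0 : ℝ) ≤ ((lk B (i, j)).card : ℝ) / B.card := by positivity
    have hb1 : ((lk B (i, j)).card : ℝ) / B.card ≤ 1 := by
      rw [div_le_one hBpos]
      exact_mod_cast card_le_card (lk_subset B (i, j))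
    set β : ℝ := ((lk B (i, j)).card : ℝ) / B.card with hβ
    set a : ℝ := ((lk A (i, j)).card : ℝ) with ha
    have ha0 : 0 ≤ a := by positivity
    have hN0 : (0 : ℝ) ≤ ((n - T.card : ℕ) : ℝ) + 2 * lam := by positivity
    set M : ℝ := ((n - T.card : ℕ) : ℝ) + 2 * lam with hM
    rw [hcc, mul_pow] at hc
    have hbern : 1 - lam * β ≤ (1 - β) ^ lam := by
      have := one_add_mul_le_pow (show (-2 : ℝ) ≤ -β by linarith) lam
      have e1 : 1 + (lam : ℝ) * -β = 1 - lam * β := by ring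
      have e2 : (1 + -β) ^ lam = (1 - β) ^ lam := by rw [← sub_eq_add_neg]
      rw [e1, e2] at this
      exact this
    have hBp : (0 : ℝ) < (B.card : ℝ) ^ lam := by positivity
    have h3 : a * M * (1 - lam * β) < A.card := by
      have h4 : a * M * (1 - lam * β) * (B.card : ℝ) ^ lam < A.card * (B.card : ℝ) ^ lam := by
        calc a * M * (1 - lam * β) * (B.card : ℝ) ^ lam
            ≤ a * M * (1 - β) ^ lam * (B.card : ℝ) ^ lam := by gcongr
          _ = a * ((B.card : ℝ) ^ lam * (1 - β) ^ lam) * M := by ring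
          _ < A.card * (B.card : ℝ) ^ lam := hc
      exact lt_of_mul_lt_mul_right h4 hBp.le
    have hu0 : 0 ≤ (lam : ℝ) * β := by positivity
    have h5 : 1 ≤ (1 - lam * β) * (1 + 2 * lam * β) := by nlinarith
    have h6 : (0 : ℝ) < 1 + 2 * lam * β := by nlinarith
    calc a * M = a * M * 1 := by ring
      _ ≤ a * M * ((1 - lam * β) * (1 + 2 * lam * β)) := by gcongr
      _ = a * M * (1 - lam * β) * (1 + 2 * lam * β) := by ring
      _ < A.card * (1 + 2 * lam * β) := by gcongr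
  have hsum := sum_lt_sum_of_nonempty hJne hpt
  rw [← sum_mul, hsumA, ← mul_sum, sum_add_distrib, ← mul_sum, sum_const, hJc] at hsum
  have h7 : ∑ j ∈ J, ((lk B (i, j)).card : ℝ) / B.card ≤ 1 := by
    rw [← sum_div, div_le_one hBpos]
    exact hsumB
  have h8 : ((n - T.card : ℕ) : ℝ) + 2 * lam <
      (n - T.card) • (1 : ℝ) + 2 * lam * ∑ j ∈ J, ((lk B (i, j)).card : ℝ) / B.card :=
    lt_of_mul_lt_mul_left hsum hApos.le
  rw [nsmul_eq_mul, mul_one] at h8
  have h9 : 2 * (lam : ℝ) * ∑ j ∈ J, ((lk B (i, j)).card : ℝ) / B.card ≤ 2 * lam * 1 := by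
    gcongr
  linarith

end Pool.Agent.FI37
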