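import Pool.Agent.FI37.Ph1Step

/-!
# Phase 1

PROOF. `lam = n / 10^10` (floor), `n₀ = n - |YA|`. By induction on subsets `Q' ⊆ Q`
(`Finset.induction_on`) prove: there is `s` with `s.image Prod.fst = Q'`, `s.card = Q'.card`,
`Disjoint YA s` (automatic: rows of `s` are not rows of `YA`), and with `A_s = {σ ∈ A : s ⊆ gr σ}`,
`B_s = {τ ∈ B : Disjoint (gr τ) s}`, `n_s = n₀ - |s|`:
`|A| |B|^lam (n_s! (n_s + 1)^{2 lam}) ≤ |A_s| |B_s|^lam (n₀! (n₀+1)^{2 lam})`  (*)
(so `A_s`, `B_s` are nonempty).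
From (*): `|A_s| ≤ n_s!` (`A_s ⊆ st (YA ∪ s)`, `|YA ∪ s| = |YA| + |s|`) and `n₀! ≤ e^a |A|`
(`Den.le_card`), so `|B|^lam (n_s+1)^{2 lam} ≤ e^a |B_s|^lam (n₀+1)^{2 lam}`. As `n_s ≥ n/1000` (floor)
`(n₀+1)/(n_s+1) ≤ (n+1)/(n/1000) ≤ 1001`; `a ≤ n/10^13 ≤ (lam+1)/1000`, `e^{a} ≤ 1.01^lam · (something)`;
take `lam`-th roots in the form: if `|B| > 10^7 |B_s|` then `10^{7 lam} |B_s|^lam < |B|^lam ≤
e^a 1001^{2 lam} |B_s|^lam`, so `(10^7/1001²)^lam < e^a`, but `10^7/1001² ≥ 9.9 ≥ e` and `lam > a`.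
Contradiction. So `|B| ≤ 10^7 |B_s|` for every `s` with (*) and `|s| ≤ |Q|`.
Step: `Q'' = insert i Q'`. `ph1Step` for `A_s`, `B_s`, `T = YA ∪ s`: `hlk`: `|lk B_s (i,j)| ≤
|lk B (i,j)| ≤ 8|B|/n ≤ 8 · 10^7 |B_s|/n` (`(i,j) ∉ YB` since the row `i` is free), and
`2 lam · 8 · 10^7 ≤ n` . New `s' = insert (i,j) s`, `A_{s'} = lk A_s (i,j)`,
`B_{s'} = {τ ∈ B_s : (i,j) ∉ gr τ}`, `n_{s'} = n_s - 1` (`n_s ≥ 1` since `n_s ≥ |Q| - |Q'| + n/1000`...).
(*) for `s'` follows from (*) for `s`, the inequality of `ph1Step` with `N = n_s` and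
`(n_s - 1)! n_s^{2 lam} (n_s + 2 lam) ≤ n_s! (n_s+1)^{2 lam}`, i.e.
`n_s^{2 lam}(n_s + 2 lam) ≤ n_s (n_s+1)^{2 lam}` (Bernoulli `(1 + 1/n_s)^{2 lam} ≥ 1 + 2 lam/n_s`).
End (`Q' = Q`): by (*) and `|B_s| ≤ |B|`: `|A| n_s! (n_s+1)^{2 lam} ≤ |A_s| n₀! (n₀+1)^{2 lam}
≤ |A_s| e^a |A| (n₀+1)^{2 lam}`, so `n_s! ≤ e^a 1001^{2 lam} |A_s| ≤ e^{a + 14 lam} |A_s|`
(`1001 ≤ e^7 ≈ 1096.6`) and `a + 14 lam ≤ n/10^13 + 14 n/10^10 ≤ 2 n/10^9`.
-/

namespace Pool.Agent.FI37

open Finset Equiv Nat Pool.Agent.H17.PermInt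

variable {n : ℕ}

/-- the inequality kept by the process -/
private def Inv (lam : ℕ) (YA : Finset (Fin n × Fin n)) (A B : Finset (Perm (Fin n)))
    (s : Finset (Fin n × Fin n)) : Prop :=
  (A.card : ℝ) * (B.card : ℝ) ^ lam * (((n - YA.card - s.card)! : ℝ) *
    (((n - YA.card - s.card : ℕ) : ℝ) + 1) ^ (2 * lam)) ≤
  ((A.filter fun σ => s ⊆ gr σ).card : ℝ) *
    ((B.filter fun τ => Disjoint (gr τ) s).card : ℝ) ^ lam *
    (((n - YA.card)! : ℝ) * (((n - YA.card : ℕ) : ℝ) + 1) ^ (2 * lam))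

private theorem bernoulli {N : ℝ} (hN : 0 < N) (k : ℕ) :
    N ^ k * (N + k) ≤ N * (N + 1) ^ k := by
  have h1 := one_add_mul_le_pow (a := 1 / N) (by
    have : 0 ≤ 1 / N := by positivity
    linarith) k
  have h2 : N ^ k * (1 + (k : ℝ) * (1 / N)) ≤ N ^ k * (1 + 1 / N) ^ k := by gcongr
  rw [← mul_pow] at h2
  have e1 : N * (1 + 1 / N) = N + 1 := by field_simp
  rw [e1] at h2
  have h3 : N * (N ^ k * (1 + (k : ℝ) * (1 / N))) ≤ N * (N + 1) ^ k := by gcongr
  have e2 : N * (N ^ k * (1 + (k : ℝ) * (1 / N))) = N ^ k * (N + k) := by field_simp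
  rwa [e2] at h3

/-- cancellation in `Inv` -/
private theorem Inv.cancel {lam : ℕ} {a : ℝ} {YA s : Finset (Fin n × Fin n)}
    {A B : Finset (Perm (Fin n))} (hI : Inv lam YA A B s)
    (hA : (0 : ℝ) < A.card) (hn0 : ((n - YA.card)! : ℝ) ≤ Real.exp a * A.card)
    (hs : n / 1000 ≤ n - YA.card - s.card) :
    (B.card : ℝ) ^ lam * ((n - YA.card - s.card)! : ℝ) ≤
      ((A.filter fun σ => s ⊆ gr σ).card : ℝ) *
      ((B.filter fun τ => Disjoint (gr τ) s).card : ℝ) ^ lam * Real.exp a * 1001 ^ (2 * lam) := by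
  unfold Inv at hI
  set N : ℕ := n - YA.card - s.card with hN
  have h1 : ((n - YA.card : ℕ) : ℝ) + 1 ≤ 1001 * ((N : ℝ) + 1) := by
    have h2 : (n - YA.card) + 1 ≤ 1001 * (N + 1) := by omega
    exact_mod_cast h2
  have h2 : (((n - YA.card : ℕ) : ℝ) + 1) ^ (2 * lam) ≤ (1001 * ((N : ℝ) + 1)) ^ (2 * lam) := by
    gcongr
  have hp : (0 : ℝ) < ((N : ℝ) + 1) ^ (2 * lam) := by positivity
  have h3 : (A.card : ℝ) * (B.card : ℝ) ^ lam * ((N ! : ℝ) * ((N : ℝ) + 1) ^ (2 * lam)) ≤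
      ((A.filter fun σ => s ⊆ gr σ).card : ℝ) *
      ((B.filter fun τ => Disjoint (gr τ) s).card : ℝ) ^ lam *
      ((Real.exp a * A.card) * (1001 * ((N : ℝ) + 1)) ^ (2 * lam)) := by
    refine hI.trans ?_
    gcongr
  rw [mul_pow (1001 : ℝ)] at h3
  have e1 : (A.card : ℝ) * (B.card : ℝ) ^ lam * ((N ! : ℝ) * ((N : ℝ) + 1) ^ (2 * lam)) =
      ((A.card : ℝ) * ((N : ℝ) + 1) ^ (2 * lam)) * ((B.card : ℝ) ^ lam * (N ! : ℝ)) := by ring
  have e2 : ((A.filter fun σ => s ⊆ gr σ).card : ℝ) *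
      ((B.filter fun τ => Disjoint (gr τ) s).card : ℝ) ^ lam *
      ((Real.exp a * A.card) * (1001 ^ (2 * lam) * ((N : ℝ) + 1) ^ (2 * lam))) =
      ((A.card : ℝ) * ((N : ℝ) + 1) ^ (2 * lam)) *
      (((A.filter fun σ => s ⊆ gr σ).card : ℝ) *
      ((B.filter fun τ => Disjoint (gr τ) s).card : ℝ) ^ lam * Real.exp a *
        1001 ^ (2 * lam)) := by ring
  rw [e1, e2] at h3
  exact le_of_mul_le_mul_left h3 (by positivity)

/-- the family `B` does not lose much -/
private theorem Inv.bound (hn : 10 ^ 15 ≤ n) {a : ℝ} {YA s : Finset (Fin n × Fin n)}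
    {A B : Finset (Perm (Fin n))} (hI : Inv (n / 10 ^ 10) YA A B s)
    (hA : (0 : ℝ) < A.card) (hn0 : ((n - YA.card)! : ℝ) ≤ Real.exp a * A.card)
    (hs : n / 1000 ≤ n - YA.card - s.card) (ha : a ≤ (n : ℝ) / 10 ^ 13) (hst : InSt YA A)
    (hd : Disjoint YA s) :
    B.card ≤ 10 ^ 7 * (B.filter fun τ => Disjoint (gr τ) s).card := by
  by_contra hcon
  push Not at hcon
  have h1 := hI.cancel hA hn0 hs
  set lam : ℕ := n / 10 ^ 10 with hlam
  have hlam1 : 1 ≤ lam := by omega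
  set N : ℕ := n - YA.card - s.card with hN
  have hAs : ((A.filter fun σ => s ⊆ gr σ).card : ℝ) ≤ (N ! : ℝ) := by
    have h2 : (A.filter fun σ => s ⊆ gr σ) ⊆ st (YA ∪ s) := by
      intro σ hσ
      rw [mem_filter] at hσ
      exact mem_st.2 (union_subset (hst σ hσ.1) hσ.2)
    have h3 := (card_le_card h2).trans (card_st_le _)
    rw [card_union_of_disjoint hd, ← Nat.sub_sub] at h3
    exact_mod_cast h3
  set b' : ℝ := ((B.filter fun τ => Disjoint (gr τ) s).card : ℝ) with hb'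
  have hb'0 : 0 ≤ b' := by positivity
  have hbb : (10 : ℝ) ^ 7 * b' < (B.card : ℝ) := by
    rw [hb']
    exact_mod_cast hcon
  have hNf : (0 : ℝ) < (N ! : ℝ) := by positivity
  have h2 : (B.card : ℝ) ^ lam ≤ b' ^ lam * Real.exp a * 1001 ^ (2 * lam) := by
    have h3 : (B.card : ℝ) ^ lam * (N ! : ℝ) ≤
        (N ! : ℝ) * b' ^ lam * Real.exp a * 1001 ^ (2 * lam) := by
      refine h1.trans ?_
      gcongr
    have h4 : (B.card : ℝ) ^ lam * (N ! : ℝ) ≤
        (b' ^ lam * Real.exp a * 1001 ^ (2 * lam)) * (N ! : ℝ) := by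
      refine h3.trans (le_of_eq ?_)
      ring
    exact le_of_mul_le_mul_right h4 hNf
  rcases hb'0.eq_or_lt with h0 | h0
  · rw [← h0, zero_pow (by omega), zero_mul, zero_mul] at h2
    rw [← h0, mul_zero] at hbb
    have : (0 : ℝ) < (B.card : ℝ) ^ lam := by positivity
    linarith
  · have h3 : ((10 : ℝ) ^ 7 * b') ^ lam ≤ (B.card : ℝ) ^ lam := by gcongr
    have h4 : ((10 : ℝ) ^ 7) ^ lam * b' ^ lam ≤
        (Real.exp a * 1001 ^ (2 * lam)) * b' ^ lam := by
      rw [← mul_pow]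
      refine (h3.trans h2).trans (le_of_eq ?_)
      ring
    have h5 := le_of_mul_le_mul_right h4 (by positivity)
    have h6 : (Real.exp 1 * 1002001) ^ lam ≤ ((10 : ℝ) ^ 7) ^ lam := by
      have := Real.exp_one_lt_d9
      have h7 : Real.exp 1 * 1002001 ≤ (10 : ℝ) ^ 7 := by
        norm_num
        linarith
      gcongr
    have e1 : (1001 : ℝ) ^ (2 * lam) = 1002001 ^ lam := by
      rw [pow_mul]
      norm_num
    rw [e1] at h5
    rw [mul_pow] at h6
    have h7 : Real.exp 1 ^ lam * 1002001 ^ lam ≤ Real.exp a * 1002001 ^ lam := h6.trans h5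
    have h8 := le_of_mul_le_mul_right h7 (by positivity)
    rw [← Real.exp_nat_mul, mul_one, Real.exp_le_exp] at h8
    have h9 : (n : ℝ) ≤ 10 ^ 10 * ((lam : ℝ) + 1) := by
      have : n ≤ 10 ^ 10 * (lam + 1) := by omega
      exact_mod_cast this
    have hnR : (10 ^ 15 : ℝ) ≤ (n : ℝ) := by exact_mod_cast hn
    have h10 : (lam : ℝ) ≤ (n : ℝ) / 10 ^ 13 := h8.trans ha
    rw [le_div_iff₀ (by positivity)] at h10
    norm_num at h9 h10
    linarith

theorem phase1 (hn : 10 ^ 15 ≤ n) {a b : ℝ} {YA YB : Finset (Fin n × Fin n)}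
    {A B : Finset (Perm (Fin n))} (h : Cpl a b YA A YB B) (ha : a ≤ (n : ℝ) / 10 ^ 13)
    (Q : Finset (Fin n)) (hQA : ∀ i ∈ Q, i ∉ YA.image Prod.fst)
    (hQB : ∀ i ∈ Q, i ∉ YB.image Prod.fst) (hQ : YA.card + Q.card + n / 1000 ≤ n) :
    ∃ s : Finset (Fin n × Fin n), s.image Prod.fst = Q ∧ s.card = Q.card ∧ Disjoint YA s ∧
      B.card ≤ 10 ^ 7 * (B.filter fun τ => Disjoint (gr τ) s).card ∧
      ((n - YA.card - s.card)! : ℝ) ≤
        Real.exp (2 * (n : ℝ) / 10 ^ 9) * ((A.filter fun σ => s ⊆ gr σ).card : ℝ) := by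
  classical
  have hApos := h.dA.card_pos
  have hBpos := h.dB.card_pos
  have hn0 := h.dA.le_card
  set lam : ℕ := n / 10 ^ 10 with hlam
  have key : ∀ Q' : Finset (Fin n), Q' ⊆ Q → ∃ s : Finset (Fin n × Fin n),
      s.image Prod.fst = Q' ∧ s.card = Q'.card ∧ Disjoint YA s ∧ Inv lam YA A B s := by
    intro Q'
    induction Q' using Finset.induction_on with
    | empty =>
      intro _
      refine ⟨∅, by simp, by simp, by simp, ?_⟩
      unfold Inv
      have e1 : (A.filter fun σ => (∅ : Finset (Fin n × Fin n)) ⊆ gr σ) = A := by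
        apply filter_true_of_mem
        intro σ _
        exact empty_subset _
      have e2 : (B.filter fun τ => Disjoint (gr τ) (∅ : Finset (Fin n × Fin n))) = B := by
        apply filter_true_of_mem
        intro σ _
        exact disjoint_empty_right _
      rw [e1, e2, card_empty, Nat.sub_zero]
    | insert i Q' hi ih =>
      intro hsub
      have hiQ : i ∈ Q := hsub (mem_insert_self _ _)
      have hQ'Q : Q' ⊆ Q := (subset_insert _ _).trans hsub
      obtain ⟨s, hs1, hs2, hs3, hI⟩ := ih hQ'Q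
      have hc1 : Q'.card + 1 ≤ Q.card := by
        rw [← card_insert_of_notMem hi]
        exact card_le_card hsub
      have hNge : n / 1000 ≤ n - YA.card - s.card := by omega
      have hBd := hI.bound hn hApos hn0 hNge ha h.stA hs3
      set As := A.filter fun σ => s ⊆ gr σ with hAs
      set Bs := B.filter fun τ => Disjoint (gr τ) s with hBs
      have hBsne : Bs.Nonempty := by
        rw [nonempty_iff_ne_empty]
        intro he
        rw [he, card_empty, mul_zero, Nat.le_zero, Finset.card_eq_zero] at hBd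
        exact h.dB.nonempty.ne_empty hBd
      have hAsne : As.Nonempty := by
        rw [nonempty_iff_ne_empty]
        intro he
        have h1 := hI
        unfold Inv at h1
        rw [← hAs, he, card_empty, Nat.cast_zero, zero_mul, zero_mul] at h1
        have : (0 : ℝ) < (A.card : ℝ) * (B.card : ℝ) ^ lam * (((n - YA.card - s.card)! : ℝ) *
            (((n - YA.card - s.card : ℕ) : ℝ) + 1) ^ (2 * lam)) := by positivity
        linarith
      have hT : InSt (YA ∪ s) As := by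
        intro σ hσ
        rw [hAs, mem_filter] at hσ
        exact union_subset (h.stA σ hσ.1) hσ.2
      have hrow : ∀ q ∈ YA ∪ s, q.1 ≠ i := by
        intro q hq he
        rw [mem_union] at hq
        rcases hq with hq | hq
        · exact hQA i hiQ (he ▸ mem_image_of_mem _ hq)
        · apply hi
          rw [← hs1, ← he]
          exact mem_image_of_mem _ hq
      have hlk : ∀ j, 2 * lam * (lk Bs (i, j)).card ≤ Bs.card := by
        intro j
        have h1 := h.spB (i, j) (fun hij => hQB i hiQ (mem_image_of_mem Prod.fst hij))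
        have h2 : (lk Bs (i, j)).card ≤ (lk B (i, j)).card := card_lk_mono (filter_subset _ _) _
        have h3 : 10 ^ 10 * lam ≤ n := by omega
        have h4 : n * (lk Bs (i, j)).card ≤ 8 * (10 ^ 7 * Bs.card) :=
          (Nat.mul_le_mul_left n h2).trans (h1.trans (Nat.mul_le_mul_left 8 hBd))
        have h5 : 10 ^ 10 * lam * (lk Bs (i, j)).card ≤ n * (lk Bs (i, j)).card :=
          Nat.mul_le_mul_right _ h3
        have h6 : 10 ^ 10 * (2 * lam * (lk Bs (i, j)).card) ≤ 10 ^ 10 * Bs.card := by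
          calc 10 ^ 10 * (2 * lam * (lk Bs (i, j)).card)
              = 2 * (10 ^ 10 * lam * (lk Bs (i, j)).card) := by ring
            _ ≤ 2 * (8 * (10 ^ 7 * Bs.card)) := Nat.mul_le_mul_left 2 (h5.trans h4)
            _ ≤ 10 ^ 10 * Bs.card := by omega
        exact Nat.le_of_mul_le_mul_left h6 (by norm_num)
      obtain ⟨j, hj⟩ := ph1Step As Bs (YA ∪ s) lam i hAsne hBsne hT hrow hlk
      have hijs : (i, j) ∉ s := by
        intro h1
        exact hrow (i, j) (mem_union_right _ h1) rfl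
      have hijA : (i, j) ∉ YA := by
        intro h1
        exact hrow (i, j) (mem_union_left _ h1) rfl
      refine ⟨insert (i, j) s, ?_, ?_, ?_, ?_⟩
      · rw [image_insert, hs1]
      · rw [card_insert_of_notMem hijs, card_insert_of_notMem hi, hs2]
      · rw [disjoint_insert_right]
        exact ⟨hijA, hs3⟩
      · have e1 : (A.filter fun σ => insert (i, j) s ⊆ gr σ) = lk As (i, j) := by
          ext σ
          rw [mem_filter, mem_lk, hAs, mem_filter, insert_subset_iff]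
          tauto
        have e2 : (B.filter fun τ => Disjoint (gr τ) (insert (i, j) s)) =
            Bs.filter fun τ => (i, j) ∉ gr τ := by
          ext τ
          rw [mem_filter, mem_filter, hBs, mem_filter, disjoint_insert_right]
          tauto
        unfold Inv at hI ⊢
        rw [e1, e2, card_insert_of_notMem hijs]
        rw [← hAs, ← hBs] at hI
        obtain ⟨N, hN⟩ : ∃ N, n - YA.card - s.card = N + 1 :=
          ⟨n - YA.card - s.card - 1, by omega⟩
        have hN' : n - YA.card - (s.card + 1) = N := by omega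
        have hTc : n - (YA ∪ s).card = N + 1 := by
          rw [card_union_of_disjoint hs3]
          omega
        rw [hTc] at hj
        rw [hN] at hI
        rw [hN']
        set C0 : ℝ := ((n - YA.card)! : ℝ) * (((n - YA.card : ℕ) : ℝ) + 1) ^ (2 * lam) with hC0
        have hC0pos : 0 < C0 := by positivity
        set P : ℝ := (A.card : ℝ) * (B.card : ℝ) ^ lam with hP
        have hPpos : 0 < P := by positivity
        set W : ℝ := ((lk As (i, j)).card : ℝ) *
          ((Bs.filter fun τ => (i, j) ∉ gr τ).card : ℝ) ^ lam with hW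
        have hber := bernoulli (N := ((N + 1 : ℕ) : ℝ)) (by positivity) (2 * lam)
        have hD : (0 : ℝ) < ((N + 1 : ℕ) : ℝ) + ((2 * lam : ℕ) : ℝ) := by positivity
        have h1 : P * (((N + 1)! : ℝ) * (((N + 1 : ℕ) : ℝ) + 1) ^ (2 * lam)) ≤
            W * (((N + 1 : ℕ) : ℝ) + 2 * lam) * C0 := by
          refine hI.trans ?_
          gcongr
        have h2 : P * ((N ! : ℝ) * (((N + 1 : ℕ) : ℝ) ^ (2 * lam) *
            (((N + 1 : ℕ) : ℝ) + ((2 * lam : ℕ) : ℝ)))) ≤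
            P * ((N ! : ℝ) * (((N + 1 : ℕ) : ℝ) * (((N + 1 : ℕ) : ℝ) + 1) ^ (2 * lam))) := by
          gcongr
        have e3 : ((N + 1)! : ℝ) = ((N + 1 : ℕ) : ℝ) * (N ! : ℝ) := by
          rw [Nat.factorial_succ]
          push_cast
          ring
        rw [e3] at h1
        have h3 : (P * ((N ! : ℝ) * ((N : ℝ) + 1) ^ (2 * lam))) *
            (((N + 1 : ℕ) : ℝ) + ((2 * lam : ℕ) : ℝ)) ≤
            (W * C0) * (((N + 1 : ℕ) : ℝ) + ((2 * lam : ℕ) : ℝ)) := by
          calc (P * ((N ! : ℝ) * ((N : ℝ) + 1) ^ (2 * lam))) *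
              (((N + 1 : ℕ) : ℝ) + ((2 * lam : ℕ) : ℝ))
              = P * ((N ! : ℝ) * (((N + 1 : ℕ) : ℝ) ^ (2 * lam) *
                (((N + 1 : ℕ) : ℝ) + ((2 * lam : ℕ) : ℝ)))) := by
                push_cast
                ring
            _ ≤ _ := h2
            _ = P * ((((N + 1 : ℕ) : ℝ) * (N ! : ℝ)) *
                (((N + 1 : ℕ) : ℝ) + 1) ^ (2 * lam)) := by ring
            _ ≤ _ := h1
            _ = _ := by
                push_cast
                ring
        exact le_of_mul_le_mul_right h3 hD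
  obtain ⟨s, hs1, hs2, hs3, hI⟩ := key Q (Subset.refl _)
  have hNge : n / 1000 ≤ n - YA.card - s.card := by omega
  refine ⟨s, hs1, hs2, hs3, hI.bound hn hApos hn0 hNge ha h.stA hs3, ?_⟩
  have h1 := hI.cancel hApos hn0 hNge
  have h2 : ((B.filter fun τ => Disjoint (gr τ) s).card : ℝ) ^ lam ≤ (B.card : ℝ) ^ lam := by
    have h3 : ((B.filter fun τ => Disjoint (gr τ) s).card : ℝ) ≤ (B.card : ℝ) := by
      exact_mod_cast card_le_card (filter_subset _ _)
    gcongr
  set N : ℕ := n - YA.card - s.card with hN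
  have h4 : (B.card : ℝ) ^ lam * (N ! : ℝ) ≤ (B.card : ℝ) ^ lam *
      (((A.filter fun σ => s ⊆ gr σ).card : ℝ) * Real.exp a * 1001 ^ (2 * lam)) := by
    calc (B.card : ℝ) ^ lam * (N ! : ℝ) ≤ _ := h1
      _ ≤ ((A.filter fun σ => s ⊆ gr σ).card : ℝ) * (B.card : ℝ) ^ lam * Real.exp a *
          1001 ^ (2 * lam) := by gcongr
      _ = _ := by ring
  have h5 := le_of_mul_le_mul_left h4 (by positivity)
  have h6 : (1001 : ℝ) ^ (2 * lam) ≤ Real.exp (14 * lam) := by
    have h7 : (1001 : ℝ) ≤ Real.exp 7 := by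
      have h8 := Real.exp_one_gt_d9
      have h9 : Real.exp 7 = Real.exp 1 ^ 7 := by
        rw [← Real.exp_nat_mul]
        norm_num
      rw [h9]
      calc (1001 : ℝ) ≤ 2.7182 ^ 7 := by norm_num
        _ ≤ Real.exp 1 ^ 7 := by
          gcongr
          linarith
    calc (1001 : ℝ) ^ (2 * lam) ≤ Real.exp 7 ^ (2 * lam) := by gcongr
      _ = Real.exp (14 * lam) := by
        rw [← Real.exp_nat_mul]
        congr 1
        push_cast
        ring
  have h7 : Real.exp a * 1001 ^ (2 * lam) ≤ Real.exp (2 * (n : ℝ) / 10 ^ 9) := by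
    calc Real.exp a * 1001 ^ (2 * lam) ≤ Real.exp a * Real.exp (14 * lam) := by gcongr
      _ = Real.exp (a + 14 * lam) := by rw [Real.exp_add]
      _ ≤ _ := by
        rw [Real.exp_le_exp]
        have h8 : 10 ^ 10 * (lam : ℝ) ≤ (n : ℝ) := by
          have : 10 ^ 10 * lam ≤ n := by omega
          exact_mod_cast this
        have hn' : (0 : ℝ) ≤ (n : ℝ) := by positivity
        rw [le_div_iff₀ (by positivity)]
        rw [le_div_iff₀ (by positivity)] at ha
        norm_num at ha h8 ⊢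
        linarith
  calc (N ! : ℝ) ≤ ((A.filter fun σ => s ⊆ gr σ).card : ℝ) * Real.exp a * 1001 ^ (2 * lam) := h5
    _ = ((A.filter fun σ => s ⊆ gr σ).card : ℝ) * (Real.exp a * 1001 ^ (2 * lam)) := by ring
    _ ≤ ((A.filter fun σ => s ⊆ gr σ).card : ℝ) * Real.exp (2 * (n : ℝ) / 10 ^ 9) := by gcongr
    _ = _ := by ring

end Pool.Agent.FI37
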