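import Pool.Agent.FI37.Defs

/-!
# Regularisation (density increment)

PROOF. Among all `(Y', A')` with `Y ⊆ Y'`, `A' ⊆ A`, `InSt Y' A'`, `Den d Y' A'` choose one with
`|Y'|` maximal (`|Y'| ≤ n` because `A'` is nonempty, `card_le_of_sub_gr`; start: `(Y, A)`). If it is
not 6-spread there is `q ∉ Y'` with `n |lk A' q| > 6 |A'|`; put `Y'' = insert q Y'`, `A'' = lk A' q`.
With `y = |Y'|`: `y ≤ d` (`Den.card_le`), so `y + 1 ≤ n / 2` and `n - y ≥ n/2`; hence
`(n-y-1)! e^{y+1} = (n-y)! e^y · e/(n-y) ≤ e^d |A'| e/(n-y) ≤ e^d |A''| · n e / (6 (n-y)) ≤ e^d |A''|`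
as `e ≤ 3`. So `Den d Y'' A''` and `|Y''| = y + 1`, contradicting maximality.
-/

namespace Pool.Agent.FI37

open Finset Equiv Nat Pool.Agent.H17.PermInt

variable {n : ℕ}

theorem reg {d : ℝ} {Y : Finset (Fin n × Fin n)} {A : Finset (Perm (Fin n))} (hS : InSt Y A)
    (hD : Den d Y A) (hd : d + 1 ≤ (n : ℝ) / 2) :
    ∃ (Y' : Finset (Fin n × Fin n)) (A' : Finset (Perm (Fin n))),
      Y ⊆ Y' ∧ A' ⊆ A ∧ InSt Y' A' ∧ Spr 6 Y' A' ∧ Den d Y' A' := by
  classical
  -- the admissible pairs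
  set S : Finset (Finset (Fin n × Fin n) × Finset (Perm (Fin n))) :=
    univ.filter fun q => Y ⊆ q.1 ∧ q.2 ⊆ A ∧ InSt q.1 q.2 ∧ Den d q.1 q.2 with hSdef
  have hSne : S.Nonempty := ⟨(Y, A), by
    rw [hSdef, mem_filter]
    exact ⟨mem_univ _, Subset.refl _, Subset.refl _, hS, hD⟩⟩
  obtain ⟨⟨Y', A'⟩, hmem, hmax⟩ := Finset.exists_max_image S (fun q => q.1.card) hSne
  rw [hSdef, mem_filter] at hmem
  obtain ⟨-, hY, hA, hS', hD'⟩ := hmem
  refine ⟨Y', A', hY, hA, hS', ?_, hD'⟩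
  intro q hq
  by_contra hc
  push Not at hc
  have hy := hD'.card_le hS'
  have hn0 : (0 : ℝ) < n := by
    have h1 : (0 : ℝ) ≤ Y'.card := Nat.cast_nonneg _
    linarith
  set y := Y'.card with hyd
  have hyn : (y : ℝ) + 1 ≤ (n : ℝ) / 2 := by linarith
  have hyn' : y < n := by
    have : (y : ℝ) < n := by linarith
    exact_mod_cast this
  have hfac : ((n - y)! : ℝ) = ((n : ℝ) - y) * ((n - (y + 1))! : ℝ) := by
    have h1 : (n - y)! = (n - y) * (n - (y + 1))! := by
      rw [show n - (y + 1) = (n - y) - 1 by omega, Nat.mul_factorial_pred (by omega)]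
    rw [h1]
    push_cast [Nat.cast_sub hyn'.le]
    ring
  have hc' : (6 : ℝ) * A'.card < n * (lk A' q).card := by exact_mod_cast hc
  have hlk0 : (0 : ℝ) ≤ (lk A' q).card := Nat.cast_nonneg _
  have he : Real.exp 1 ≤ 3 := by have := Real.exp_one_lt_d9; linarith
  have hpos : (0 : ℝ) < (n : ℝ) - y := by linarith
  have hD'' : Den d (insert q Y') (lk A' q) := by
    unfold Den at hD' ⊢
    rw [card_insert_of_notMem hq, ← hyd]
    have key : ((n : ℝ) - y) * (((n - (y + 1))! : ℝ) * Real.exp ((y + 1 : ℕ) : ℝ)) ≤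
        ((n : ℝ) - y) * (Real.exp d * (lk A' q).card) := by
      calc ((n : ℝ) - y) * (((n - (y + 1))! : ℝ) * Real.exp ((y + 1 : ℕ) : ℝ))
          = (((n - y)! : ℝ) * Real.exp (y : ℝ)) * Real.exp 1 := by
            rw [hfac]
            push_cast
            rw [Real.exp_add]
            ring
        _ ≤ (Real.exp d * (A'.card : ℝ)) * 3 := by gcongr
        _ = Real.exp d * (6 * (A'.card : ℝ)) * (1 / 2) := by ring
        _ ≤ Real.exp d * (n * (lk A' q).card) * (1 / 2) := by gcongr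
        _ = Real.exp d * (lk A' q).card * ((n : ℝ) / 2) := by ring
        _ ≤ Real.exp d * (lk A' q).card * ((n : ℝ) - y) := by
            gcongr
            linarith
        _ = ((n : ℝ) - y) * (Real.exp d * (lk A' q).card) := by ring
    exact le_of_mul_le_mul_left key hpos
  have hmem2 : (insert q Y', lk A' q) ∈ S := by
    rw [hSdef, mem_filter]
    exact ⟨mem_univ _, hY.trans (subset_insert _ _), (lk_subset _ _).trans hA,
      inSt_insert_lk hS' q, hD''⟩
  have := hmax _ hmem2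
  simp only at this
  rw [card_insert_of_notMem hq] at this
  omega

end Pool.Agent.FI37
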