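import Pool.Agent.FI37.Defs

/-!
# Sequential bounds for product weights over a star

PROOF of both: induction on `R` (`Finset.induction_on`), `Z` generalised. `R = ∅`: the sum is
`|st Z| ≤ (n - |Z|)!` (`card_st_le`). Step `R = insert i R'`: split `st Z` by the value `j = σ i`;
`{σ ∈ st Z : σ i = j} = st (insert (i,j) Z)`, `|insert (i,j) Z| = |Z| + 1` as `i` is not a row of `Z`,
and rows of `insert (i,j) Z` are outside `R'`. So the sum is
`Σ_j w i j Σ_{σ ∈ st (insert (i,j) Z)} Π_{R'}`.
`seq2`: bound the inner sum by induction and `Σ_j w i j ≤ W i` (the product of the `W` is `≥ 0`).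
`seq`: if `st Z = ∅` the left side is `0`; otherwise `Z` is a partial permutation: with
`U = Z.image Prod.snd`, `|U| = |Z|` (`card_snd`), only `j ∈ Uᶜ` contribute (for `j ∈ U` the set
`st (insert (i,j) Z)` is empty), inner sums are `≤ c^{|R'|} (n-|Z|-1)!`,
`Σ_{j ∈ Uᶜ} w i j ≤ c (n - |Z|)` and `(n-|Z|)(n-|Z|-1)! = (n-|Z|)!` (`|Z| < n`: the row `i` is free).
-/

namespace Pool.Agent.FI37

open Finset Equiv Nat Pool.Agent.H17.PermInt

variable {n : ℕ}

/-- splitting a star by the value at a free row -/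
theorem sum_st_split (Z : Finset (Fin n × Fin n)) (i : Fin n) (hi : ∀ q ∈ Z, q.1 ≠ i)
    (f : Perm (Fin n) → ℝ) :
    ∑ σ ∈ st Z, f σ = ∑ j ∈ (Z.image Prod.snd)ᶜ, ∑ σ ∈ st (insert (i, j) Z), f σ := by
  classical
  rw [← sum_fiberwise_of_maps_to (s := st Z) (t := (Z.image Prod.snd)ᶜ) (g := fun σ => σ i)]
  · apply sum_congr rfl
    intro j _
    apply sum_congr _ (fun _ _ => rfl)
    ext σ
    rw [mem_filter, mem_st, mem_st, insert_subset_iff, mem_gr]
    exact and_comm
  · intro σ hσ
    rw [mem_st] at hσ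
    rw [mem_compl, mem_image]
    rintro ⟨q, hq, hqe⟩
    have h1 := mem_gr.mp (hσ hq)
    rw [hqe] at h1
    exact hi q hq (σ.injective h1)

theorem seq (w : Fin n → Fin n → ℝ) (hw : ∀ i j, 0 ≤ w i j) (c : ℝ) (hc : 0 ≤ c) (m : ℕ)
    (R : Finset (Fin n)) (Z : Finset (Fin n × Fin n)) (hRZ : ∀ q ∈ Z, q.1 ∉ R)
    (hm : Z.card + R.card ≤ m)
    (h : ∀ U : Finset (Fin n), U.card ≤ m → ∀ i ∈ R, ∑ j ∈ Uᶜ, w i j ≤ c * ((n : ℝ) - U.card)) :
    ∑ σ ∈ st Z, ∏ i ∈ R, w i (σ i) ≤ c ^ R.card * ((n - Z.card)! : ℝ) := by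
  classical
  induction R using Finset.induction_on generalizing Z with
  | empty =>
    simp only [prod_empty, sum_const, nsmul_eq_mul, mul_one, card_empty, pow_zero, one_mul]
    exact_mod_cast card_st_le Z
  | insert i R' hi ih =>
    rcases (st Z).eq_empty_or_nonempty with hZ | ⟨σ₀, hσ₀⟩
    · rw [hZ, sum_empty]
      positivity
    · rw [mem_st] at hσ₀
      have hiZ : ∀ q ∈ Z, q.1 ≠ i := fun q hq he => hRZ q hq (he ▸ mem_insert_self _ _)
      have hU : (Z.image Prod.snd).card = Z.card := card_snd hσ₀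
      have hZn : Z.card < n := by
        rw [← card_fst hσ₀]
        have h1 : Z.image Prod.fst ⊆ univ.erase i := by
          intro a ha
          rw [mem_image] at ha
          obtain ⟨q, hq, rfl⟩ := ha
          exact mem_erase.mpr ⟨hiZ q hq, mem_univ _⟩
        have h2 := card_le_card h1
        rw [card_erase_of_mem (mem_univ _), Finset.card_univ, Fintype.card_fin] at h2
        have : 0 < n := Fin.pos i
        omega
      rw [card_insert_of_notMem hi] at hm
      rw [sum_st_split Z i hiZ (fun σ => ∏ k ∈ insert i R', w k (σ k))]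
      have hterm : ∀ j ∈ (Z.image Prod.snd)ᶜ, ∑ σ ∈ st (insert (i, j) Z),
          ∏ k ∈ insert i R', w k (σ k) ≤ w i j * (c ^ R'.card * ((n - (Z.card + 1))! : ℝ)) := by
        intro j hj
        have h1 : ∑ σ ∈ st (insert (i, j) Z), ∏ k ∈ insert i R', w k (σ k) =
            w i j * ∑ σ ∈ st (insert (i, j) Z), ∏ k ∈ R', w k (σ k) := by
          rw [mul_sum]
          apply sum_congr rfl
          intro σ hσ
          rw [mem_st] at hσ
          have h2 : σ i = j := mem_gr.mp (hσ (mem_insert_self _ _))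
          rw [prod_insert hi, h2]
        have hnot : (i, j) ∉ Z := fun h' => hiZ _ h' rfl
        rw [h1]
        apply mul_le_mul_of_nonneg_left _ (hw i j)
        have h3 := ih (insert (i, j) Z) (by
          intro q hq hqR
          rw [mem_insert] at hq
          rcases hq with rfl | hq
          · exact hi hqR
          · exact hRZ q hq (mem_insert_of_mem hqR)) (by
          rw [card_insert_of_notMem hnot]
          omega) (fun U hUc k hk => h U hUc k (mem_insert_of_mem hk))
        rwa [card_insert_of_notMem hnot] at h3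
      have hfac : ((n - Z.card)! : ℝ) = ((n : ℝ) - Z.card) * ((n - (Z.card + 1))! : ℝ) := by
        have h1 : (n - Z.card)! = (n - Z.card) * (n - (Z.card + 1))! := by
          rw [show n - (Z.card + 1) = (n - Z.card) - 1 by omega,
            Nat.mul_factorial_pred (by omega)]
        rw [h1]
        push_cast [Nat.cast_sub hZn.le]
        ring
      have hsumw := h (Z.image Prod.snd) (by rw [hU]; omega) i (mem_insert_self _ _)
      rw [hU] at hsumw
      calc ∑ j ∈ (Z.image Prod.snd)ᶜ, ∑ σ ∈ st (insert (i, j) Z),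
            ∏ k ∈ insert i R', w k (σ k)
          ≤ ∑ j ∈ (Z.image Prod.snd)ᶜ, w i j * (c ^ R'.card * ((n - (Z.card + 1))! : ℝ)) :=
            sum_le_sum hterm
        _ = (∑ j ∈ (Z.image Prod.snd)ᶜ, w i j) * (c ^ R'.card * ((n - (Z.card + 1))! : ℝ)) := by
            rw [sum_mul]
        _ ≤ (c * ((n : ℝ) - Z.card)) * (c ^ R'.card * ((n - (Z.card + 1))! : ℝ)) := by
            gcongr
        _ = c ^ (insert i R').card * ((n - Z.card)! : ℝ) := by
            rw [card_insert_of_notMem hi, hfac, pow_succ]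
            ring

theorem seq2 (w : Fin n → Fin n → ℝ) (hw : ∀ i j, 0 ≤ w i j) (W : Fin n → ℝ)
    (R : Finset (Fin n)) (Z : Finset (Fin n × Fin n)) (hRZ : ∀ q ∈ Z, q.1 ∉ R)
    (h : ∀ i ∈ R, ∑ j, w i j ≤ W i) :
    ∑ σ ∈ st Z, ∏ i ∈ R, w i (σ i) ≤ (∏ i ∈ R, W i) * ((n - Z.card - R.card)! : ℝ) := by
  classical
  induction R using Finset.induction_on generalizing Z with
  | empty =>
    simp only [prod_empty, sum_const, nsmul_eq_mul, mul_one, card_empty, one_mul, Nat.sub_zero]
    exact_mod_cast card_st_le Z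
  | insert i R' hi ih =>
    have hiZ : ∀ q ∈ Z, q.1 ≠ i := fun q hq he => hRZ q hq (he ▸ mem_insert_self _ _)
    rw [sum_st_split Z i hiZ (fun σ => ∏ k ∈ insert i R', w k (σ k))]
    have hW0 : ∀ k ∈ insert i R', 0 ≤ W k := fun k hk =>
      (sum_nonneg fun j _ => hw k j).trans (h k hk)
    have hP0 : 0 ≤ ∏ k ∈ R', W k := prod_nonneg fun k hk => hW0 k (mem_insert_of_mem hk)
    have hterm : ∀ j ∈ (Z.image Prod.snd)ᶜ, ∑ σ ∈ st (insert (i, j) Z),
        ∏ k ∈ insert i R', w k (σ k) ≤
          w i j * ((∏ k ∈ R', W k) * ((n - Z.card - (R'.card + 1))! : ℝ)) := by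
      intro j hj
      have h1 : ∑ σ ∈ st (insert (i, j) Z), ∏ k ∈ insert i R', w k (σ k) =
          w i j * ∑ σ ∈ st (insert (i, j) Z), ∏ k ∈ R', w k (σ k) := by
        rw [mul_sum]
        apply sum_congr rfl
        intro σ hσ
        rw [mem_st] at hσ
        have h2 : σ i = j := mem_gr.mp (hσ (mem_insert_self _ _))
        rw [prod_insert hi, h2]
      have hnot : (i, j) ∉ Z := fun h' => hiZ _ h' rfl
      rw [h1]
      apply mul_le_mul_of_nonneg_left _ (hw i j)
      have h3 := ih (insert (i, j) Z) (by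
        intro q hq hqR
        rw [mem_insert] at hq
        rcases hq with rfl | hq
        · exact hi hqR
        · exact hRZ q hq (mem_insert_of_mem hqR)) (fun k hk => h k (mem_insert_of_mem hk))
      rw [card_insert_of_notMem hnot] at h3
      have h4 : n - (Z.card + 1) - R'.card = n - Z.card - (R'.card + 1) := by omega
      rwa [h4] at h3
    have hsub : ∑ j ∈ (Z.image Prod.snd)ᶜ, w i j ≤ W i :=
      (sum_le_sum_of_subset_of_nonneg (subset_univ _) fun j _ _ => hw i j).trans
        (h i (mem_insert_self _ _))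
    calc ∑ j ∈ (Z.image Prod.snd)ᶜ, ∑ σ ∈ st (insert (i, j) Z),
          ∏ k ∈ insert i R', w k (σ k)
        ≤ ∑ j ∈ (Z.image Prod.snd)ᶜ,
            w i j * ((∏ k ∈ R', W k) * ((n - Z.card - (R'.card + 1))! : ℝ)) := sum_le_sum hterm
      _ = (∑ j ∈ (Z.image Prod.snd)ᶜ, w i j) *
            ((∏ k ∈ R', W k) * ((n - Z.card - (R'.card + 1))! : ℝ)) := by rw [sum_mul]
      _ ≤ W i * ((∏ k ∈ R', W k) * ((n - Z.card - (R'.card + 1))! : ℝ)) := by gcongr
      _ = _ := by
          rw [prod_insert hi, card_insert_of_notMem hi]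
          ring

end Pool.Agent.FI37
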