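import Pool.Agent.FI37.Reg
import Pool.Agent.FI37.LemF
import Pool.Agent.FI37.LemL

/-!
# One step: a coupled pair with one more common pair

Use `filt` of `Init.lean`? no: everything needed is `reg`, `lemF`, `lemL` and `Defs`.

PROOF. Let `c = 1/10^13`, `y_A = |YA| ≤ a`, `y_B = |YB| ≤ b` (`Den.card_le`). Free pairs: `p.1` not a row
of `YA` or `YB`, `p.2` not a column of `YA` or `YB`: at least `(n - y_A - y_B)² ≥ 0.99 n²` of them.
`G1` = free `p` with `50 n |lk A p| ≤ |A|`, `G2` the same for `B`: `10 |G_i| < 3 n²` (`lemF`).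
For every free `p ∉ G1 ∪ G2`: `lk A p` satisfies `InSt (insert p YA)` (`inSt_insert_lk`) and
`Den (a+5) (insert p YA)`: `(n-y-1)! e^{y+1} = (n-y)! e^y · e/(n-y) ≤ e^a |A| e/(n-y)
≤ e^a 50 n |lk A p| e/(n-y) ≤ e^{a+5} |lk A p|` (`50 n/(n-y) ≤ 51 ≤ e^4 ≈ 54.6`). `reg` gives `Y1 ⊇ insert p YA`,
`A1 ⊆ lk A p`, `InSt Y1 A1`, `Spr 6 Y1 A1`, `Den (a+5) Y1 A1`. Choose such `Y1 p`, `A1 p`; put
`Z p = Y1 p \ insert p YA`. As `A1 p` is nonempty, each `q ∈ Z p` has `q.1 ≠ p.1` (both are in the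
graph of a member, `p ≠ q`) and `q ∉ YB` (else `q ∈ gr σ ∩ YB ⊆ YA` by `cA`); `|Z p| ≤ |Y1 p| ≤ a + 5
≤ c n`. Let `L` = free `p ∉ G1 ∪ G2` with `|lk B p| ≤ 2 #{τ ∈ lk B p : gr τ ∩ Z p ≠ ∅}`;
`lemL` (for `B`): `10 |L| < 3 n²`. As `0.9 < 0.99` there is a free `p ∉ G1 ∪ G2 ∪ L`. Fix it.
`B⁻ = {τ ∈ lk B p : gr τ ∩ Z p = ∅}`, `2 |B⁻| ≥ |lk B p|`, `InSt (insert p YB) B⁻`,
`Den (b + 6) (insert p YB) B⁻` : `e · 50 n/(n-y_B) · 2 ≤ e · 102 ≤ e^6` (`102 ≤ e^5 ≈ 148.4`). `reg`: `Y2 ⊇ insert p YB`, `B' ⊆ B⁻`, `InSt`, `Spr 6`,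
`Den (b+6)`. `A' = {σ ∈ A1 : gr σ ∩ (Y2 \ insert p YB) = ∅}`. Each `q ∈ Y2 \ insert p YB` is `∉ Y1`:
if `q ∈ Z p`: members of `B'` contain `q` but avoid `Z p`; `q = p` no; `q ∈ YA`: `q ∈ gr τ ∩ YA ⊆ YB`, no.
So `n |lk A1 q| ≤ 6 |A1|` and `|A1 \ A'| ≤ 6 |Y2| |A1| / n ≤ |A1|/4` . Hence `InSt Y1 A'`,
`Spr 8 Y1 A'` (`6|A1| ≤ 8|A'|`), `Den (a+6) Y1 A'` (`4/3 ≤ e`, `Den.scale`). Coupling conditions:
`σ ∈ A'`, `q ∈ gr σ ∩ Y2`: `q = p ∈ Y1`, or `q ∈ YB` so `q ∈ YA ⊆ Y1`, or `q ∈ Y2 \ insert p YB`, excluded.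
`τ ∈ B'`, `q ∈ gr τ ∩ Y1`: `q = p`, or `q ∈ YA` so `q ∈ YB ⊆ Y2`, or `q ∈ Z p`, excluded.
`Y1 ∩ Y2 = insert p (YA ∩ YB)`: (use a member `σ₀ ∈ A'` and `τ₀ ∈ B'`; `q ∈ Y1 ∩ Y2` is in both graphs);
`p ∉ YA` as its row is free.
-/

namespace Pool.Agent.FI37

open Finset Equiv Nat Pool.Agent.H17.PermInt

variable {n : ℕ}

/-- avoiding few pairs costs at most a quarter -/
theorem filt {Y Q : Finset (Fin n × Fin n)} {A : Finset (Perm (Fin n))} (hn0 : 0 < n)
    (hp : Spr 6 Y A) (hQ : ∀ q ∈ Q, q ∉ Y) (hQc : 24 * Q.card ≤ n) :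
    3 * A.card ≤ 4 * (A.filter fun σ => Disjoint (gr σ) Q).card := by
  classical
  have h1 : A.filter (fun σ => ¬ Disjoint (gr σ) Q) ⊆ Q.biUnion fun q => lk A q := by
    intro σ hσ
    rw [mem_filter, not_disjoint_iff] at hσ
    obtain ⟨hσ, q, hq, hqQ⟩ := hσ
    rw [mem_biUnion]
    exact ⟨q, hqQ, mem_lk.mpr ⟨hσ, hq⟩⟩
  have h2 : (A.filter (fun σ => ¬ Disjoint (gr σ) Q)).card ≤ ∑ q ∈ Q, (lk A q).card :=
    (card_le_card h1).trans card_biUnion_le
  have h3 : n * ∑ q ∈ Q, (lk A q).card ≤ Q.card * (6 * A.card) := by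
    rw [mul_sum, ← smul_eq_mul (a := Q.card), ← sum_const]
    exact sum_le_sum fun q hq => hp q (hQ q hq)
  have h4 : (A.filter fun σ => Disjoint (gr σ) Q).card +
      (A.filter (fun σ => ¬ Disjoint (gr σ) Q)).card = A.card :=
    card_filter_add_card_filter_not _
  have h5 : n * (4 * (A.filter (fun σ => ¬ Disjoint (gr σ) Q)).card) ≤ n * A.card := by
    calc n * (4 * (A.filter (fun σ => ¬ Disjoint (gr σ) Q)).card)
        ≤ n * (4 * ∑ q ∈ Q, (lk A q).card) := by gcongr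
      _ = 4 * (n * ∑ q ∈ Q, (lk A q).card) := by ring
      _ ≤ 4 * (Q.card * (6 * A.card)) := by gcongr
      _ = (24 * Q.card) * A.card := by ring
      _ ≤ n * A.card := by gcongr
  have h6 := Nat.le_of_mul_le_mul_left h5 hn0
  omega

/-- the density of a large link -/
theorem den_insert {a e C : ℝ} {Y : Finset (Fin n × Fin n)} {A A' : Finset (Perm (Fin n))}
    {p : Fin n × Fin n} (hn0 : 0 < n) (hD : Den a Y A) (hp : p ∉ Y)
    (hY : 200 * Y.card ≤ n) (hC0 : 0 ≤ C) (hC : (A.card : ℝ) ≤ C * n * A'.card)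
    (hCe : C * (101 / 100) * Real.exp 1 ≤ Real.exp e) :
    Den (a + e) (insert p Y) A' := by
  unfold Den at hD ⊢
  rw [card_insert_of_notMem hp]
  have hy : Y.card < n := by omega
  set y := Y.card with hyd
  have hfac : ((n - y)! : ℝ) = ((n : ℝ) - y) * ((n - (y + 1))! : ℝ) := by
    have h1 : (n - y)! = (n - y) * (n - (y + 1))! := by
      rw [show n - (y + 1) = (n - y) - 1 by omega, Nat.mul_factorial_pred (by omega)]
    rw [h1]
    push_cast [Nat.cast_sub hy.le]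
    ring
  have hny : (n : ℝ) ≤ (101 / 100) * ((n : ℝ) - y) := by
    have : (200 : ℝ) * y ≤ n := by exact_mod_cast hY
    linarith
  have hn0' : (0 : ℝ) < n := by exact_mod_cast hn0
  have hpos : (0 : ℝ) < (n : ℝ) - y := by linarith
  have hA' : (0 : ℝ) ≤ A'.card := Nat.cast_nonneg _
  have hea : 0 < Real.exp a := Real.exp_pos _
  have key : ((n : ℝ) - y) * (((n - (y + 1))! : ℝ) * Real.exp ((y + 1 : ℕ) : ℝ)) ≤
      ((n : ℝ) - y) * (Real.exp (a + e) * A'.card) := by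
    calc ((n : ℝ) - y) * (((n - (y + 1))! : ℝ) * Real.exp ((y + 1 : ℕ) : ℝ))
        = (((n - y)! : ℝ) * Real.exp (y : ℝ)) * Real.exp 1 := by
          rw [hfac]
          push_cast
          rw [Real.exp_add]
          ring
      _ ≤ (Real.exp a * (A.card : ℝ)) * Real.exp 1 := by gcongr
      _ ≤ (Real.exp a * (C * n * A'.card)) * Real.exp 1 := by gcongr
      _ ≤ (Real.exp a * (C * ((101 / 100) * ((n : ℝ) - y)) * A'.card)) * Real.exp 1 := by gcongr
      _ = (Real.exp a * A'.card * ((n : ℝ) - y)) * (C * (101 / 100) * Real.exp 1) := by ring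
      _ ≤ (Real.exp a * A'.card * ((n : ℝ) - y)) * Real.exp e := by gcongr
      _ = ((n : ℝ) - y) * (Real.exp (a + e) * A'.card) := by
          rw [Real.exp_add]
          ring
  exact le_of_mul_le_mul_left key hpos

theorem exp5_ge : (148 : ℝ) ≤ Real.exp 5 := by
  have h : Real.exp 5 = Real.exp 1 ^ 5 := by rw [← Real.exp_nat_mul]; norm_num
  rw [h]
  have h1 : (2.7182818283 : ℝ) ≤ Real.exp 1 := Real.exp_one_gt_d9.le
  calc (148 : ℝ) ≤ (2.7182818283 : ℝ) ^ 5 := by norm_num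
    _ ≤ _ := by gcongr

theorem exp6_ge : (400 : ℝ) ≤ Real.exp 6 := by
  have h : Real.exp 6 = Real.exp 1 ^ 6 := by rw [← Real.exp_nat_mul]; norm_num
  rw [h]
  have h1 : (2.7182818283 : ℝ) ≤ Real.exp 1 := Real.exp_one_gt_d9.le
  calc (400 : ℝ) ≤ (2.7182818283 : ℝ) ^ 6 := by norm_num
    _ ≤ _ := by gcongr

theorem step (hn : 10 ^ 15 ≤ n) {a b : ℝ} {YA YB : Finset (Fin n × Fin n)}
    {A B : Finset (Perm (Fin n))} (h : Cpl a b YA A YB B) (ha : a + 6 ≤ (n : ℝ) / 10 ^ 13)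
    (hb : b + 6 ≤ (n : ℝ) / 10 ^ 13) :
    ∃ (YA' YB' : Finset (Fin n × Fin n)) (A' B' : Finset (Perm (Fin n))),
      A' ⊆ A ∧ B' ⊆ B ∧ Cpl (a + 6) (b + 6) YA' A' YB' B' ∧
        (YA' ∩ YB').card = (YA ∩ YB).card + 1 := by
  classical
  have hnR : (10 : ℝ) ^ 15 ≤ n := by exact_mod_cast hn
  have hn0 : 0 < n := lt_of_lt_of_le (by norm_num) hn
  have hn0' : (0 : ℝ) < n := by exact_mod_cast hn0
  have hya := h.dA.card_le h.stA
  have hyb := h.dB.card_le h.stB
  have hyaN : 1000 * YA.card ≤ n := by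
    have : (1000 : ℝ) * YA.card ≤ n := by linarith
    exact_mod_cast this
  have hybN : 1000 * YB.card ≤ n := by
    have : (1000 : ℝ) * YB.card ≤ n := by linarith
    exact_mod_cast this
  -- the free pairs
  set R0 := YA.image Prod.fst ∪ YB.image Prod.fst with hR0
  have hR0c : R0.card ≤ YA.card + YB.card :=
    (card_union_le _ _).trans (Nat.add_le_add card_image_le card_image_le)
  set W : Finset (Fin n × Fin n) := R0ᶜ ×ˢ (univ : Finset (Fin n)) with hW
  have hWc : W.card = (n - R0.card) * n := by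
    rw [hW, card_product, card_compl, Fintype.card_fin, Finset.card_univ, Fintype.card_fin]
  have hWbig : 99 * n ^ 2 ≤ 100 * W.card := by
    rw [hWc]
    have h1 : 99 * n ≤ 100 * (n - R0.card) := by omega
    calc 99 * n ^ 2 = (99 * n) * n := by ring
      _ ≤ (100 * (n - R0.card)) * n := by gcongr
      _ = _ := by ring
  have hWrow : ∀ p ∈ W, p.1 ∉ YA.image Prod.fst ∧ p.1 ∉ YB.image Prod.fst := by
    intro p hp
    rw [hW, mem_product, mem_compl, hR0, mem_union, not_or] at hp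
    exact hp.1
  have hWA : ∀ p ∈ W, p ∉ YA := fun p hp h' => (hWrow p hp).1 (mem_image_of_mem _ h')
  have hWB : ∀ p ∈ W, p ∉ YB := fun p hp h' => (hWrow p hp).2 (mem_image_of_mem _ h')
  -- pairs with small links
  set G1 := W.filter fun p => 50 * n * (lk A p).card ≤ A.card with hG1
  set G2 := W.filter fun p => 50 * n * (lk B p).card ≤ B.card with hG2
  have hG1c : 10 * G1.card < 3 * n ^ 2 := by
    apply lemF hn h.stA h.dA (by linarith) G1
    · intro p hp
      exact (hWrow p (mem_filter.mp hp).1).1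
    · intro p hp
      exact (mem_filter.mp hp).2
  have hG2c : 10 * G2.card < 3 * n ^ 2 := by
    apply lemF hn h.stB h.dB (by linarith) G2
    · intro p hp
      exact (hWrow p (mem_filter.mp hp).1).2
    · intro p hp
      exact (mem_filter.mp hp).2
  -- regularised links
  have hreg : ∀ p : Fin n × Fin n, ∃ (Y1 : Finset (Fin n × Fin n)) (A1 : Finset (Perm (Fin n))),
      (p ∈ W ∧ p ∉ G1) → insert p YA ⊆ Y1 ∧ A1 ⊆ lk A p ∧ InSt Y1 A1 ∧ Spr 6 Y1 A1 ∧
        Den (a + 5) Y1 A1 := by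
    intro p
    by_cases hp : p ∈ W ∧ p ∉ G1
    · have h1 : A.card ≤ 50 * n * (lk A p).card := by
        have := hp.2
        rw [hG1, mem_filter, not_and, not_le] at this
        exact (this hp.1).le
      have hd : Den (a + 5) (insert p YA) (lk A p) := by
        apply den_insert (C := 50) hn0 h.dA (hWA p hp.1) (by omega) (by norm_num)
        · exact_mod_cast h1
        · have h2 := exp5_ge
          have h3 : Real.exp 1 ≤ 2.72 := by have := Real.exp_one_lt_d9; linarith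
          linarith
      obtain ⟨Y1, A1, h2, h3, h4, h5, h6⟩ := reg (inSt_insert_lk h.stA p) hd (by linarith)
      exact ⟨Y1, A1, fun _ => ⟨h2, h3, h4, h5, h6⟩⟩
    · exact ⟨∅, ∅, fun h' => absurd h' hp⟩
  choose Y1 A1 hYA1 using hreg
  set Z : Fin n × Fin n → Finset (Fin n × Fin n) := fun p => Y1 p \ insert p YA with hZ
  -- locked pairs
  set L := (W.filter fun p => p ∉ G1 ∧ p ∉ G2).filter fun p =>
    (lk B p).card ≤ 2 * ((lk B p).filter fun τ => (gr τ ∩ Z p).Nonempty).card with hL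
  have hLW : ∀ p ∈ L, p ∈ W ∧ p ∉ G1 ∧ p ∉ G2 := by
    intro p hp
    rw [hL, mem_filter, mem_filter] at hp
    exact hp.1
  have hLc : 10 * L.card < 3 * n ^ 2 := by
    apply lemL hn h.stB h.spB h.dB (by linarith) L Z
    · intro p hp
      exact (hWrow p (hLW p hp).1).2
    · intro p hp
      obtain ⟨h2, h3, h4, h5, h6⟩ := hYA1 p ⟨(hLW p hp).1, (hLW p hp).2.1⟩
      have h7 := h6.card_le h4
      have h8 : ((Z p).card : ℝ) ≤ (Y1 p).card := by
        exact_mod_cast card_le_card sdiff_subset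
      linarith
    · intro p hp q hq
      obtain ⟨h2, h3, h4, h5, h6⟩ := hYA1 p ⟨(hLW p hp).1, (hLW p hp).2.1⟩
      obtain ⟨σ, hσ⟩ := h6.nonempty
      rw [hZ, mem_sdiff, mem_insert, not_or] at hq
      have hqσ := h4 σ hσ hq.1
      have hpσ := h4 σ hσ (h2 (mem_insert_self _ _))
      constructor
      · intro he
        exact hq.2.1 (fst_injOn_gr σ (by exact_mod_cast hqσ) (by exact_mod_cast hpσ) he)
      · intro hqB
        have hσA : σ ∈ A := lk_subset A p (h3 hσ)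
        exact hq.2.2 (h.cA σ hσA (mem_inter.mpr ⟨hqσ, hqB⟩))
    · intro p hp
      have := (hLW p hp).2.2
      rw [hG2, mem_filter, not_and, not_le] at this
      exact (this (hLW p hp).1).le
    · intro p hp
      exact (mem_filter.mp hp).2
  -- a good pair
  obtain ⟨p, hpW, hpN⟩ : ∃ p ∈ W, p ∉ G1 ∪ G2 ∪ L := by
    by_contra hc
    push Not at hc
    have h1 : W.card ≤ (G1 ∪ G2 ∪ L).card := card_le_card hc
    have h2 : (G1 ∪ G2 ∪ L).card ≤ G1.card + G2.card + L.card :=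
      (card_union_le _ _).trans (Nat.add_le_add_right (card_union_le _ _) _)
    have h3 : 0 < n ^ 2 := by positivity
    omega
  rw [mem_union, mem_union, not_or, not_or] at hpN
  obtain ⟨⟨hp1, hp2⟩, hpL⟩ := hpN
  obtain ⟨hY1, hA1, hS1, hsp1, hD1⟩ := hYA1 p ⟨hpW, hp1⟩
  have hpA := hWA p hpW
  have hpB := hWB p hpW
  -- the other side
  set Bm := (lk B p).filter fun τ => ¬ (gr τ ∩ Z p).Nonempty with hBm
  have hBmhalf : (lk B p).card ≤ 2 * Bm.card := by
    have h1 : ((lk B p).filter fun τ => (gr τ ∩ Z p).Nonempty).card + Bm.card = (lk B p).card :=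
      card_filter_add_card_filter_not _
    have h2 : 2 * ((lk B p).filter fun τ => (gr τ ∩ Z p).Nonempty).card < (lk B p).card := by
      by_contra hc
      push Not at hc
      exact hpL (mem_filter.mpr ⟨mem_filter.mpr ⟨hpW, hp1, hp2⟩, hc⟩)
    omega
  have hBmB : Bm ⊆ lk B p := filter_subset _ _
  have hDm : Den (b + 6) (insert p YB) Bm := by
    apply den_insert (C := 100) hn0 h.dB hpB (by omega) (by norm_num)
    · have h1 : B.card ≤ 50 * n * (lk B p).card := by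
        rw [hG2, mem_filter, not_and, not_le] at hp2
        exact (hp2 hpW).le
      have h2 : B.card ≤ 100 * n * Bm.card := by
        calc B.card ≤ 50 * n * (lk B p).card := h1
          _ ≤ 50 * n * (2 * Bm.card) := by gcongr
          _ = _ := by ring
      exact_mod_cast h2
    · have h2 := exp6_ge
      have h3 : Real.exp 1 ≤ 2.72 := by have := Real.exp_one_lt_d9; linarith
      linarith
  obtain ⟨Y2, B', hY2, hB', hS2, hsp2, hD2⟩ := reg ((inSt_insert_lk h.stB p).mono hBmB) hDm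
    (by linarith)
  have hB'B : B' ⊆ B := hB'.trans (hBmB.trans (lk_subset B p))
  have hA1A : A1 p ⊆ A := hA1.trans (lk_subset A p)
  have hY2c := hD2.card_le hS2
  have hY1c := hD1.card_le hS1
  obtain ⟨τ₀, hτ₀⟩ := hD2.nonempty
  have hB'Z : ∀ τ ∈ B', ∀ q ∈ gr τ, q ∉ Z p := by
    intro τ hτ q hq hqZ
    have := (mem_filter.mp (hB' hτ)).2
    exact this ⟨q, mem_inter.mpr ⟨hq, hqZ⟩⟩
  -- the new pairs on the second side are not in `Y1`
  have hnew : ∀ q ∈ Y2 \ insert p YB, q ∉ Y1 p := by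
    intro q hq hq1
    rw [mem_sdiff, mem_insert, not_or] at hq
    obtain ⟨hq2, hqp, hqB⟩ := hq
    have hqτ := hS2 τ₀ hτ₀ hq2
    have hqZ := hB'Z τ₀ hτ₀ q hqτ
    rw [hZ, mem_sdiff, not_and, not_not, mem_insert] at hqZ
    rcases hqZ hq1 with h1 | h1
    · exact hqp h1
    · exact hqB (h.cB τ₀ (hB'B hτ₀) (mem_inter.mpr ⟨hqτ, h1⟩))
  set A' := (A1 p).filter fun σ => Disjoint (gr σ) (Y2 \ insert p YB) with hA'
  have hA'A1 : A' ⊆ A1 p := filter_subset _ _
  have h34 : 3 * (A1 p).card ≤ 4 * A'.card := by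
    apply filt hn0 hsp1 hnew
    have h1 : (Y2 \ insert p YB).card ≤ Y2.card := card_le_card sdiff_subset
    have h2 : (24 : ℝ) * Y2.card ≤ n := by linarith
    have h3 : 24 * Y2.card ≤ n := by exact_mod_cast h2
    omega
  have hDA' : Den (a + 6) (Y1 p) A' := by
    have h1 : Den (a + 5 + 1) (Y1 p) A' := by
      apply hD1.scale
      have h2 : (2.7 : ℝ) ≤ Real.exp 1 := by have := Real.exp_one_gt_d9; linarith
      have h3 : (3 : ℝ) * (A1 p).card ≤ 4 * A'.card := by exact_mod_cast h34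
      have h4 : (0 : ℝ) ≤ A'.card := Nat.cast_nonneg _
      nlinarith
    have h2 : a + 5 + 1 = a + 6 := by ring
    rwa [h2] at h1
  obtain ⟨σ₀, hσ₀⟩ := hDA'.nonempty
  have hA'Z : ∀ σ ∈ A', ∀ q ∈ gr σ, q ∉ Y2 \ insert p YB := by
    intro σ hσ q hq
    exact (disjoint_left.mp (mem_filter.mp hσ).2) hq
  refine ⟨Y1 p, Y2, A', B', hA'A1.trans hA1A, hB'B, ?_, ?_⟩
  · constructor
    · exact hS1.mono hA'A1
    · exact hS2
    · intro q hq
      have h1 := hsp1 q hq
      have h2 := card_lk_mono hA'A1 q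
      calc n * (lk A' q).card ≤ n * (lk (A1 p) q).card := by gcongr
        _ ≤ 6 * (A1 p).card := h1
        _ ≤ 8 * A'.card := by omega
    · exact hsp2.mono (by norm_num)
    · exact hDA'
    · exact hD2
    · intro σ hσ q hq
      rw [mem_inter] at hq
      have h1 := hA'Z σ hσ q hq.1
      rw [mem_sdiff, not_and, not_not, mem_insert] at h1
      rcases h1 hq.2 with h2 | h2
      · rw [h2]
        exact hY1 (mem_insert_self _ _)
      · exact hY1 (mem_insert_of_mem (h.cA σ (hA1A (hA'A1 hσ)) (mem_inter.mpr ⟨hq.1, h2⟩)))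
    · intro τ hτ q hq
      rw [mem_inter] at hq
      have h1 := hB'Z τ hτ q hq.1
      rw [hZ, mem_sdiff, not_and, not_not, mem_insert] at h1
      rcases h1 hq.2 with h2 | h2
      · rw [h2]
        exact hY2 (mem_insert_self _ _)
      · exact hY2 (mem_insert_of_mem (h.cB τ (hB'B hτ) (mem_inter.mpr ⟨hq.1, h2⟩)))
  · have hint : Y1 p ∩ Y2 = insert p (YA ∩ YB) := by
      ext q
      rw [mem_inter, mem_insert, mem_inter]
      constructor
      · rintro ⟨hq1, hq2⟩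
        have h1 : q ∉ Y2 \ insert p YB := fun h' => hnew q h' hq1
        rw [mem_sdiff, not_and, not_not, mem_insert] at h1
        rcases h1 hq2 with h2 | h2
        · exact Or.inl h2
        · right
          have hqτ := hS2 τ₀ hτ₀ hq2
          have h3 := hB'Z τ₀ hτ₀ q hqτ
          rw [hZ, mem_sdiff, not_and, not_not, mem_insert] at h3
          rcases h3 hq1 with h4 | h4
          · exfalso
            rw [h4] at h2
            exact hpB h2
          · exact ⟨h4, h2⟩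
      · rintro (hq | ⟨h1, h2⟩)
        · rw [hq]
          exact ⟨hY1 (mem_insert_self _ _), hY2 (mem_insert_self _ _)⟩
        · exact ⟨hY1 (mem_insert_of_mem h1), hY2 (mem_insert_of_mem h2)⟩
    rw [hint, card_insert_of_notMem]
    rw [mem_inter]
    exact fun h' => hpA h'.1

end Pool.Agent.FI37
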