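import Pool.Agent.FI37.Defs

/-!
# Union bound

PROOF. If `|gr τ ∩ H| ≥ x` there is `V ⊆ gr τ ∩ H` with `|V| = x`; `V ∈ H.powersetCard x` and
`τ ∈ st (Y ∪ V)`, `|Y ∪ V| = |Y| + x` as `V` is disjoint from `Y`; `card_st_le`.
`card_biUnion_le_card_mul`.
-/

namespace Pool.Agent.FI37

open Finset Equiv Nat Pool.Agent.H17.PermInt

variable {n : ℕ}

theorem ut (Y H : Finset (Fin n × Fin n)) (hYH : Disjoint Y H) (x : ℕ) :
    ((st Y).filter fun τ => x ≤ (gr τ ∩ H).card).card ≤ H.card.choose x * (n - Y.card - x)! := by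
  classical
  have hsub : ((st Y).filter fun τ => x ≤ (gr τ ∩ H).card) ⊆
      (H.powersetCard x).biUnion fun V => st (Y ∪ V) := by
    intro τ hτ
    rw [mem_filter, mem_st] at hτ
    obtain ⟨V, hV, hVc⟩ := exists_subset_card_eq hτ.2
    rw [mem_biUnion]
    refine ⟨V, ?_, ?_⟩
    · rw [mem_powersetCard]
      exact ⟨hV.trans inter_subset_right, hVc⟩
    · rw [mem_st]
      exact union_subset hτ.1 (hV.trans inter_subset_left)
  calc _ ≤ _ := card_le_card hsub
    _ ≤ (H.powersetCard x).card * (n - Y.card - x)! := by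
        apply card_biUnion_le_card_mul
        intro V hV
        rw [mem_powersetCard] at hV
        have h1 : (Y ∪ V).card = Y.card + x := by
          rw [card_union_of_disjoint (hYH.mono_right hV.1), hV.2]
        have h2 := card_st_le (Y ∪ V)
        rwa [h1, ← Nat.sub_sub] at h2
    _ = _ := by rw [card_powersetCard]

end Pool.Agent.FI37
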